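import Pool.Agent.Q155.GN.Stm3

/-!
# Project GN: the consequences for the two curves
-/

set_option autoImplicit false
set_option linter.unusedVariables false

open scoped Classical

namespace Q155.GN

open Finset NumberField IsDedekindDomain
open H385 (ZI nrm)
open Pool.Agent.Y699 (PP PS qr)
open Pool.Agent.Y682 (IsT MP S1 S2)
open Pool.Agent.Y715.Z (em0)
open Pool.Agent.TH841.NF.D (Sha)

/-- the arithmetic ingredients -/
structure Ing3 : Prop where
  sel : S_SEL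
  cv : S_CV
  tor : S_TOR
  lgd : S_LGD
  ltw : S_LTW
  lbd : S_LBD
  cnv : S_CNV

variable {K : Type} [Field K] [NumberField K]

/-- if the corank is not zero, then there are infinitely many points or `Ш[2]` is not zero -/
theorem other_of (g : Ing3) (hs : SymP) {S : Finset ZI} (hP : ∀ π ∈ S, PP π) (ho : Od S)
    (e : ZI ≃+* 𝓞 K) {W : WeierstrassCurve K} (hW : Cu W (em0 e (∏ π ∈ S, π))) (hb : bb S ≠ 0) :
    Infinite W.toAffine.Point ∨ ∃ x : Sha W, x ≠ 0 ∧ x + x = 0 := by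
  by_cases h : Finite (MP W)
  · right
    obtain ⟨f, hf, h2⟩ := g.cnv hs g.cv g.tor g.lgd g.ltw g.lbd S hP ho K e W hW h
    have h1 : 1 < 2 ^ bb S := Nat.one_lt_two_pow hb
    have h3 : f ⟨0, by omega⟩ ≠ f ⟨1, h1⟩ := fun h4 => by
      have h5 := Fin.mk.inj_iff.1 (hf h4)
      omega
    by_cases h4 : f ⟨0, by omega⟩ = 0
    · exact ⟨f ⟨1, h1⟩, fun h5 => h3 (h4.trans h5.symm), h2 _⟩
    · exact ⟨f ⟨0, by omega⟩, h4, h2 _⟩
  · left
    exact not_finite_iff_infinite.1 h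

/-- the upper bound -/
theorem sel_le (g : Ing3) (hs : SymP) {S : Finset ZI} (hP : ∀ π ∈ S, PP π) (ho : Od S)
    (e : ZI ≃+* 𝓞 K) {W : WeierstrassCurve K} (hW : Cu W (em0 e (∏ π ∈ S, π))) :
    Finite {x : Sha W // 2 • x = 0} ∧
      2 ^ (Module.finrank ℤ (MP W)) * Nat.card {x : Sha W // 2 • x = 0} ≤ 4 ^ bb S :=
  g.sel hs S hP ho K e W hW

/-- if the corank is zero, then the 2-primary part of `Ш` is trivial -/
theorem sha_zero (g : Ing3) (hs : SymP) {S : Finset ZI} (hP : ∀ π ∈ S, PP π) (ho : Od S)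
    (e : ZI ≃+* 𝓞 K) {W : WeierstrassCurve K} (hW : Cu W (em0 e (∏ π ∈ S, π))) (hb : bb S = 0)
    (n : ℕ) (x : Sha W) (hx : 2 ^ n • x = 0) : x = 0 := by
  obtain ⟨h1, h2⟩ := sel_le g hs hP ho e hW
  rw [hb, pow_zero] at h2
  have h3 : Nat.card {x : Sha W // 2 • x = 0} ≤ 1 := by
    have h7 : 1 ≤ 2 ^ (Module.finrank ℤ (MP W)) := Nat.one_le_two_pow
    nlinarith
  have h6 : Subsingleton {x : Sha W // 2 • x = 0} := Finite.card_le_one_iff_subsingleton.1 h3
  have h7 : ∀ y : Sha W, 2 • y = 0 → y = 0 := fun y hy =>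
    congrArg Subtype.val (@Subsingleton.elim _ h6 ⟨y, hy⟩ ⟨0, smul_zero _⟩)
  induction n with
  | zero => rwa [pow_zero, one_smul] at hx
  | succ n ih =>
    apply ih
    apply h7
    rw [smul_smul, mul_comm, ← pow_succ]
    exact hx

end Q155.GN
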