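import Pool.Agent.Q155.GN.Main5

/-!
# Project GN: one set of relative density one for countably many properties
-/

set_option autoImplicit false
set_option linter.unusedVariables false

namespace Q155.GN

open Finset Filter Topology
open H385 (ZI nrm)
open Pool.Agent.Y699 (PP PS qr QB SB PD)
open scoped Classical

/-- the number of the squarefree primary elements up to `X` with the property `P` -/
noncomputable def cnt (P : ZI → Prop) (X : ℕ) : ℕ := (Fm P X).card

/-- almost all squarefree primary elements satisfy `T` -/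
def Alm (T : ZI → Prop) : Prop :=
  ∀ ε : ℝ, 0 < ε → ∀ᶠ X : ℕ in atTop, (cnt (fun D => ¬ T D) X : ℝ) ≤ ε * cnt (fun _ => True) X

theorem cnt_mono {P Q : ZI → Prop} (h : ∀ D, PS D → P D → Q D) (X : ℕ) : cnt P X ≤ cnt Q X :=
  Finset.card_le_card fun D hD => mem_Fm.2 ⟨(mem_Fm.1 hD).1, h D (mem_Fm.1 hD).1.2 (mem_Fm.1 hD).2⟩

theorem cnt_add (C T : ZI → Prop) (X : ℕ) :
    cnt (fun D => C D ∧ T D) X + cnt (fun D => C D ∧ ¬ T D) X = cnt C X := by
  unfold cnt
  rw [← Finset.card_union_of_disjoint]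
  · congr 1
    ext D
    rw [Finset.mem_union, mem_Fm, mem_Fm, mem_Fm]
    tauto
  · rw [Finset.disjoint_left]
    intro D h1 h2
    exact (mem_Fm.1 h2).2.2 (mem_Fm.1 h1).2.2

theorem alm_of_tendsto {C T : ZI → Prop}
    (h : Tendsto (fun X : ℕ => (cnt (fun D => C D ∧ T D) X : ℝ) / cnt C X) atTop (𝓝 1)) :
    Alm (fun D => C D → T D) := by
  intro ε hε
  have h1 : ∀ᶠ X : ℕ in atTop, 1 - ε < (cnt (fun D => C D ∧ T D) X : ℝ) / cnt C X :=
    h.eventually (lt_mem_nhds (by linarith))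
  filter_upwards [h1] with X hX
  have h2 : (cnt (fun D => C D ∧ T D) X : ℝ) + cnt (fun D => C D ∧ ¬ T D) X = cnt C X := by
    exact_mod_cast cnt_add C T X
  have h3 : (cnt (fun D => ¬ (C D → T D)) X : ℝ) ≤ cnt (fun D => C D ∧ ¬ T D) X := by
    have := cnt_mono (P := fun D => ¬ (C D → T D)) (Q := fun D => C D ∧ ¬ T D)
      (fun D _ h => Classical.not_imp.1 h) X
    exact_mod_cast this
  have h4 : (cnt C X : ℝ) ≤ cnt (fun _ => True) X := by
    have := cnt_mono (P := C) (Q := fun _ => True) (fun D _ h => trivial) X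
    exact_mod_cast this
  refine h3.trans ?_
  rcases Nat.eq_zero_or_pos (cnt C X) with h0 | h0
  · rw [h0] at h2
    have : (0 : ℝ) ≤ (cnt (fun D => C D ∧ T D) X : ℝ) := Nat.cast_nonneg _
    have h5 : (0 : ℝ) ≤ (cnt (fun _ => True) X : ℝ) := Nat.cast_nonneg _
    push_cast at h2
    nlinarith
  · have h0' : (0 : ℝ) < cnt C X := by exact_mod_cast h0
    rw [lt_div_iff₀ h0'] at hX
    nlinarith

theorem tendsto_of_alm {T : ZI → Prop} (h : Alm T) :
    Tendsto (fun X : ℕ => (cnt T X : ℝ) / cnt (fun _ => True) X) atTop (𝓝 1) := by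
  have hpos : ∀ X : ℕ, 1 ≤ X → (0 : ℝ) < cnt (fun _ => True) X := by
    intro X hX
    have h1 : PS (1 : ZI) := ⟨Pool.Agent.H304R2.EC.A1.prim_one, squarefree_one⟩
    have : 0 < cnt (fun _ => True) X := Finset.card_pos.2 ⟨1, mem_Fm.2 ⟨⟨by
      have : nrm (1 : ZI) = 1 := by decide
      omega, h1⟩, trivial⟩⟩
    exact_mod_cast this
  rw [Metric.tendsto_atTop]
  intro ε hε
  obtain ⟨X₀, h1⟩ := eventually_atTop.1 (h (ε / 2) (by positivity))
  refine ⟨max X₀ 1, fun X hX => ?_⟩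
  have h2 := h1 X (le_trans (le_max_left _ _) hX)
  have h3 := hpos X (le_trans (le_max_right _ _) hX)
  have h4 : (cnt T X : ℝ) + cnt (fun D => ¬ T D) X = cnt (fun _ => True) X := by
    have h5 := cnt_add (fun _ => True) T X
    simp only [true_and] at h5
    exact_mod_cast h5
  rw [Real.dist_eq]
  have h5 : (cnt T X : ℝ) / cnt (fun _ => True) X - 1 =
      -((cnt (fun D => ¬ T D) X : ℝ) / cnt (fun _ => True) X) := by
    rw [div_sub_one h3.ne', ← h4]
    ring
  rw [h5, abs_neg, abs_of_nonneg (by positivity), div_lt_iff₀ h3]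
  nlinarith

theorem alm_mono {T T' : ZI → Prop} (h : Alm T) (h' : ∀ D, PS D → T D → T' D) : Alm T' := by
  intro ε hε
  filter_upwards [h ε hε] with X hX
  refine le_trans ?_ hX
  have h1 : cnt (fun D => ¬ T' D) X ≤ cnt (fun D => ¬ T D) X :=
    cnt_mono (fun D hD (h2 : ¬ T' D) => fun ht => h2 (h' D hD ht)) X
  exact_mod_cast h1

theorem alm_and {T T' : ZI → Prop} (h : Alm T) (h' : Alm T') : Alm fun D => T D ∧ T' D := by
  intro ε hε
  filter_upwards [h (ε / 2) (by positivity), h' (ε / 2) (by positivity)] with X h1 h2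
  have h3 : cnt (fun D => ¬ (T D ∧ T' D)) X ≤ cnt (fun D => ¬ T D) X + cnt (fun D => ¬ T' D) X := by
    unfold cnt
    refine le_trans (Finset.card_le_card ?_) (Finset.card_union_le _ _)
    intro D hD
    obtain ⟨k1, k3⟩ := mem_Fm.1 hD
    by_cases ht : T D
    · exact Finset.mem_union_right _ (mem_Fm.2 ⟨k1, fun h'' => k3 ⟨ht, h''⟩⟩)
    · exact Finset.mem_union_left _ (mem_Fm.2 ⟨k1, ht⟩)
  have h4 : (cnt (fun D => ¬ (T D ∧ T' D)) X : ℝ) ≤
      cnt (fun D => ¬ T D) X + cnt (fun D => ¬ T' D) X := by exact_mod_cast h3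
  linarith

theorem alm_true : Alm fun _ => True := by
  intro ε hε
  filter_upwards with X
  have : cnt (fun D => ¬ True) X = 0 := by
    unfold cnt
    rw [Finset.card_eq_zero, Finset.eq_empty_iff_forall_notMem]
    intro D h
    exact (mem_Fm.1 h).2 trivial
  rw [this]
  push_cast
  positivity

theorem alm_finset {κ : Type} {T : κ → ZI → Prop} (s : Finset κ)
    (h : ∀ k ∈ s, Alm (T k)) : Alm fun D => ∀ k ∈ s, T k D := by
  induction s using Finset.induction_on with
  | empty => exact alm_mono alm_true fun D _ _ k hk => absurd hk (Finset.notMem_empty k)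
  | @insert a s ha ih =>
    refine alm_mono (alm_and (h a (Finset.mem_insert_self a s))
      (ih fun k hk => h k (Finset.mem_insert_of_mem hk))) fun D _ hD k hk => ?_
    rcases Finset.mem_insert.1 hk with rfl | hk
    · exact hD.1
    · exact hD.2 k hk

/-- **One set of relative density one for countably many properties.** -/
theorem exists_dense {T : ℕ → ZI → Prop} (h : ∀ j, Alm (T j)) :
    ∃ S : ZI → Prop, Alm S ∧ ∀ j, ∃ N : ℕ, ∀ D, N ≤ nrm D → S D → T j D := by
  have h1 : ∀ j, Alm fun D => ∀ i ∈ range (j + 1), T i D := fun j =>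
    alm_finset (range (j + 1)) fun i _ => h i
  have h2 : ∀ j : ℕ, ∃ a : ℕ, ∀ X, a ≤ X →
      (cnt (fun D => ¬ ∀ i ∈ range (j + 1), T i D) X : ℝ) ≤ 1 / (j + 1) * cnt (fun _ => True) X :=
    fun j => eventually_atTop.1 (h1 j (1 / (j + 1)) (by positivity))
  choose a ha using h2
  set b : ℕ → ℕ := fun j => ∑ i ∈ range (j + 1), (a i + 1) with hb
  have hab : ∀ j, a j ≤ b j := fun j =>
    (Nat.le_succ _).trans (Finset.single_le_sum (f := fun i => a i + 1) (fun _ _ => Nat.zero_le _)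
      (Finset.self_mem_range_succ j))
  have hjb : ∀ j, j ≤ b j := by
    intro j
    have h3 : ∑ i ∈ range (j + 1), 1 ≤ ∑ i ∈ range (j + 1), (a i + 1) :=
      Finset.sum_le_sum fun i _ => Nat.le_add_left 1 (a i)
    rw [Finset.sum_const, Finset.card_range, smul_eq_mul, mul_one] at h3
    show j ≤ ∑ i ∈ range (j + 1), (a i + 1)
    omega
  refine ⟨fun D => ∀ j, b j ≤ nrm D → ∀ i ∈ range (j + 1), T i D, ?_, ?_⟩
  · intro ε hε
    obtain ⟨J, hJ⟩ := exists_nat_gt (1 / ε)
    filter_upwards [eventually_ge_atTop (b J)] with X hX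
    set J' := Nat.findGreatest (fun j => b j ≤ X) X with hJ'
    have hbJ' : b J' ≤ X := by
      have := Nat.findGreatest_spec (P := fun j => b j ≤ X) ((hjb J).trans hX) hX
      exact this
    have hJJ' : J ≤ J' := Nat.le_findGreatest ((hjb J).trans hX) hX
    have h4 : cnt (fun D => ¬ ∀ j, b j ≤ nrm D → ∀ i ∈ range (j + 1), T i D) X ≤
        cnt (fun D => ¬ ∀ i ∈ range (J' + 1), T i D) X := by
      unfold cnt
      refine Finset.card_le_card fun D hD => ?_
      obtain ⟨k1, k3⟩ := mem_Fm.1 hD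
      refine mem_Fm.2 ⟨k1, fun k4 => k3 fun j hj i hi => k4 i ?_⟩
      have k5 : b j ≤ X := hj.trans k1.1
      have k6 : j ≤ J' := Nat.le_findGreatest ((hjb j).trans k5) k5
      rw [Finset.mem_range] at hi ⊢
      omega
    have h5 := ha J' X ((hab J').trans hbJ')
    have h6 : (cnt (fun D => ¬ ∀ j, b j ≤ nrm D → ∀ i ∈ range (j + 1), T i D) X : ℝ) ≤
        cnt (fun D => ¬ ∀ i ∈ range (J' + 1), T i D) X := by exact_mod_cast h4
    refine h6.trans (h5.trans (mul_le_mul_of_nonneg_right ?_ (Nat.cast_nonneg _)))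
    have h7 : (1 : ℝ) / ε < J' + 1 := by
      have : (J : ℝ) ≤ J' := by exact_mod_cast hJJ'
      linarith
    rw [div_le_iff₀ (by positivity)]
    rw [div_lt_iff₀ hε] at h7
    linarith
  · intro j
    exact ⟨b j, fun D hD hS => hS j hD j (Finset.self_mem_range_succ j)⟩

theorem dense_law {κ : Type} [Countable κ]
    (T : κ → ℝ → ZI → Prop) (hT : ∀ k ε ε' D, T k ε D → ε ≤ ε' → T k ε' D)
    (h : ∀ k, ∀ ε : ℝ, 0 < ε → Alm (T k ε)) :
    ∃ S : ZI → Prop, (∀ D, S D → PS D) ∧
    Tendsto (fun X : ℕ => (cnt S X : ℝ) / cnt (fun _ => True) X) atTop (𝓝 1) ∧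
    ∀ k, ∀ ε : ℝ, 0 < ε → ∃ N : ℕ, ∀ D, N ≤ nrm D → S D → T k ε D := by
  have : Encodable κ := Encodable.ofCountable κ
  obtain ⟨S, h1, h2⟩ := exists_dense
    (T := fun j D => ∀ m : κ, Encodable.encode m = (Nat.unpair j).1 →
      T m (1 / ((Nat.unpair j).2 + 1 : ℝ)) D)
    (fun j => by
      by_cases hj : ∃ m : κ, Encodable.encode m = (Nat.unpair j).1
      · obtain ⟨m, hm⟩ := hj
        refine alm_mono (h m _ (by positivity : (0 : ℝ) < 1 / ((Nat.unpair j).2 + 1 : ℝ)))
          fun D _ h' m' hm' => ?_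
        have e : m' = m := Encodable.encode_injective (hm'.trans hm.symm)
        rw [e]
        exact h'
      · exact alm_mono alm_true fun D _ _ m hm => absurd ⟨m, hm⟩ hj)
  refine ⟨fun D => PS D ∧ S D, fun D h => h.1,
    tendsto_of_alm (alm_mono h1 fun D hD hS => ⟨hD, hS⟩), ?_⟩
  intro m ε hε
  obtain ⟨n, hn⟩ := exists_nat_gt (1 / ε)
  obtain ⟨N, hN⟩ := h2 (Nat.pair (Encodable.encode m) n)
  refine ⟨N, fun D hD hS => ?_⟩
  have h3 := hN D hD hS.2 m (by rw [Nat.unpair_pair])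
  rw [Nat.unpair_pair] at h3
  refine hT _ _ _ _ h3 ?_
  rw [div_le_iff₀ (by positivity)]
  rw [div_lt_iff₀ hε] at hn
  nlinarith

theorem LawR.mono {u : ZI} {ε δ : ℝ} {c : ZMod 4} {D : ZI} (h : LawR u ε c D) (hδ : ε ≤ δ) :
    LawR u δ c D := by
  have h0 : (0 : ℝ) ≤ ((Dv D).card : ℝ) := Nat.cast_nonneg _
  have h1 : (0 : ℝ) ≤ ((Cs u c D).card : ℝ) := Nat.cast_nonneg _
  refine ⟨?_, ?_, fun b => ?_, ?_⟩
  · refine le_trans ?_ h.big
    nlinarith
  · refine h.sml.trans ?_
    nlinarith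
  · refine (h.law b).trans ?_
    nlinarith
  · refine h.two.trans ?_
    nlinarith

instance : Countable ZI :=
  Function.Injective.countable (f := fun z : ZI => (z.re, z.im)) fun z w h => by
    obtain ⟨h1, h2⟩ := Prod.mk.inj h
    exact Zsqrtd.ext h1 h2

/-- **One set for all multipliers.** -/
theorem one_set (g : Ing2) : ∃ S : ZI → Prop, (∀ D, S D → PS D) ∧
    Tendsto (fun X : ℕ => (cnt S X : ℝ) / cnt (fun _ => True) X) atTop (𝓝 1) ∧
    ∀ u, PS u → ∀ ε : ℝ, 0 < ε → ∃ N : ℕ, ∀ D, N ≤ nrm D → S D → IsCoprime D u →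
      ∀ c, LawR u ε c D := by
  obtain ⟨S, h1, h2, h3⟩ := dense_law (κ := ZI)
    (fun u ε D => PS u → IsCoprime D u → ∀ c, LawR u ε c D)
    (fun u ε ε' D h h' hu hc c => (h hu hc c).mono h')
    (fun u ε hε => by
      by_cases hu : PS u
      · have h4 : 0 < min (1 / 8) (ε / 24) := by positivity
        refine alm_mono (alm_of_tendsto (quenchedD g hu h4)) fun D hD h5 _ hc c => ?_
        exact lawR_of hD (min_le_left _ _) (by
          have := min_le_right (1 / 8) (ε / 24)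
          linarith) h4.le (h5 hc) c
      · exact alm_mono alm_true fun D _ _ h => absurd h hu)
  exact ⟨S, h1, h2, fun u hu ε hε => by
    obtain ⟨N, hN⟩ := h3 u ε hε
    exact ⟨N, fun D hD hS hc => hN D hD hS hu hc⟩⟩

end Q155.GN
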