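import Pool.Agent.Q155.GN.LqA
import Pool.Agent.Q155.NL.Law
import Pool.Agent.Q283.GM.LA
import Pool.Agent.Q95.GN.Sel

/-!
# Project GN: the joint law of several twists for given labels of the large primes
-/

set_option autoImplicit false
set_option linter.unusedVariables false
set_option linter.unusedSectionVars false

open scoped Classical

namespace Q155.GN.LJ

open Finset Module
open H385 (ZI nrm)
open Pool.Agent.Y699 (PP)
open Q155.KT (z2_all z2_dbl)
open Q155.KG (al)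
open Q283.GM (KM mem_KM t_LA cR)
open Q155.GN.LQ (sd_union sd_sub mem_prs)

/-- the part of `A` in the type `S₁` -/
noncomputable def pt (S₁ A : Finset ZI) : Finset S₁ := univ.filter fun u : S₁ => (u : ZI) ∈ A

theorem mem_pt {S₁ A : Finset ZI} (u : S₁) : u ∈ pt S₁ A ↔ (u : ZI) ∈ A := by
  unfold pt
  rw [mem_filter]
  exact and_iff_right (mem_univ _)

theorem sum_pt {S₁ T : Finset ZI} (hT : T ⊆ S₁) (h : ZI → ZMod 2) :
    ∑ x ∈ T, h x = ∑ u ∈ pt S₁ T, h u := by
  unfold pt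
  rw [Finset.sum_filter, Finset.sum_coe_sort S₁ (fun x => if x ∈ T then h x else 0),
    Finset.sum_ite_mem, Finset.inter_eq_right.2 hT]

theorem add_pt {S₁ A B : Finset ZI} (h : S₁ → ZMod 2) :
    ∑ u ∈ pt S₁ A, h u + ∑ u ∈ pt S₁ B, h u = ∑ u ∈ pt S₁ (symmDiff A B), h u := by
  unfold pt
  rw [Finset.sum_filter, Finset.sum_filter, Finset.sum_filter, ← Finset.sum_add_distrib]
  refine Finset.sum_congr rfl fun u _ => ?_
  by_cases h1 : (u : ZI) ∈ A
  · by_cases h2 : (u : ZI) ∈ B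
    · have h3 : (u : ZI) ∉ symmDiff A B := by
        rw [Finset.mem_symmDiff]
        tauto
      rw [if_pos h1, if_pos h2, if_neg h3]
      exact z2_dbl _
    · have h3 : (u : ZI) ∈ symmDiff A B := by
        rw [Finset.mem_symmDiff]
        tauto
      rw [if_pos h1, if_neg h2, if_pos h3, add_zero]
  · by_cases h2 : (u : ZI) ∈ B
    · have h3 : (u : ZI) ∈ symmDiff A B := by
        rw [Finset.mem_symmDiff]
        tauto
      rw [if_neg h1, if_pos h2, if_pos h3, zero_add]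
    · have h3 : (u : ZI) ∉ symmDiff A B := by
        rw [Finset.mem_symmDiff]
        tauto
      rw [if_neg h1, if_neg h2, if_neg h3, add_zero]

theorem sd_sd (S₀ U V : Finset ZI) : symmDiff (symmDiff S₀ U) (symmDiff S₀ V) = symmDiff U V := by
  ext x
  simp only [Finset.mem_symmDiff]
  tauto

/-- the vectors of the kernel which vanish at the root -/
def K0 (S : Finset ZI) (ρ : ZI) : Submodule (ZMod 2) (ZI → ZMod 2) :=
  Kl S ⊓ LinearMap.ker (LinearMap.proj ρ : (ZI → ZMod 2) →ₗ[ZMod 2] ZMod 2)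

theorem mem_K0 {S : Finset ZI} {ρ : ZI} {x : ZI → ZMod 2} : x ∈ K0 S ρ ↔ x ∈ Kl S ∧ x ρ = 0 := by
  unfold K0
  rw [Submodule.mem_inf, LinearMap.mem_ker]
  exact Iff.rfl

theorem one_mem (S : Finset ZI) : (fun π => if π ∈ S then (1 : ZMod 2) else 0) ∈ Kl S := by
  rw [mem_Kl]
  refine ⟨fun π hπ => if_neg hπ, fun π hπ => ?_⟩
  refine Finset.sum_eq_zero fun ρ hρ => ?_
  have : (1 : ZMod 2) + 1 = 0 := by decide
  simp only [if_pos hπ, if_pos hρ, this, mul_zero]

theorem finrank_K0 {S : Finset ZI} {ρ : ZI} (hρ : ρ ∈ S) : finrank (ZMod 2) (K0 S ρ) = bb S := by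
  have := Pool.Agent.Q95.GN.fin_Kl S
  have hfin : Module.Finite (ZMod 2) (Kl S) := Module.Finite.of_finite
  obtain ⟨ev, hev⟩ : ∃ ev : Kl S →ₗ[ZMod 2] ZMod 2, ∀ x, ev x = x.1 ρ :=
    ⟨(LinearMap.proj ρ : (ZI → ZMod 2) →ₗ[ZMod 2] ZMod 2).comp (Kl S).subtype, fun _ => rfl⟩
  have h1 := LinearMap.finrank_range_add_finrank_ker ev
  have h2 : LinearMap.range ev = ⊤ := by
    rw [LinearMap.range_eq_top]
    intro c
    refine ⟨c • ⟨_, one_mem S⟩, ?_⟩
    rw [map_smul, hev]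
    show c • (if ρ ∈ S then (1 : ZMod 2) else 0) = c
    rw [if_pos hρ, smul_eq_mul, mul_one]
  rw [h2, finrank_top, finrank_self] at h1
  have h3 : (LinearMap.ker ev).map (Kl S).subtype = K0 S ρ := by
    ext x
    rw [Submodule.mem_map, mem_K0]
    constructor
    · rintro ⟨y, hy, rfl⟩
      refine ⟨y.2, ?_⟩
      rw [LinearMap.mem_ker, hev] at hy
      exact hy
    · rintro ⟨hx, hx0⟩
      refine ⟨⟨x, hx⟩, ?_, rfl⟩
      rw [LinearMap.mem_ker, hev]
      exact hx0
  have h4 : finrank (ZMod 2) (LinearMap.ker ev) = finrank (ZMod 2) (K0 S ρ) := by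
    rw [← h3]
    exact (Submodule.equivMapOfInjective (Kl S).subtype (Kl S).injective_subtype _).finrank_eq
  unfold bb
  omega

/-- the equation of the root -/
theorem root_eq {S : Finset ZI} {ρ : ZI} (hρ : ρ ∈ S) (hs : ∀ π ∈ S, ∀ σ ∈ S, s π σ = s σ π)
    (x : ZI → ZMod 2) (h : ∀ π ∈ S, π ≠ ρ → ∑ σ ∈ S, s π σ * (x σ + x π) = 0) :
    ∑ σ ∈ S, s ρ σ * (x σ + x ρ) = 0 := by
  have h1 : ∑ π ∈ S, ∑ σ ∈ S, s π σ * (x σ + x π) = 0 := by
    have h2 : ∑ π ∈ S, ∑ σ ∈ S, s π σ * (x σ + x π) =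
        ∑ π ∈ S, ∑ σ ∈ S, s π σ * x σ + ∑ π ∈ S, ∑ σ ∈ S, s π σ * x π := by
      rw [← sum_add_distrib]
      refine sum_congr rfl fun π _ => ?_
      rw [← sum_add_distrib]
      exact sum_congr rfl fun σ _ => mul_add _ _ _
    have h3 : ∑ π ∈ S, ∑ σ ∈ S, s π σ * x π = ∑ π ∈ S, ∑ σ ∈ S, s π σ * x σ := by
      rw [sum_comm]
      exact sum_congr rfl fun σ hσ => sum_congr rfl fun π hπ => by rw [hs π hπ σ hσ]
    rw [h2, h3]
    exact z2_dbl _
  rw [← Finset.add_sum_erase S _ hρ] at h1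
  have h4 : ∑ π ∈ S.erase ρ, ∑ σ ∈ S, s π σ * (x σ + x π) = 0 :=
    sum_eq_zero fun π hπ => h π (mem_of_mem_erase hπ) (ne_of_mem_erase hπ)
  rwa [h4, add_zero] at h1

section one
variable {ι : Type} [Fintype ι] [LinearOrder ι] {S₁ T : Finset ZI} {p : ι → ZI} {i₀ : ι}

/-- the indices different from the root -/
noncomputable def J1 (i₀ : ι) : Finset ι := univ.erase i₀

theorem mem_J1 {i : ι} : i ∈ J1 i₀ ↔ i ≠ i₀ := by
  unfold J1
  rw [mem_erase]
  exact and_iff_left (mem_univ _)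

theorem mem_prs' (h0 : ∀ i : ι, i ≤ i₀) (e : ι × ι) :
    e ∈ Pool.Agent.Y703.CQ.prs (J1 i₀) ↔ e ∈ prs ι := by
  obtain ⟨i, l⟩ := e
  rw [mem_prs, Q155.NL.mem_prs, mem_J1, mem_J1]
  constructor
  · rintro ⟨h1, h2, h3⟩
    by_cases hl : l = i₀
    · rw [hl]
      exact lt_of_le_of_ne (h0 i) h1
    · exact h3 hl
  · intro h
    refine ⟨fun hi => ?_, h.ne', fun _ => h⟩
    have h' : i < l := h
    rw [show i = i₀ from hi] at h'
    exact absurd h' (not_lt.2 (h0 l))

/-- the indices of the tables -/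
noncomputable def eP (h0 : ∀ i : ι, i ≤ i₀) : ↥(Pool.Agent.Y703.CQ.prs (J1 i₀)) ≃ ↥(prs ι) :=
  Equiv.subtypeEquivRight (mem_prs' h0)

theorem card_tr (h0 : ∀ i : ι, i ≤ i₀) (Q' : (Pool.Agent.Y703.CQ.prs (J1 i₀) → ZMod 2) → Prop) :
    (univ.filter fun α : prs ι → ZMod 2 => Q' fun e => α (eP h0 e)).card = (univ.filter Q').card := by
  refine Finset.card_equiv (Equiv.arrowCongr (eP h0).symm (Equiv.refl _)) fun α => ?_
  rw [mem_filter, mem_filter]
  exact and_congr (iff_of_true (mem_univ _) (mem_univ _)) Iff.rfl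

theorem card_prs (h0 : ∀ i : ι, i ≤ i₀) : (Pool.Agent.Y703.CQ.prs (J1 i₀)).card = (prs ι).card := by
  congr 1
  ext e
  exact mem_prs' h0 e

theorem ext_sum (hS : SymP) (hp : ∀ i, PP (p i)) (k : ι) (hk : k ∈ J1 i₀) (y : ι → ZMod 2)
    (yk : ZMod 2) :
    ∑ l, Pool.Agent.Y703.CQ.ext (fun e : Pool.Agent.Y703.CQ.prs (J1 i₀) => s (p e.1.1) (p e.1.2)) k l *
      (y l + yk) = ∑ l, s (p k) (p l) * (y l + yk) := by
  refine Finset.sum_congr rfl fun l _ => ?_
  congr 1
  unfold Pool.Agent.Y703.CQ.ext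
  by_cases h : (k, l) ∈ Pool.Agent.Y703.CQ.prs (J1 i₀)
  · rw [dif_pos h]
  · rw [dif_neg h]
    by_cases hlk : l = k
    · subst hlk
      rw [dif_neg (fun h' => h h'.1), hS.self _ (hp _)]
    · have h1 : l ∈ J1 i₀ ∧ ¬ k < l := by
        by_contra hcon
        apply h
        refine Q155.NL.mem_prs.2 ⟨hk, hlk, fun hl => ?_⟩
        by_contra hkl
        exact hcon ⟨hl, hkl⟩
      have h2 : (l, k) ∈ Pool.Agent.Y703.CQ.prs (J1 i₀) :=
        Q155.NL.mem_prs.2 ⟨h1.1, fun h => hlk h.symm,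
          fun _ => lt_of_le_of_ne (not_lt.1 h1.2) hlk⟩
      rw [dif_pos ⟨h2, hk⟩]
      exact hS.symm _ _ (hp _) (hp _)

/-- the restriction -/
def rs (S₁ : Finset ZI) (p : ι → ZI) : (ZI → ZMod 2) →ₗ[ZMod 2] ((S₁ → ZMod 2) × (ι → ZMod 2)) where
  toFun x := (fun u => x u, fun i => x (p i))
  map_add' := by
    intro x y
    rfl
  map_smul' := by
    intro c x
    rfl

theorem sum_TU (hT : T ⊆ S₁) (hp : Function.Injective p) (hd : ∀ i, p i ∉ S₁) (h : ZI → ZMod 2) :
    ∑ x ∈ T ∪ univ.image p, h x = ∑ u ∈ pt S₁ T, h u + ∑ l, h (p l) := by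
  rw [Finset.sum_union, Finset.sum_image fun i _ j _ h => hp h, sum_pt hT]
  rw [Finset.disjoint_left]
  intro x hx hx'
  obtain ⟨i, -, rfl⟩ := Finset.mem_image.1 hx'
  exact hd i (hT hx)

/-- **The corank is the dimension of the kernel of the block system without the root.** -/
theorem rk_eq (hS : SymP) (hT : T ⊆ S₁) (h1 : ∀ u ∈ S₁, PP u) (hp : Function.Injective p)
    (hpr : ∀ i, PP (p i)) (hd : ∀ i, p i ∉ S₁) :
    bb (T ∪ univ.image p) = finrank (ZMod 2) (KM (pt S₁ T) univ (J1 i₀)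
      (fun u v : S₁ => s u v) (fun (u : S₁) l => s u (p l)) (fun k (u : S₁) => s (p k) u)
      (Pool.Agent.Y703.CQ.ext fun e : Pool.Agent.Y703.CQ.prs (J1 i₀) => s (p e.1.1) (p e.1.2))
      (fun _ => 0) (fun _ => 0)) := by
  set KK := KM (pt S₁ T) univ (J1 i₀)
      (fun u v : S₁ => s u v) (fun (u : S₁) l => s u (p l)) (fun k (u : S₁) => s (p k) u)
      (Pool.Agent.Y703.CQ.ext fun e : Pool.Agent.Y703.CQ.prs (J1 i₀) => s (p e.1.1) (p e.1.2))
      (fun _ => 0) (fun _ => 0) with hKK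
  have hroot : p i₀ ∈ T ∪ univ.image p :=
    Finset.mem_union_right _ (Finset.mem_image_of_mem _ (Finset.mem_univ _))
  have hPP : ∀ π ∈ T ∪ univ.image p, PP π := by
    intro π hπ
    rcases Finset.mem_union.1 hπ with h | h
    · exact h1 π (hT h)
    · obtain ⟨i, -, rfl⟩ := Finset.mem_image.1 h
      exact hpr i
  have h0 : ∀ x ∈ K0 (T ∪ univ.image p) (p i₀), rs S₁ p x ∈ KK := by
    intro x hx
    rw [mem_K0, mem_Kl] at hx
    obtain ⟨⟨hx1, hx2⟩, hx3⟩ := hx
    rw [hKK, mem_KM]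
    refine ⟨⟨fun u hu => absurd (Finset.mem_univ u) hu, fun u hu => ?_, fun k hk => ?_⟩,
      fun u _ hm => ?_, fun k hk => ?_⟩
    · refine hx1 u fun h => ?_
      rcases Finset.mem_union.1 h with h1 | h1
      · exact hu ((mem_pt u).2 h1)
      · obtain ⟨i, -, hi⟩ := Finset.mem_image.1 h1
        exact hd i (hi ▸ u.2)
    · have hk' : k = i₀ := by
        by_contra h
        exact hk (mem_J1.2 h)
      rw [hk']
      exact hx3
    · have h1 := hx2 u (Finset.mem_union_left _ ((mem_pt u).1 hm))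
      rw [sum_TU hT hp hd] at h1
      rw [zero_mul, add_zero]
      exact h1
    · have h1 := hx2 (p k) (Finset.mem_union_right _
        (Finset.mem_image_of_mem _ (Finset.mem_univ _)))
      rw [sum_TU hT hp hd] at h1
      rw [ext_sum hS hpr k hk (rs S₁ p x).2, zero_mul, add_zero]
      exact h1
  rw [← finrank_K0 hroot]
  refine LinearEquiv.finrank_eq (LinearEquiv.ofBijective ((rs S₁ p).restrict h0) ⟨?_, ?_⟩)
  · intro x y hxy
    have h1 : rs S₁ p x = rs S₁ p y := congrArg Subtype.val hxy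
    refine Subtype.ext (funext fun n => ?_)
    by_cases hn : n ∈ T ∪ univ.image p
    · rcases Finset.mem_union.1 hn with h2 | h2
      · exact congrFun (congrArg Prod.fst h1) (⟨n, hT h2⟩ : S₁)
      · obtain ⟨i, -, rfl⟩ := Finset.mem_image.1 h2
        exact congrFun (congrArg Prod.snd h1) i
    · rw [(mem_Kl.1 (mem_K0.1 x.2).1).1 n hn, (mem_Kl.1 (mem_K0.1 y.2).1).1 n hn]
  · rintro ⟨w, hw⟩
    rw [hKK, mem_KM] at hw
    obtain ⟨⟨hw1, hw2, hw3⟩, hw4, hw5⟩ := hw
    set c' : ZI → ZMod 2 := fun n => if h : n ∈ S₁ then w.1 ⟨n, h⟩ else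
      if h : ∃ l, p l = n then w.2 h.choose else 0 with hc'
    have e1 : ∀ u : S₁, c' u = w.1 u := by
      intro u
      simp only [hc']
      rw [dif_pos u.2]
    have e2 : ∀ l, c' (p l) = w.2 l := by
      intro l
      have hex : ∃ l', p l' = p l := ⟨l, rfl⟩
      simp only [hc']
      rw [dif_neg (hd l), dif_pos hex]
      exact congrArg w.2 (hp hex.choose_spec)
    have hr : rs S₁ p c' = w := Prod.ext (funext e1) (funext e2)
    refine ⟨⟨c', ?_⟩, Subtype.ext hr⟩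
    have heq : ∀ n ∈ T ∪ univ.image p, n ≠ p i₀ →
        ∑ σ ∈ T ∪ univ.image p, s n σ * (c' σ + c' n) = 0 := by
      intro n hn hni
      rw [sum_TU hT hp hd]
      rcases Finset.mem_union.1 hn with h1 | h1
      · have h2 := hw4 ⟨n, hT h1⟩ (Finset.mem_univ _) ((mem_pt _).2 h1)
        have h3 : c' n = w.1 ⟨n, hT h1⟩ := e1 ⟨n, hT h1⟩
        rw [zero_mul, add_zero] at h2
        simp only [e1, e2, h3]
        exact h2
      · obtain ⟨k, -, rfl⟩ := Finset.mem_image.1 h1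
        have hk : k ∈ J1 i₀ := mem_J1.2 fun h => hni (by rw [h])
        have h2 := hw5 k hk
        rw [ext_sum hS hpr k hk w.2, zero_mul, add_zero] at h2
        simp only [e1, e2]
        exact h2
    rw [mem_K0, mem_Kl]
    refine ⟨⟨fun n hn => ?_, fun n hn => ?_⟩, ?_⟩
    · by_cases h1 : n ∈ S₁
      · have h2 := e1 ⟨n, h1⟩
        change c' n = _ at h2
        rw [h2]
        exact hw2 _ fun h4 => hn (Finset.mem_union_left _ ((mem_pt _).1 h4))
      · by_cases h2 : ∃ l, p l = n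
        · obtain ⟨l, rfl⟩ := h2
          exact absurd (Finset.mem_union_right _
            (Finset.mem_image_of_mem _ (Finset.mem_univ _))) hn
        · simp only [hc']
          rw [dif_neg h1, dif_neg h2]
    · by_cases hni : n = p i₀
      · rw [hni]
        exact root_eq hroot (fun π hπ σ hσ => hS.symm _ _ (hPP π hπ) (hPP σ hσ)) c' heq
      · exact heq n hn hni
    · rw [e2]
      exact hw3 i₀ fun h => mem_J1.1 h rfl

end one

theorem cR_al {M : ℕ} (r : Fin M → ℕ) : cR r = ∏ k, al (r k) := by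
  unfold cR
  refine Finset.prod_congr rfl fun k _ => ?_
  rw [← Q155.NL.al_cf]
  rfl

/-- **the joint law for most tables of symbols** -/
theorem lj : S_LJ := by
  intro hS κ V W M U r hinj hUW hW ε hε
  obtain ⟨R₀, hLA⟩ := t_LA M r ε hε
  refine ⟨2, R₀ + 2, ?_⟩
  intro ι _ _ S₀ q h0 ht hN
  obtain ⟨hRN, hodd⟩ := hN.2
  have hcι : 2 * (S₀ ∪ W).card + (R₀ + 2) ≤ Fintype.card ι :=
    hodd.trans ((Finset.card_filter_le _ _).trans (Finset.card_image_le.trans
      (le_of_eq Finset.card_univ)))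
  have hne : Nonempty ι := by
    rw [← Fintype.card_pos_iff]
    omega
  obtain ⟨i₀, -, hi₀⟩ := Finset.exists_max_image (univ : Finset ι) id Finset.univ_nonempty
  have hi : ∀ i : ι, i ≤ i₀ := fun i => hi₀ i (Finset.mem_univ i)
  have hPP : ∀ u ∈ S₀ ∪ W, PP u := fun u hu => by
    rcases Finset.mem_union.1 hu with h | h
    · exact h0 u h
    · exact hW u h
  have hcard : (univ : Finset ↥(S₀ ∪ W)).card = (S₀ ∪ W).card := by
    rw [Finset.card_univ, Fintype.card_coe]
  have key := hLA ↥(S₀ ∪ W) ι univ (J1 i₀) ⟨i₀, fun h => mem_J1.1 h rfl⟩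
    (fun i => pt (S₀ ∪ W) (symmDiff S₀ (U i)))
    (fun u v => s u v) (fun u l => s u (q l)) (fun k u => s (q k) u) (fun _ _ => 0) (fun _ _ => 0)
    (fun u _ v _ => hS.symm _ _ (hPP u u.2) (hPP v v.2))
    (fun u _ k _ => hS.symm _ _ (hPP u u.2) (ht.2 k).1)
    (by
      intro w _ hw
      obtain ⟨u, hu⟩ := hw
      have h3 := LQ.reg_L hRN (Finset.Subset.refl _) w (Function.ne_iff.2 ⟨u, hu⟩)
      obtain ⟨k, hk, hk0⟩ := Finset.exists_mem_ne (lt_of_lt_of_le (by omega) h3) i₀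
      refine ⟨k, mem_J1.2 hk0, ?_⟩
      have h4 := (Finset.mem_filter.1 hk).2
      intro h5
      apply h4
      rw [← h5]
      exact Finset.sum_congr rfl fun v _ => by rw [hS.symm _ _ (hPP v v.2) (ht.2 k).1])
    (by
      have h3 : (J1 i₀).card = Fintype.card ι - 1 := by
        unfold J1
        rw [Finset.card_erase_of_mem (Finset.mem_univ _), Finset.card_univ]
      rw [hcard, h3]
      omega)
    (by
      intro i j hij
      have hne' : (symmDiff (U i) (U j)).Nonempty := by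
        rw [Finset.nonempty_iff_ne_empty]
        intro h
        exact hij (hinj (symmDiff_eq_bot.1 h))
      have hsub : symmDiff (U i) (U j) ⊆ S₀ ∪ W := by
        intro x hx
        rw [Finset.mem_symmDiff] at hx
        rw [Finset.mem_union]
        rcases hx with hx | hx
        · exact Or.inr (hUW i hx.1)
        · exact Or.inr (hUW j hx.1)
      have h3 := hRN (symmDiff (U i) (U j)) hsub hne'
      have h4 : ((univ.image q).filter fun π => ∑ u ∈ symmDiff (U i) (U j), s u π ≠ 0) ⊆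
          insert (q i₀) (((J1 i₀).filter fun k =>
            ∑ u ∈ pt (S₀ ∪ W) (symmDiff S₀ (U i)), s (q k) u +
              ∑ u ∈ pt (S₀ ∪ W) (symmDiff S₀ (U j)), s (q k) u + 0 + 0 ≠ 0).image q) := by
        intro π hπ
        obtain ⟨h5, h6⟩ := Finset.mem_filter.1 hπ
        obtain ⟨k, -, rfl⟩ := Finset.mem_image.1 h5
        by_cases hk : k = i₀
        · rw [hk]
          exact Finset.mem_insert_self _ _
        · refine Finset.mem_insert_of_mem (Finset.mem_image_of_mem _ (Finset.mem_filter.2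
            ⟨mem_J1.2 hk, ?_⟩))
          rw [add_pt (fun u : ↥(S₀ ∪ W) => s (q k) u), sd_sd, add_zero, add_zero,
            ← sum_pt hsub (fun x => s (q k) x)]
          intro h7
          apply h6
          rw [← h7]
          exact Finset.sum_congr rfl fun v hv => by rw [hS.symm _ _ (hPP v (hsub hv)) (ht.2 k).1]
      have h5 := (Finset.card_le_card h4).trans (Finset.card_insert_le _ _)
      have h6 := h3.trans (h5.trans (Nat.succ_le_succ Finset.card_image_le))
      rw [hcard]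
      omega)
  rw [cR_al] at key
  have hpow : (0 : ℝ) < 2 ^ (prs ι).card := by positivity
  obtain ⟨Q', hQ'⟩ : ∃ Q' : (Pool.Agent.Y703.CQ.prs (J1 i₀) → ZMod 2) → Prop, ∀ β, Q' β ↔
      ∀ i, finrank (ZMod 2) (KM (pt (S₀ ∪ W) (symmDiff S₀ (U i))) univ (J1 i₀)
      (fun u v : ↥(S₀ ∪ W) => s u v) (fun (u : ↥(S₀ ∪ W)) l => s u (q l))
      (fun k (u : ↥(S₀ ∪ W)) => s (q k) u) (Pool.Agent.Y703.CQ.ext β) (fun _ => 0) (fun _ => 0)) = r i :=
    ⟨_, fun _ => Iff.rfl⟩
  have key2 : |((univ.filter Q').card : ℝ) / 2 ^ (Pool.Agent.Y703.CQ.prs (J1 i₀)).card -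
      ∏ k, al (r k)| ≤ ε := by
    refine le_trans (le_of_eq ?_) key
    congr 4
    congr 1
    ext Y
    simp only [Finset.mem_filter, hQ']
  rw [card_prs hi, ← card_tr hi Q', abs_le] at key2
  obtain ⟨k1, k2⟩ := key2
  refine ⟨fun α => Q' fun e => α (eP hi e), fun α => Q' fun e => α (eP hi e), ?_, ?_, fun p htp hl => ?_⟩
  · rw [← le_div_iff₀ hpow]
    linarith
  · rw [← div_le_iff₀ hpow]
    linarith
  · have hiff : (∀ k, bb (symmDiff (S₀ ∪ univ.image p) (U k)) = r k) ↔ Q' fun e => tb p (eP hi e) := by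
      rw [hQ']
      refine forall_congr' fun k => ?_
      have hP : ∀ x ∈ univ.image p, x ∉ S₀ ∪ W := by
        intro x hx
        obtain ⟨i, -, rfl⟩ := Finset.mem_image.1 hx
        exact (htp.2 i).2
      have hlab : ∀ i, ∀ u ∈ S₀ ∪ W, s u (p i) = s u (q i) := fun i u hu =>
        congrFun (congrArg (fun z => z.1) (hl i)) (⟨u, hu⟩ : ↥(S₀ ∪ W))
      have e1 : (fun (u : ↥(S₀ ∪ W)) l => s u (q l)) = fun (u : ↥(S₀ ∪ W)) l => s u (p l) := by
        funext u l
        exact (hlab l u u.2).symm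
      have e2 : (fun k (u : ↥(S₀ ∪ W)) => s (q k) u) = fun k (u : ↥(S₀ ∪ W)) => s (p k) u := by
        funext k u
        rw [hS.symm _ _ (ht.2 k).1 (hPP u u.2), hS.symm _ _ (htp.2 k).1 (hPP u u.2)]
        exact (hlab k u u.2).symm
      rw [sd_union (hUW k) hP, rk_eq (i₀ := i₀) hS (sd_sub (hUW k)) hPP htp.1 (fun i => (htp.2 i).1)
        (fun i => (htp.2 i).2), e1, e2]
      exact Iff.rfl
    exact ⟨fun h => hiff.2 h, fun h => hiff.1 h⟩

end Q155.GN.LJ
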