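import Pool.Agent.Q155.GN.LqA

/-!
# Project GN: the law over the divisors holds for most tables of symbols
-/

set_option autoImplicit false
set_option linter.unusedVariables false
set_option linter.unusedSectionVars false

open scoped Classical

namespace Q155.GN.LQ

open Finset Filter Matrix
open H385 (ZI nrm)
open Pool.Agent.Y699 (PP)
open Q155.KT (kz z2_all z2_dbl)
open Q155.KG (Lm FI al lm_FI lm_id al_nonneg al_le avg_sq_le)
open Pool.Agent.Q1.PT (avg avg_equiv avg_prod avg_mono avg_const avg_add avg_sub abs_avg avg_hom)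
open Q155.NL (NU NU_11 NU_12 NU_21 NU_22 aX avg_inst avg_swap FI_al)

theorem bd2 {t s R L c : ℕ} (ht : t ≤ s) (hL : 12 * s + R ≤ L) (hc : 12 * s + R ≤ c) :
    (2 : ℝ) ^ (t + 3) * ((3 / 4) ^ L + (7 / 8) ^ c) ≤ 64 * (7 / 8) ^ R ∧
    (2 : ℝ) ^ (2 * t + 5) * ((3 / 4) ^ L + (7 / 8) ^ c) ≤ 64 * (7 / 8) ^ R := by
  have h34 : ∀ n : ℕ, (3 / 4 : ℝ) ^ n ≤ (7 / 8) ^ n := fun n =>
    pow_le_pow_left₀ (by norm_num) (by norm_num) n
  have kL := Q155.NL.pow_bd hL
  have kc := Q155.NL.pow_bd hc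
  have aL : (3 / 4 : ℝ) ^ L * 4 ^ s ≤ (7 / 8) ^ R :=
    (mul_le_mul_of_nonneg_right (h34 L) (by positivity)).trans kL
  have h4t : (4 : ℝ) ^ t ≤ 4 ^ s := pow_le_pow_right₀ (by norm_num) ht
  have h24 : (2 : ℝ) ^ t ≤ 4 ^ t := pow_le_pow_left₀ (by norm_num) (by norm_num) t
  have e : (0 : ℝ) ≤ (3 / 4) ^ L + (7 / 8) ^ c := by positivity
  have k : ((3 / 4 : ℝ) ^ L + (7 / 8) ^ c) * 4 ^ s ≤ 2 * (7 / 8) ^ R := by
    rw [add_mul]
    linarith
  have k2 : (4 : ℝ) ^ t * ((3 / 4 : ℝ) ^ L + (7 / 8) ^ c) ≤ 2 * (7 / 8) ^ R := by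
    refine le_trans ?_ k
    rw [mul_comm]
    exact mul_le_mul_of_nonneg_left h4t e
  have k1 : (2 : ℝ) ^ t * ((3 / 4 : ℝ) ^ L + (7 / 8) ^ c) ≤ 2 * (7 / 8) ^ R :=
    (mul_le_mul_of_nonneg_right h24 e).trans k2
  have pR : (0 : ℝ) ≤ (7 / 8) ^ R := by positivity
  constructor
  · have e1 : (2 : ℝ) ^ (t + 3) = 8 * 2 ^ t := by ring
    rw [e1]
    linarith
  · have e2 : (2 : ℝ) ^ (2 * t + 5) = 32 * 4 ^ t := by
      rw [pow_add, pow_mul]
      norm_num
      ring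
    rw [e2]
    linarith

section
variable {ι : Type} [Fintype ι] {U₀ W S₀ : Finset ZI} {q : ι → ZI}

theorem avg_abs_le {α : Type} [Fintype α] [Nonempty α] {f : α → ℝ} {c : ℝ} (h : ∀ a, |f a| ≤ c) :
    |avg f| ≤ c :=
  (abs_avg f).trans ((avg_mono h).trans (le_of_eq (avg_const c)))

/-- the classes -/
theorem cls_x (hC : S_CLS) {R : ℕ}
    (hR : R ≤ (univ.filter fun i => fc (q i) = 1 ∨ fc (q i) = 3).card) (c : ZMod 4) :
    |avg (fun w : ↥S₀.powerset × Finset ι => if cL U₀ S₀ q w = c then (1 : ℝ) else 0) - 1 / 4| ≤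
      (3 / 4) ^ R := by
  have hne : Nonempty ↥S₀.powerset := ⟨⟨∅, Finset.empty_mem_powerset S₀⟩⟩
  have h2 : avg (fun w : ↥S₀.powerset × Finset ι => if cL U₀ S₀ q w = c then (1 : ℝ) else 0) - 1 / 4 =
      avg fun d : ↥S₀.powerset => avg (fun U : Finset ι =>
        if cL U₀ S₀ q (d, U) = c then (1 : ℝ) else 0) - 1 / 4 := by
    rw [avg_prod, avg_sub, avg_const]
  rw [h2]
  refine avg_abs_le fun d => ?_
  refine (hC ι (fun i => fc (q i)) (∑ π ∈ symmDiff (d : Finset ZI) U₀, fc π) c).trans ?_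
  exact pow_le_pow_of_le_one (by norm_num) (by norm_num) hR

/-- the second moment of the shares over the matrices -/
theorem sec_x (hS : SymP) (hr : S_ROOT) (hsec : S_SEC) (hU : U₀ ⊆ W) (hP : ∀ u ∈ S₀ ∪ W, PP u) {R : ℕ}
    (hR : Rg 12 R W S₀ (univ.image q)) (b : ℕ) (c : ZMod 4) :
    aX (fun x : ι → ι → ZMod 2 => (avg (fun w : ↥S₀.powerset × Finset ι =>
      (if cL U₀ S₀ q w = c then (1 : ℝ) else 0) * (FI b (Kt U₀ S₀ q x w) - al b))) ^ 2) ≤
      64 * (7 / 8) ^ R := by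
  have hne : Nonempty ↥S₀.powerset := ⟨⟨∅, Finset.empty_mem_powerset S₀⟩⟩
  have h1 : ∀ x : ι → ι → ZMod 2,
      (avg (fun w : ↥S₀.powerset × Finset ι =>
        (if cL U₀ S₀ q w = c then (1 : ℝ) else 0) * (FI b (Kt U₀ S₀ q x w) - al b))) ^ 2 ≤
      avg fun d : ↥S₀.powerset => (avg (fun U : Finset ι =>
        (if cL U₀ S₀ q (d, U) = c then (1 : ℝ) else 0) * (FI b (Kt U₀ S₀ q x (d, U)) - al b))) ^ 2 := by
    intro x
    rw [avg_prod]
    exact avg_sq_le _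
  unfold aX
  refine (avg_mono h1).trans ?_
  rw [avg_swap]
  obtain ⟨r1, r2⟩ := hR
  have hι : 12 * (S₀ ∪ W).card + R ≤ Fintype.card ι :=
    (reg_O r2).trans ((Finset.card_filter_le _ _).trans (le_of_eq Finset.card_univ))
  have h3 : ∀ d : ↥S₀.powerset, avg (fun x : ι → ι → ZMod 2 => (avg (fun U : Finset ι =>
      (if cL U₀ S₀ q (d, U) = c then (1 : ℝ) else 0) * (FI b (Kt U₀ S₀ q x (d, U)) - al b))) ^ 2) ≤
      64 * (7 / 8) ^ R := by
    intro d
    have hT : symmDiff (d : Finset ZI) U₀ ⊆ S₀ ∪ W :=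
      (sd_sub hU).trans (Finset.union_subset_union_left (Finset.mem_powerset.1 d.2))
    have k1 := hsec hr ↥(symmDiff (d : Finset ZI) U₀) ι
      (Matrix.of fun u u' : ↥(symmDiff (d : Finset ZI) U₀) => s u u')
      (fun i (u : ↥(symmDiff (d : Finset ZI) U₀)) => s u (q i))
      (Matrix.IsSymm.ext fun i j => hS.symm _ _ (hP _ (hT j.2)) (hP _ (hT i.2)))
      _ (fun w hw => reg_L r1 hT w hw) (FI b) (al b) (lm_FI b) (FI_al b)
      (fun U => if cL U₀ S₀ q (d, U) = c then (1 : ℝ) else 0)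
      (fun U => by
        show |(if cL U₀ S₀ q (d, U) = c then (1 : ℝ) else 0)| ≤ 1
        split_ifs <;> norm_num)
    refine k1.trans ?_
    have hcard : Fintype.card ↥(symmDiff (d : Finset ZI) U₀) ≤ (S₀ ∪ W).card := by
      rw [Fintype.card_coe]
      exact Finset.card_le_card hT
    exact (bd2 hcard le_rfl hι).1
  refine (avg_mono h3).trans (le_of_eq ?_)
  rw [avg_const]

/-- the mean over the matrices -/
theorem fst_x (hS : SymP) (hr : S_ROOT) (hfst : S_FST) (hU : U₀ ⊆ W) (hP : ∀ u ∈ S₀ ∪ W, PP u) {R : ℕ}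
    (hR : Rg 12 R W S₀ (univ.image q)) :
    aX (fun x : ι → ι → ZMod 2 =>
      avg (fun w : ↥S₀.powerset × Finset ι => (Kt U₀ S₀ q x w : ℝ))) ≤
      2 + 64 * (7 / 8) ^ R := by
  have hne : Nonempty ↥S₀.powerset := ⟨⟨∅, Finset.empty_mem_powerset S₀⟩⟩
  have h0 : ∀ x : ι → ι → ZMod 2,
      avg (fun w : ↥S₀.powerset × Finset ι => (Kt U₀ S₀ q x w : ℝ)) =
      avg fun d : ↥S₀.powerset => avg (fun U : Finset ι => (Kt U₀ S₀ q x (d, U) : ℝ)) :=
    fun x => avg_prod _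
  simp_rw [h0]
  unfold aX
  rw [avg_swap]
  obtain ⟨r1, r2⟩ := hR
  have hι : 12 * (S₀ ∪ W).card + R ≤ Fintype.card ι :=
    (reg_O r2).trans ((Finset.card_filter_le _ _).trans (le_of_eq Finset.card_univ))
  have h3 : ∀ d : ↥S₀.powerset, avg (fun x : ι → ι → ZMod 2 => avg (fun U : Finset ι =>
      (Kt U₀ S₀ q x (d, U) : ℝ))) ≤ 2 + 64 * (7 / 8) ^ R := by
    intro d
    have hT : symmDiff (d : Finset ZI) U₀ ⊆ S₀ ∪ W :=
      (sd_sub hU).trans (Finset.union_subset_union_left (Finset.mem_powerset.1 d.2))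
    have k1 := hfst hr ↥(symmDiff (d : Finset ZI) U₀) ι
      (Matrix.of fun u u' : ↥(symmDiff (d : Finset ZI) U₀) => s u u')
      (fun i (u : ↥(symmDiff (d : Finset ZI) U₀)) => s u (q i))
      (Matrix.IsSymm.ext fun i j => hS.symm _ _ (hP _ (hT j.2)) (hP _ (hT i.2)))
      _ (fun w hw => reg_L r1 hT w hw)
    have hcard : Fintype.card ↥(symmDiff (d : Finset ZI) U₀) ≤ (S₀ ∪ W).card := by
      rw [Fintype.card_coe]
      exact Finset.card_le_card hT
    have k2 := (bd2 hcard le_rfl hι).2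
    exact k1.trans (by linarith)
  refine (avg_mono h3).trans (le_of_eq ?_)
  rw [avg_const]

end

/-- **the law over the divisors holds for most tables of symbols** -/
theorem lq : S_LQ := by
  intro hS hr hsec hfst habs hcls htab κ V U₀ W hU hW ε hε
  obtain ⟨η, hη, h⟩ := habs ε ε hε hε
  have h1 : Tendsto (fun R : ℕ => (64 : ℝ) * (7 / 8) ^ R) atTop (nhds 0) := by
    have := (tendsto_pow_atTop_nhds_zero_of_lt_one (by norm_num : (0 : ℝ) ≤ 7 / 8)
      (by norm_num : (7 / 8 : ℝ) < 1)).const_mul (64 : ℝ)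
    rwa [mul_zero] at this
  obtain ⟨R, hR⟩ := (h1.eventually (gt_mem_nhds hη)).exists
  refine ⟨12, R, ?_⟩
  intro ι _ _ S₀ q h0 ht hN
  have hRg := hN.2
  have hP : ∀ u ∈ S₀ ∪ W, PP u := fun u hu => by
    rcases Finset.mem_union.1 hu with h | h
    · exact h0 u h
    · exact hW u h
  have hodd : R ≤ (univ.filter fun i => fc (q i) = 1 ∨ fc (q i) = 3).card :=
    (Nat.le_add_left R (12 * (S₀ ∪ W).card)).trans (reg_O hRg.2)
  have hη2 : (3 / 4 : ℝ) ^ R ≤ η := by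
    refine le_trans ?_ hR.le
    have h3 : (3 / 4 : ℝ) ^ R ≤ (7 / 8) ^ R := pow_le_pow_left₀ (by norm_num) (by norm_num) R
    have h4 : (0 : ℝ) ≤ (7 / 8) ^ R := by positivity
    linarith
  refine ⟨fun α => LawC (cL U₀ S₀ q) (Kt U₀ S₀ q (xt α)) ε, fun _ => True, ?_, ?_, ?_⟩
  · have hne : Nonempty (↥S₀.powerset × Finset ι) := ⟨(⟨∅, Finset.empty_mem_powerset S₀⟩, ∅)⟩
    have k1 : ∀ c, |avg (fun w : ↥S₀.powerset × Finset ι =>
        if cL U₀ S₀ q w = c then (1 : ℝ) else 0) - 1 / 4| ≤ η := fun c =>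
      (cls_x hcls hodd c).trans hη2
    have k2 : ∀ (b : ℕ) (c : ZMod 4), avg (fun α : prs ι → ZMod 2 =>
        (avg fun w : ↥S₀.powerset × Finset ι => (if cL U₀ S₀ q w = c then (1 : ℝ) else 0) *
          (FI b (Kt U₀ S₀ q (xt α) w) - al b)) ^ 2) ≤ η := by
      intro b c
      refine le_trans (le_of_eq ?_) ((sec_x hS hr hsec hU hP hRg b c).trans hR.le)
      exact avg_tab (fun K : ↥S₀.powerset × Finset ι → ℕ =>
        (avg fun w => (if cL U₀ S₀ q w = c then (1 : ℝ) else 0) * (FI b (K w) - al b)) ^ 2)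
    have k3 : avg (fun α : prs ι → ZMod 2 => avg fun w : ↥S₀.powerset × Finset ι =>
        (Kt U₀ S₀ q (xt α) w : ℝ)) ≤ 2 + η := by
      refine le_trans (le_of_eq ?_) ((fst_x hS hr hfst hU hP hRg).trans (by linarith))
      exact avg_tab (fun K : ↥S₀.powerset × Finset ι → ℕ => avg (fun w => (K w : ℝ)))
    have h2 := h (prs ι → ZMod 2) (↥S₀.powerset × Finset ι) (cL U₀ S₀ q)
      (fun α => Kt U₀ S₀ q (xt α)) k1 k2 k3
    have h3 : Fintype.card (prs ι → ZMod 2) = 2 ^ (prs ι).card := by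
      rw [Fintype.card_fun, ZMod.card, Fintype.card_coe]
    have h5 : ((univ.filter fun α : prs ι → ZMod 2 => LawC (cL U₀ S₀ q) (Kt U₀ S₀ q (xt α)) ε).card : ℝ) +
        ((univ.filter fun α : prs ι → ZMod 2 => ¬ LawC (cL U₀ S₀ q) (Kt U₀ S₀ q (xt α)) ε).card : ℝ) =
        2 ^ (prs ι).card := by
      rw [← Nat.cast_add, Finset.card_filter_add_card_filter_not, Finset.card_univ, h3]
      push_cast
      rfl
    rw [h3] at h2
    push_cast at h2
    have h6 : (1 - ε) * (2 : ℝ) ^ (prs ι).card = 2 ^ (prs ι).card - ε * 2 ^ (prs ι).card := by ring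
    rw [h6]
    linarith
  · refine le_trans (Nat.cast_le.2 (Finset.card_le_univ _)) ?_
    rw [Fintype.card_fun, ZMod.card, Fintype.card_coe]
    push_cast
    have h4 : (1 + ε) * (2 : ℝ) ^ (prs ι).card = 2 ^ (prs ι).card + ε * 2 ^ (prs ι).card := by ring
    rw [h4]
    exact le_add_of_nonneg_right (by positivity)
  · intro p htp hl
    refine ⟨fun hQ => ?_, fun _ => trivial⟩
    simp only at hQ
    rw [← Kt_lab hU hl, ← cL_lab hl] at hQ
    refine (KS_eq hS htab hU hW h0 htp (fun i l _ => ?_) ε).1 hQ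
    refine xt_add (fun i l => s (p i) (p l)) (fun i l => ?_) (fun i => ?_) i l
    · exact hS.symm _ _ (htp.2 i).1 (htp.2 l).1
    · exact hS.self _ (htp.2 i).1

end Q155.GN.LQ
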