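import Pool.Agent.Q155.GN.Fin2
import Pool.Agent.Q155.GN.LqB
import Pool.Agent.Q155.GN.LjL
import Pool.Agent.Q261.GN.Root
import Pool.Agent.Q261.GN.Abs
import Pool.Agent.Q261.GN.Tab
import Pool.Agent.Q261.GN.Lgd
import Pool.Agent.Q261.GN.Ltw
import Pool.Agent.Q263.GN.Sec
import Pool.Agent.Q263.GN.Fst
import Pool.Agent.Q14.GN.CLS
import Pool.Agent.Q144.GN.Cv
import Pool.Agent.Q144.GN.Tor
import Pool.Agent.Q52.GN.Lbd
import Pool.Agent.Q95.GN.Sel
import Pool.Agent.Q177.GN.Cnv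

/-!
# Project GN: the parts
-/

set_option autoImplicit false

namespace Q155.GN

theorem lj : S_LJ := Q155.GN.LJ.lj

theorem ing2 : Ing2 where
  root := Pool.Agent.Q261.GN.root
  sec := Q263.GN.sec
  fst := Q263.GN.fst
  abs := Pool.Agent.Q261.GN.abs'
  cls := Pool.Agent.Q14.GN.Cls.cls
  tab := Pool.Agent.Q261.GN.tab
  lq := Q155.GN.LQ.lq

theorem ing3 : Ing3 where
  sel := Pool.Agent.Q95.GN.sel
  cv := Pool.Agent.Q144.GN.cv
  tor := Pool.Agent.Q144.GN.tor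
  lgd := Pool.Agent.Q261.GN.lgd
  ltw := Pool.Agent.Q261.GN.ltw
  lbd := Q52.GN.lbd
  cnv := Pool.Agent.Q177.GN.cnv

end Q155.GN
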