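import Pool.Agent.Q155.GN.Fin1

/-!
# Project GN: the exact law of the ranks zero
-/

set_option autoImplicit false
set_option linter.unusedVariables false

open scoped Classical

namespace Q155.GN

open Finset Filter NumberField
open H385 (ZI nrm)
open Pool.Agent.Y699 (PP PS qr QB SB PD PS_prod mem_PD mem_SB Good Good4)
open Pool.Agent.Y682 (IsT MP)
open Pool.Agent.Y715.Z (em0 em0_ne)
open Pool.Agent.TH841.NF.D (Sha)
open Pool.Agent.Results.MP_9ab903_nt.TwoPartQuarticProportion (curve curve_good TwoPart)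
open Pool.Agent.Results.MP_1a91b9_nt.PositiveProportionGaussianTwists (twist twist_good BSDRank)
open Q155.KG (al)

variable {K : Type} [Field K] [NumberField K]

theorem finite_of_rank {W : WeierstrassCurve K} (hf : Module.Finite ℤ (MP W))
    (h : Module.finrank ℤ (MP W) = 0) : Finite (MP W) :=
  Module.finite_of_fg_torsion _ (Module.finrank_eq_zero_iff_isTorsion.1 h)

theorem fg_of_cu {W : WeierstrassCurve K} {D : K} (h : Cu W D) : Module.Finite ℤ (MP W) := by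
  rcases h with h | h
  · exact Pool.Agent.Y682.fg_MP h
  · exact Pool.Agent.Y682.fg_MP h

theorem fin_of (g : Ing3) {D : ZI} (hD : PS D) (h : nrm D % 8 = 5) (e : ZI ≃+* 𝓞 K)
    {W : WeierstrassCurve K} (hW : Cu W (em0 e (∏ π ∈ PD D, π))) (hb : bb (PD D) = 0) :
    Finite W.toAffine.Point := by
  obtain ⟨h1, h2⟩ := sel_le g ing.sym (pp_PD hD) (od_of hD h) e hW
  rw [hb, pow_zero] at h2
  refine finite_of_rank (fg_of_cu hW) ?_
  by_contra h0
  have h3 : 1 < 2 ^ Module.finrank ℤ (MP W) := Nat.one_lt_two_pow h0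
  have h4 : 0 < Nat.card {x : Sha W // 2 • x = 0} := by
    have : Nonempty {x : Sha W // 2 • x = 0} := ⟨⟨0, smul_zero _⟩⟩
    exact Nat.card_pos
  nlinarith

theorem tr_iff (g : Ing3) {D : ZI} (hD : PS D) (h : nrm D % 8 = 5) (e : ZI ≃+* 𝓞 K)
    {W : WeierstrassCurve K} (hW : Cu W (em0 e (∏ π ∈ PD D, π))) : Tr W ↔ bb (PD D) = 0 := by
  constructor
  · intro h1
    by_contra hb
    exact not_tr_ot h1 (ot_of g hD h e hW hb)
  · exact fun hb => tr_of g hD h e hW (fin_of g hD h e hW hb) hb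

theorem ot_iff (g : Ing3) {D : ZI} (hD : PS D) (h : nrm D % 8 = 5) (e : ZI ≃+* 𝓞 K)
    {W : WeierstrassCurve K} (hW : Cu W (em0 e (∏ π ∈ PD D, π))) : Ot W ↔ bb (PD D) ≠ 0 := by
  constructor
  · intro h1 hb
    exact not_tr_ot ((tr_iff g hD h e hW).2 hb) h1
  · exact fun hb => ot_of g hD h e hW hb

/-- the classes of the norm -/
theorem exists_a {c : ℕ} (h1 : c < 16) (h2 : c % 4 = 1) : ∃ a : ZMod 4, 5 ^ a.val % 16 = c := by
  have : c = 1 ∨ c = 5 ∨ c = 9 ∨ c = 13 := by omega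
  rcases this with rfl | rfl | rfl | rfl
  · exact ⟨0, by decide⟩
  · exact ⟨1, by decide⟩
  · exact ⟨2, by decide⟩
  · exact ⟨3, by decide⟩

theorem nrm_mul' (a b : ZI) : nrm (a * b) = nrm a * nrm b := by
  show (a * b).norm.natAbs = a.norm.natAbs * b.norm.natAbs
  rw [Zsqrtd.norm_mul, Int.natAbs_mul]

/-- **the law of the events**; `P k D` and `Q k D` stand for the good and the bad case of the twist `D * m k` -/
theorem events (hj : S_LJ) {M : ℕ} {m : Fin M → ZI} (hm : Function.Injective m)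
    (hps : ∀ k, PS (m k)) {c : ℕ} (h1 : c < 16) (h2 : c % 4 = 1) (P Q : Fin M → ZI → Prop)
    (hP : ∀ k D, PS D → Fa m c D → (P k D ↔ bb (PD (D * m k)) = 0))
    (hQ : ∀ k D, PS D → Fa m c D → (Q k D ↔ bb (PD (D * m k)) ≠ 0)) (B : Finset (Fin M)) :
    Tendsto (fun X : ℕ => ((Fm (fun D => Fa m c D ∧ (∀ k ∈ B, P k D) ∧ ∀ k ∉ B, Q k D) X).card : ℝ) /
      ((Fm (Fa m c) X).card : ℝ)) atTop (nhds (al 0 ^ B.card * (1 - al 0) ^ (M - B.card))) := by
  obtain ⟨a, rfl⟩ := exists_a h1 h2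
  refine (ebD hj a M m hm hps B).congr fun X => ?_
  have h3 : Fm (fun D => Fa m (5 ^ a.val % 16) D ∧ Eb m B D) X =
      Fm (fun D => Fa m (5 ^ a.val % 16) D ∧ (∀ k ∈ B, P k D) ∧ ∀ k ∉ B, Q k D) X := by
    ext D
    rw [mem_Fm, mem_Fm]
    refine and_congr_right fun h4 => and_congr_right fun h5 => ?_
    unfold Eb
    refine and_congr (forall_congr' fun k => forall_congr' fun _ => (hP k D h4.2 h5).symm)
      (forall_congr' fun k => forall_congr' fun _ => (hQ k D h4.2 h5).symm)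
  rw [h3]

/-- the family has positive density -/
theorem fam_low {M : ℕ} {m : Fin M → ZI} (hps : ∀ k, PS (m k)) {c : ℕ} (h1 : c < 16)
    (h2 : c % 4 = 1) : ∃ δ : ℝ, 0 < δ ∧ ∀ᶠ X : ℕ in atTop, δ * X ≤ ((Fm (Fa m c) X).card : ℝ) := by
  obtain ⟨a, rfl⟩ := exists_a h1 h2
  obtain ⟨δ, X₀, hδ, h⟩ := ing.low (fun r => r = a) (Vm m) ⟨a, rfl⟩ (fun u hu => by
    obtain ⟨k, -, hk⟩ := mem_biUnion.1 hu
    exact ((mem_PD (hps k).ne).1 hk).1)
  refine ⟨δ, hδ, eventually_atTop.2 ⟨X₀, fun X hX => ?_⟩⟩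
  have h3 := h X hX
  rw [card_Fm X] at h3
  have h4 : Fm (fun D => Kc (fun r => r = a) (Vm m) (PD D)) X = Fm (Fa m (5 ^ a.val % 16)) X := by
    ext D
    rw [mem_Fm, mem_Fm]
    exact and_congr_right fun h2 => Kc_iff hps h2.2 a
  rwa [h4] at h3

end Q155.GN
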