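import Pool.Agent.Q155.GN.Fin2

/-!
# Project GN: the law over the divisors for the curves
-/

set_option autoImplicit false
set_option linter.unusedVariables false

open scoped Classical

namespace Q155.GN

open Finset Filter NumberField
open H385 (ZI nrm)
open Pool.Agent.Y699 (PP PS qr QB SB PD PS_prod mem_PD mem_SB Good Good4)
open Pool.Agent.Y682 (IsT MP)
open Pool.Agent.Y715.Z (em0 em0_ne)
open Pool.Agent.TH841.NF.D (Sha)
open Q155.KG (al al_zero)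

variable {K : Type} [Field K] [NumberField K]

/-- the order of the part of `Ш` killed by two -/
noncomputable def s2 (W : WeierstrassCurve K) : ℕ := Nat.card {x : Sha W // 2 • x = 0}

/-- the rank -/
noncomputable def rk (W : WeierstrassCurve K) : ℕ := Module.finrank ℤ (MP W)

/-- `√ (2 ^ rank #Ш[2])` -/
noncomputable def sz (W : WeierstrassCurve K) : ℝ := Real.sqrt (2 ^ rk W * s2 W)

/-- the bound for the size -/
def Bt (W : WeierstrassCurve K) (t : ℕ) : Prop := 2 ^ rk W * s2 W ≤ 4 ^ t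

section one

variable {D : ZI} {W : WeierstrassCurve K}

theorem s2_pos (g : Ing3) (hD : PS D) (h : nrm D % 8 = 5) (e : ZI ≃+* 𝓞 K)
    (hW : Cu W (em0 e (∏ π ∈ PD D, π))) : 0 < s2 W := by
  have h1 := (sel_le g ing.sym (pp_PD hD) (od_of hD h) e hW).1
  have : Nonempty {x : Sha W // 2 • x = 0} := ⟨⟨0, smul_zero _⟩⟩
  exact Nat.card_pos

theorem bd (g : Ing3) (hD : PS D) (h : nrm D % 8 = 5) (e : ZI ≃+* 𝓞 K)
    (hW : Cu W (em0 e (∏ π ∈ PD D, π))) : 2 ^ rk W * s2 W ≤ 4 ^ bb (PD D) :=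
  (sel_le g ing.sym (pp_PD hD) (od_of hD h) e hW).2

theorem rk_le (g : Ing3) (hD : PS D) (h : nrm D % 8 = 5) (e : ZI ≃+* 𝓞 K)
    (hW : Cu W (em0 e (∏ π ∈ PD D, π))) : rk W ≤ 2 * bb (PD D) := by
  have h1 := bd g hD h e hW
  have h2 := s2_pos g hD h e hW
  have h3 : 2 ^ rk W ≤ 2 ^ (2 * bb (PD D)) := by
    rw [pow_mul]
    calc 2 ^ rk W ≤ 2 ^ rk W * s2 W := Nat.le_mul_of_pos_right _ h2
      _ ≤ _ := h1
  exact (Nat.pow_le_pow_iff_right (by norm_num)).1 h3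

theorem sz_le (g : Ing3) (hD : PS D) (h : nrm D % 8 = 5) (e : ZI ≃+* 𝓞 K)
    (hW : Cu W (em0 e (∏ π ∈ PD D, π))) : sz W ≤ 2 ^ bb (PD D) := by
  have h1 := bd g hD h e hW
  have h2 : ((2 : ℝ) ^ rk W * s2 W) ≤ (2 ^ bb (PD D)) ^ 2 := by
    have h3 : ((2 : ℝ) ^ rk W * s2 W) ≤ 4 ^ bb (PD D) := by exact_mod_cast h1
    refine h3.trans (le_of_eq ?_)
    rw [← pow_mul, mul_comm (bb (PD D)) 2, pow_mul]
    norm_num
  unfold sz
  exact Real.sqrt_le_iff.2 ⟨by positivity, h2⟩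

end one

theorem mem_Cs {u D d : ZI} {c : ZMod 4} (hD : PS D) : d ∈ Cs u c D ↔
    (Pool.Agent.H304R2.EC.A1.prim d ∧ d ∣ D) ∧ nrm (d * u) % 16 = 5 ^ c.val % 16 := by
  unfold Cs
  rw [mem_filter, mem_Dv hD]

theorem Cs_ps {u D d : ZI} {c : ZMod 4} (hu : PS u) (hD : PS D) (h : IsCoprime D u)
    (hd : d ∈ Cs u c D) : PS (d * u) := by
  obtain ⟨⟨h1, h2⟩, _⟩ := (mem_Cs hD).1 hd
  exact PS_mul (hD.of_dvd h1 h2) hu (h.of_isCoprime_of_dvd_left h2)

/-- **the law over the divisors in a class for a family of curves** -/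
theorem divs (g : Ing3) {u D : ZI} (hu : PS u) (hD : PS D) (hc : IsCoprime D u) {ε : ℝ}
    {c : ZMod 4} (hcc : 5 ^ c.val % 16 % 8 = 5) (h : LawR u ε c D) (e : ZI ≃+* 𝓞 K)
    (W : ZI → WeierstrassCurve K) (hW : ∀ d, PS d → Cu (W d) (em0 e (∏ π ∈ PD d, π))) :
    |(((Cs u c D).filter fun d => Tr (W (d * u))).card : ℝ) - al 0 * ((Cs u c D).card : ℝ)| ≤
      ε * ((Cs u c D).card : ℝ) ∧
    (∀ d ∈ Cs u c D, Tr (W (d * u)) ∨ Ot (W (d * u))) ∧
    (∀ t : ℕ, (∑ b ∈ range (t + 1), al b - (t + 1) * ε) * ((Cs u c D).card : ℝ) ≤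
      (((Cs u c D).filter fun d => Bt (W (d * u)) t).card : ℝ)) ∧
    ∑ d ∈ Cs u c D, sz (W (d * u)) ≤ (2 + ε) * ((Cs u c D).card : ℝ) ∧
    ∑ d ∈ Cs u c D, (rk (W (d * u)) : ℝ) ≤ (1.5294 + 6 * ε) * ((Cs u c D).card : ℝ) := by
  have hp : ∀ d ∈ Cs u c D, PS (d * u) := fun d hd => Cs_ps hu hD hc hd
  have h8 : ∀ d ∈ Cs u c D, nrm (d * u) % 8 = 5 := by
    intro d hd
    have h1 := ((mem_Cs hD).1 hd).2
    omega
  have hWd : ∀ d ∈ Cs u c D, Cu (W (d * u)) (em0 e (∏ π ∈ PD (d * u), π)) := fun d hd =>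
    hW _ (hp d hd)
  refine ⟨?_, fun d hd => ?_, fun t => ?_, ?_, ?_⟩
  · have h1 : ((Cs u c D).filter fun d => Tr (W (d * u))) =
        (Cs u c D).filter fun d => bb (PD (d * u)) = 0 :=
      filter_congr fun d hd => tr_iff g (hp d hd) (h8 d hd) e (hWd d hd)
    rw [h1]
    exact h.law 0
  · rw [tr_iff g (hp d hd) (h8 d hd) e (hWd d hd), ot_iff g (hp d hd) (h8 d hd) e (hWd d hd)]
    exact Classical.em _
  · refine (h.le t).trans ?_
    refine Nat.cast_le.2 (card_le_card fun d hd => ?_)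
    rw [mem_filter] at hd ⊢
    exact ⟨hd.1, (bd g (hp d hd.1) (h8 d hd.1) e (hWd d hd.1)).trans
      (Nat.pow_le_pow_right (by norm_num) hd.2)⟩
  · have h1 : ∑ d ∈ Cs u c D, sz (W (d * u)) ≤ ∑ d ∈ Cs u c D, (2 : ℝ) ^ bb (PD (d * u)) :=
      sum_le_sum fun d hd => sz_le g (hp d hd) (h8 d hd) e (hWd d hd)
    have h2 := (abs_le.1 h.two).2
    linarith
  · have h1 : ∑ d ∈ Cs u c D, (rk (W (d * u)) : ℝ) ≤
        ∑ d ∈ Cs u c D, 2 * (bb (PD (d * u)) : ℝ) :=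
      sum_le_sum fun d hd => by
        have h2 := rk_le g (hp d hd) (h8 d hd) e (hWd d hd)
        exact_mod_cast h2
    rw [← mul_sum] at h1
    have h2 := h.mean
    linarith

end Q155.GN
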