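import Pool.Agent.Q155.GN.Stm2
import Pool.Agent.Q155.NL.LocM

/-!
# Project GN: the law over the divisors, for given labels of the large primes
-/

set_option autoImplicit false
set_option linter.unusedVariables false
set_option linter.unusedSectionVars false

open scoped Classical

namespace Q155.GN.LQ

open Finset Filter Matrix
open H385 (ZI nrm)
open Pool.Agent.Y699 (PP)
open Q155.KT (kz z2_all z2_dbl)
open Q155.KG (Lm FI al lm_FI al_nonneg al_le avg_sq_le)
open Pool.Agent.Q1.PT (avg avg_equiv avg_prod avg_mono avg_const avg_add avg_sub abs_avg avg_hom)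
open Q155.NL (NU NU_11 NU_12 NU_21 NU_22 aX avg_inst avg_swap FI_al)

theorem lawC_congr {I J : Type} [Fintype I] [Fintype J] (E : I ≃ J) {c : J → ZMod 4} {c' : I → ZMod 4}
    {K : J → ℕ} {K' : I → ℕ} (hc : ∀ i, c (E i) = c' i) (h : ∀ i, K (E i) = K' i) (ε : ℝ) :
    LawC c' K' ε ↔ LawC c K ε := by
  have h1 : ∀ g : ZMod 4 → ℕ → ℝ, avg (fun i => g (c' i) (K' i)) = avg (fun j => g (c j) (K j)) := by
    intro g
    rw [← avg_equiv E (fun j => g (c j) (K j))]
    simp_rw [hc, h]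
  unfold LawC
  refine forall_congr' fun a => ?_
  have e1 := h1 (fun a' _ => if a' = a then (1 : ℝ) else 0)
  have e2 := fun b => h1 (fun a' k => (if a' = a then (1 : ℝ) else 0) * FI b k)
  have e3 := h1 (fun a' k => (if a' = a then (1 : ℝ) else 0) * (k : ℝ))
  rw [e1, e3]
  simp_rw [e2]

theorem sd_union {S₀ W V P : Finset ZI} (hV : V ⊆ W) (hP : ∀ x ∈ P, x ∉ S₀ ∪ W) :
    symmDiff (S₀ ∪ P) V = symmDiff S₀ V ∪ P := by
  ext x
  have h1 : x ∈ V → x ∈ W := fun h => hV h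
  have h2 : x ∈ P → x ∉ W := fun h h' => hP x h (Finset.mem_union_right _ h')
  simp only [Finset.mem_symmDiff, Finset.mem_union]
  tauto

theorem sd_sub {S₀ W V : Finset ZI} (hV : V ⊆ W) : symmDiff S₀ V ⊆ S₀ ∪ W := by
  intro x hx
  rw [Finset.mem_symmDiff] at hx
  rw [Finset.mem_union]
  rcases hx with hx | hx
  · exact Or.inl hx.1
  · exact Or.inr (hV hx.1)

section
variable {ι : Type} [Fintype ι]

/-- the subsets of the union -/
noncomputable def eqP {S₀ : Finset ZI} {p : ι → ZI} (hp : Function.Injective p) (hd : ∀ i, p i ∉ S₀) :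
    ↥S₀.powerset × Finset ι ≃ ↥(S₀ ∪ univ.image p).powerset where
  toFun w := ⟨(w.1 : Finset ZI) ∪ w.2.image p, Finset.mem_powerset.2 (Finset.union_subset_union
    (Finset.mem_powerset.1 w.1.2) (Finset.image_subset_image (Finset.subset_univ _)))⟩
  invFun d := (⟨(d : Finset ZI) ∩ S₀, Finset.mem_powerset.2 Finset.inter_subset_right⟩,
    univ.filter fun i => p i ∈ (d : Finset ZI))
  left_inv := by
    rintro ⟨⟨d, hd'⟩, U⟩
    have hd1 : d ⊆ S₀ := Finset.mem_powerset.1 hd'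
    refine Prod.ext (Subtype.ext ?_) ?_
    · ext x
      simp only [Finset.mem_inter, Finset.mem_union, Finset.mem_image]
      constructor
      · rintro ⟨h | ⟨i, _, rfl⟩, h2⟩
        · exact h
        · exact absurd h2 (hd i)
      · exact fun h => ⟨Or.inl h, hd1 h⟩
    · ext i
      simp only [Finset.mem_filter, Finset.mem_univ, true_and, Finset.mem_union, Finset.mem_image]
      constructor
      · rintro (h | ⟨j, hj, hji⟩)
        · exact absurd (hd1 h) (hd i)
        · exact hp hji ▸ hj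
      · exact fun h => Or.inr ⟨i, h, rfl⟩
  right_inv := by
    rintro ⟨d, hd'⟩
    have hd1 : d ⊆ S₀ ∪ univ.image p := Finset.mem_powerset.1 hd'
    refine Subtype.ext ?_
    ext x
    simp only [Finset.mem_union, Finset.mem_inter, Finset.mem_image, Finset.mem_filter,
      Finset.mem_univ, true_and]
    constructor
    · rintro (h | ⟨i, hi, rfl⟩)
      · exact h.1
      · exact hi
    · intro h
      rcases Finset.mem_union.1 (hd1 h) with h1 | h1
      · exact Or.inl ⟨h, h1⟩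
      · obtain ⟨i, -, rfl⟩ := Finset.mem_image.1 h1
        exact Or.inr ⟨i, h, rfl⟩

/-- the table of the matrices -/
noncomputable def Kt (U₀ S₀ : Finset ZI) (q : ι → ZI) (X : ι → ι → ZMod 2)
    (w : ↥S₀.powerset × Finset ι) : ℕ :=
  hv (KF (Matrix.of fun u u' : ↥(symmDiff (w.1 : Finset ZI) U₀) => s u u')
    (fun i (u : ↥(symmDiff (w.1 : Finset ZI) U₀)) => s u (q i)) w.2 X)

/-- the classes -/
noncomputable def cL (U₀ S₀ : Finset ZI) (q : ι → ZI) (w : ↥S₀.powerset × Finset ι) : ZMod 4 :=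
  ∑ π ∈ symmDiff (w.1 : Finset ZI) U₀, fc π + ∑ i ∈ w.2, fc (q i)

variable {U₀ W S₀ : Finset ZI} {p q : ι → ZI}

theorem Kt_congr {X X' : ι → ι → ZMod 2}
    (h : ∀ i l, X i l + X l i = X' i l + X' l i) : Kt U₀ S₀ q X = Kt U₀ S₀ q X' := by
  funext w
  unfold Kt KF
  congr 2
  ext a b
  rcases a with u | i <;> rcases b with u' | i'
  · rw [NU_11, NU_11]
  · rw [NU_12, NU_12]
  · rw [NU_21, NU_21]
  · rw [NU_22, NU_22, h i i', Finset.sum_congr rfl fun l _ => h i l]

/-- **The kernels of the divisors.** -/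
theorem KS_eq (hS : SymP) (hT : S_TAB) (hU : U₀ ⊆ W) (hW : ∀ u ∈ W, PP u) (h0 : ∀ u ∈ S₀, PP u)
    (ht : Tu (S₀ ∪ W) p) {X : ι → ι → ZMod 2}
    (hX : ∀ i l, i ≠ l → X i l + X l i = s (p i) (p l)) (ε : ℝ) :
    LawC (cL U₀ S₀ p) (Kt U₀ S₀ p X) ε ↔ LawD U₀ ε (S₀ ∪ univ.image p) := by
  obtain ⟨hp, h⟩ := ht
  have hd : ∀ i, p i ∉ S₀ := fun i hi => (h i).2 (Finset.mem_union_left _ hi)
  have hsd : ∀ w : ↥S₀.powerset × Finset ι, symmDiff ((w.1 : Finset ZI) ∪ w.2.image p) U₀ =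
      symmDiff (w.1 : Finset ZI) U₀ ∪ w.2.image p := by
    intro w
    refine sd_union hU fun x hx hx' => ?_
    obtain ⟨i, -, rfl⟩ := Finset.mem_image.1 hx
    exact (h i).2 (Finset.union_subset_union_left (Finset.mem_powerset.1 w.1.2) hx')
  have hsub : ∀ w : ↥S₀.powerset × Finset ι, symmDiff (w.1 : Finset ZI) U₀ ⊆ S₀ ∪ W := fun w =>
    (sd_sub hU).trans (Finset.union_subset_union_left (Finset.mem_powerset.1 w.1.2))
  have hPP : ∀ u ∈ S₀ ∪ W, PP u := fun u hu => by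
    rcases Finset.mem_union.1 hu with h | h
    · exact h0 u h
    · exact hW u h
  refine lawC_congr (eqP hp hd) (fun w => ?_) (fun w => ?_) ε
  · show ∑ π ∈ symmDiff ((w.1 : Finset ZI) ∪ w.2.image p) U₀, fc π = _
    rw [hsd w, Finset.sum_union, Finset.sum_image fun i _ j _ h => hp h]
    · rfl
    · rw [Finset.disjoint_left]
      intro x hx hx'
      obtain ⟨i, -, rfl⟩ := Finset.mem_image.1 hx'
      exact (h i).2 (hsub w hx)
  · show 2 ^ bb (symmDiff ((w.1 : Finset ZI) ∪ w.2.image p) U₀) = _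
    rw [hsd w]
    exact (hT hS ι (S₀ ∪ W) (symmDiff (w.1 : Finset ZI) U₀) p w.2 X
      (fun u hu => hPP u (hsub w hu)) (hsub w) ⟨hp, h⟩ hX).2

/-- the table depends on the labels only -/
theorem Kt_lab (hU : U₀ ⊆ W) (hl : ∀ i, lb (S₀ ∪ W) (p i) = lb (S₀ ∪ W) (q i))
    (X : ι → ι → ZMod 2) : Kt U₀ S₀ p X = Kt U₀ S₀ q X := by
  funext w
  have hT : symmDiff (w.1 : Finset ZI) U₀ ⊆ S₀ ∪ W :=
    (sd_sub hU).trans (Finset.union_subset_union_left (Finset.mem_powerset.1 w.1.2))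
  have h1 : ∀ i, ∀ u ∈ S₀ ∪ W, s u (p i) = s u (q i) := fun i u hu =>
    congrFun (congrArg (fun z => z.1) (hl i)) (⟨u, hu⟩ : ↥(S₀ ∪ W))
  have h3 : (fun i (u : ↥(symmDiff (w.1 : Finset ZI) U₀)) => s u (p i)) =
      (fun i (u : ↥(symmDiff (w.1 : Finset ZI) U₀)) => s u (q i)) := by
    funext i u
    exact h1 i u (hT u.2)
  unfold Kt
  rw [h3]

theorem cL_lab (hl : ∀ i, lb (S₀ ∪ W) (p i) = lb (S₀ ∪ W) (q i)) :
    cL U₀ S₀ p = cL U₀ S₀ q := by
  funext w
  have h1 : ∀ i, fc (p i) = fc (q i) := fun i => congrArg (fun z => z.2) (hl i)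
  unfold cL
  rw [Finset.sum_congr rfl fun i _ => h1 i]

end

section
variable {ι : Type} [Fintype ι] [LinearOrder ι] {U₀ W S₀ : Finset ZI} {p q : ι → ZI}

theorem mem_prs {e : ι × ι} : e ∈ prs ι ↔ e.1 < e.2 := by
  unfold prs
  rw [Finset.mem_filter]
  exact and_iff_right (Finset.mem_univ _)

/-- the extension of a table of symbols -/
noncomputable def xt (α : prs ι → ZMod 2) : ι → ι → ZMod 2 :=
  fun i l => if h : (i, l) ∈ prs ι then α ⟨(i, l), h⟩ else 0

theorem xt_add (g : ι → ι → ZMod 2) (hg : ∀ i l, g i l = g l i) (hg0 : ∀ i, g i i = 0)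
    (i l : ι) :
    xt (fun e : prs ι => g e.1.1 e.1.2) i l + xt (fun e : prs ι => g e.1.1 e.1.2) l i = g i l := by
  unfold xt
  rcases lt_trichotomy i l with h | h | h
  · have h1 : (i, l) ∈ prs ι := mem_prs.2 h
    have h2 : (l, i) ∉ prs ι := fun h' => lt_asymm h (mem_prs.1 h')
    rw [dif_pos h1, dif_neg h2, add_zero]
  · subst h
    rw [hg0]
    exact z2_dbl _
  · have h1 : (l, i) ∈ prs ι := mem_prs.2 h
    have h2 : (i, l) ∉ prs ι := fun h' => lt_asymm h (mem_prs.1 h')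
    rw [dif_neg h2, dif_pos h1, zero_add]
    exact hg l i

/-- the homomorphism to the tables of symbols -/
noncomputable def φp (ι : Type) [Fintype ι] [LinearOrder ι] : (ι → ι → ZMod 2) →+ (prs ι → ZMod 2) where
  toFun x := fun e => x e.1.1 e.1.2 + x e.1.2 e.1.1
  map_zero' := by
    funext e
    exact add_zero _
  map_add' x y := by
    funext e
    show (x e.1.1 e.1.2 + y e.1.1 e.1.2) + (x e.1.2 e.1.1 + y e.1.2 e.1.1) =
      (x e.1.1 e.1.2 + x e.1.2 e.1.1) + (y e.1.1 e.1.2 + y e.1.2 e.1.1)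
    ring

theorem φp_surj : Function.Surjective (φp ι) := by
  intro α
  refine ⟨xt α, ?_⟩
  funext e
  show xt α e.1.1 e.1.2 + xt α e.1.2 e.1.1 = α e
  obtain ⟨⟨i, l⟩, h⟩ := e
  have h' : (l, i) ∉ prs ι := fun h' => lt_asymm (mem_prs.1 h) (mem_prs.1 h')
  unfold xt
  show (if h : (i, l) ∈ prs ι then α ⟨(i, l), h⟩ else 0) +
    (if h : (l, i) ∈ prs ι then α ⟨(l, i), h⟩ else 0) = _
  rw [dif_pos h, dif_neg h', add_zero]

/-- the mean over the tables is the mean over the matrices -/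
theorem avg_tab (h : (↥S₀.powerset × Finset ι → ℕ) → ℝ) :
    avg (fun α : prs ι → ZMod 2 => h (Kt U₀ S₀ q (xt α))) =
      aX (fun x : ι → ι → ZMod 2 => h (Kt U₀ S₀ q x)) := by
  rw [← avg_hom (φp ι) φp_surj (fun α => h (Kt U₀ S₀ q (xt α)))]
  have h1 : (fun x : ι → ι → ZMod 2 => h (Kt U₀ S₀ q (xt (φp ι x)))) =
      fun x : ι → ι → ZMod 2 => h (Kt U₀ S₀ q x) := by
    funext x
    congr 1
    refine Kt_congr fun i l => ?_
    exact xt_add (fun i l => x i l + x l i) (fun _ _ => add_comm _ _) (fun i => z2_dbl _) i l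
  rw [h1]
  exact avg_inst _ _ _

end

section
variable {ι : Type} [Fintype ι] {U₀ W S₀ : Finset ZI} {q : ι → ZI}

/-- the regularity for the matrices -/
theorem reg_L {L : ℕ} (hR : RN L (S₀ ∪ W) (univ.image q)) {T : Finset ZI} (hT : T ⊆ S₀ ∪ W)
    (w : ↥T → ZMod 2) (hw : w ≠ 0) :
    L ≤ (univ.filter fun i => ∑ r, w r * s r (q i) ≠ 0).card := by
  have hinj : Function.Injective (Subtype.val : ↥T → ZI) := Subtype.val_injective
  set w' : Finset ZI := Finset.image (Subtype.val : ↥T → ZI)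
    (univ.filter fun u : ↥T => w u ≠ 0) with hw'
  have h1 : w' ⊆ S₀ ∪ W := by
    intro u hu
    obtain ⟨u', -, rfl⟩ := Finset.mem_image.1 hu
    exact hT u'.2
  have h2 : w'.Nonempty := by
    obtain ⟨u, hu⟩ := Function.ne_iff.1 hw
    exact ⟨u, Finset.mem_image_of_mem _ (Finset.mem_filter.2 ⟨Finset.mem_univ _, hu⟩)⟩
  refine (hR w' h1 h2).trans ?_
  have h4 : ∀ n : ZI, ∑ u ∈ w', s u n = ∑ r : ↥T, w r * s r n := by
    intro n
    rw [hw', Finset.sum_image fun a _ b _ h => hinj h, Finset.sum_filter]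
    refine Finset.sum_congr rfl fun r _ => ?_
    rcases z2_all (w r) with h | h
    · rw [h, if_neg (fun h' => h' rfl), zero_mul]
    · rw [h, if_pos one_ne_zero, one_mul]
  have h5 : ((univ.image q).filter fun p => ∑ u ∈ w', s u p ≠ 0) ⊆
      (univ.filter fun i => ∑ r, w r * s r (q i) ≠ 0).image q := by
    intro n hn
    obtain ⟨h6, h8⟩ := Finset.mem_filter.1 hn
    obtain ⟨i, -, rfl⟩ := Finset.mem_image.1 h6
    refine Finset.mem_image_of_mem _ (Finset.mem_filter.2 ⟨Finset.mem_univ _, ?_⟩)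
    rw [h4] at h8
    exact h8
  exact (Finset.card_le_card h5).trans Finset.card_image_le

theorem reg_O {L : ℕ} (h : L ≤ ((univ.image q).filter fun π => fc π = 1 ∨ fc π = 3).card) :
    L ≤ (univ.filter fun i => fc (q i) = 1 ∨ fc (q i) = 3).card := by
  refine h.trans ?_
  have h5 : ((univ.image q).filter fun π => fc π = 1 ∨ fc π = 3) ⊆
      (univ.filter fun i => fc (q i) = 1 ∨ fc (q i) = 3).image q := by
    intro n hn
    obtain ⟨h6, h7⟩ := Finset.mem_filter.1 hn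
    obtain ⟨i, -, rfl⟩ := Finset.mem_image.1 h6
    exact Finset.mem_image_of_mem _ (Finset.mem_filter.2 ⟨Finset.mem_univ _, h7⟩)
  exact (Finset.card_le_card h5).trans Finset.card_image_le

end

end Q155.GN.LQ
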