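import Pool.Agent.Q155.GN.Stm2

/-!
# Project GN: the natural-order laws for the sets of primes
-/

set_option autoImplicit false
set_option linter.unusedVariables false

open scoped Classical

namespace Q155.GN

open Finset Filter
open H385 (ZI nrm)
open Pool.Agent.Y699 (PP PS qr QB SB PD)
open Q155.KG (Lm FI al)

/-- the ingredients -/
structure Ing : Prop where
  sym : SymP
  bil : S_BIL
  eq : S_EQ
  box : S_BOX
  key : S_KEY
  cnt : S_CNT
  hal : S_HAL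
  ha4 : S_HA4
  bad : S_BAD
  lab : S_LAB
  low : S_LOW
  asy : S_ASY

/-- from the local statement to the proportion -/
theorem prop_of_loc (h : Ing) (κ : ZMod 4 → Prop) (V W : Finset ZI) (T : Finset ZI → Prop) (c : ℝ)
    (h0 : 0 ≤ c) (h1 : c ≤ 1) (hκ : ∃ r, κ r) (hV : V ⊆ W) (hW : ∀ u ∈ W, PP u)
    (hL : ∀ ε : ℝ, 0 < ε → ∃ A R : ℕ, Loc (NK κ V A R W) T W c ε) :
    Tendsto (fun X : ℕ => (((SS X).filter fun S => Kc κ V S ∧ T S).card : ℝ) /
      (((SS X).filter (Kc κ V)).card : ℝ)) atTop (nhds c) := by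
  refine h.asy h.bil h.key h.cnt (h.bad h.sym h.hal h.ha4) κ V W T c h0 h1 hW
    (h.low κ V hκ fun u hu => hW u (hV hu)) fun ε hε => ?_
  obtain ⟨A, R, hAR⟩ := hL ε hε
  exact ⟨A, R, h.box h.eq _ T W c ε h0 hε.le hW (h.lab h.sym κ V A R W hV hW) hAR⟩

/-- the coranks of the twists are the given ones -/
def JT {M : ℕ} (U : Fin M → Finset ZI) (r : Fin M → ℕ) (S : Finset ZI) : Prop :=
  ∀ k, bb (symmDiff S (U k)) = r k

/-- the joint law of the coranks of `M` twists -/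
theorem joint (h : Ing) (hj : S_LJ) (hal : ∀ b, 0 ≤ al b ∧ al b ≤ 1) (κ : ZMod 4 → Prop)
    (hκ : ∃ r, κ r) (V : Finset ZI) (hV : ∀ u ∈ V, PP u) (M : ℕ) (U : Fin M → Finset ZI)
    (hU : Function.Injective U) (hUP : ∀ k, ∀ u ∈ U k, PP u) (r : Fin M → ℕ) :
    Tendsto (fun X : ℕ => (((SS X).filter fun S => Kc κ V S ∧ JT U r S).card : ℝ) /
      (((SS X).filter (Kc κ V)).card : ℝ)) atTop (nhds (∏ k, al (r k))) := by
  have hW : ∀ u ∈ V ∪ univ.biUnion U, PP u := by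
    intro u hu
    rcases mem_union.1 hu with h1 | h1
    · exact hV u h1
    · obtain ⟨k, -, hk⟩ := mem_biUnion.1 h1
      exact hUP k u hk
  have h0 : 0 ≤ ∏ k, al (r k) := prod_nonneg fun k _ => (hal _).1
  have h1 : ∏ k, al (r k) ≤ 1 := prod_le_one (fun k _ => (hal _).1) fun k _ => (hal _).2
  have h2 : ∀ k, U k ⊆ V ∪ univ.biUnion U := fun k =>
    (subset_biUnion_of_mem U (mem_univ k)).trans subset_union_right
  exact prop_of_loc h κ V (V ∪ univ.biUnion U) (JT U r)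
    (∏ k, al (r k)) h0 h1 hκ subset_union_left hW
    fun ε hε => hj h.sym κ V (V ∪ univ.biUnion U) M U r hU h2 hW ε hε

theorem loc_mono {N : Finset ZI → Finset ZI → Prop} {T T' : Finset ZI → Prop} {W : Finset ZI}
    {ε δ : ℝ} (h : Loc N T W 1 ε) (hT : ∀ S, T S → T' S) (hε : ε ≤ δ) (hδ : 0 ≤ δ) :
    Loc N T' W 1 δ := by
  intro ι _ _ S₀ q h1 h2 h3
  obtain ⟨Q₁, Q₂, h4, h5, h6⟩ := h ι S₀ q h1 h2 h3
  have hp : (0 : ℝ) < 2 ^ (prs ι).card := by positivity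
  refine ⟨Q₁, fun _ => True, ?_, ?_, fun p hp1 hp2 => ⟨fun h7 => hT _ ((h6 p hp1 hp2).1 h7),
    fun _ => trivial⟩⟩
  · exact le_trans (mul_le_mul_of_nonneg_right (by linarith) hp.le) h4
  · rw [filter_true]
    have h7 : ((univ : Finset (prs ι → ZMod 2)).card : ℝ) = 2 ^ (prs ι).card := by
      rw [card_univ, Fintype.card_fun, ZMod.card, Fintype.card_coe]
      push_cast
      rfl
    rw [h7]
    nlinarith

theorem LawC.mono {I : Type} [Fintype I] {cl : I → ZMod 4} {K : I → ℕ} {ε δ : ℝ}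
    (h : LawC cl K ε) (hε : ε ≤ δ) : LawC cl K δ :=
  fun c => ⟨(h c).1.trans hε, fun b => ((h c).2.1 b).trans hε, (h c).2.2.trans hε⟩

/-- the law over the divisors for almost all sets -/
theorem quenched (h : Ing) (hr : S_ROOT) (hs : S_SEC) (hf : S_FST) (ha : S_ABS) (hc : S_CLS)
    (ht : S_TAB) (hq : S_LQ) (κ : ZMod 4 → Prop) (hκ : ∃ r, κ r) (V : Finset ZI)
    (hV : ∀ u ∈ V, PP u) (U₀ : Finset ZI) (hU : ∀ u ∈ U₀, PP u) (ε : ℝ) (hε : 0 < ε) :
    Tendsto (fun X : ℕ => (((SS X).filter fun S => Kc κ V S ∧ LawD U₀ ε S).card : ℝ) /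
      (((SS X).filter (Kc κ V)).card : ℝ)) atTop (nhds 1) := by
  have hW : ∀ u ∈ V ∪ U₀, PP u := by
    intro u hu
    rcases mem_union.1 hu with h1 | h1
    · exact hV u h1
    · exact hU u h1
  refine prop_of_loc h κ V (V ∪ U₀) (LawD U₀ ε) 1 zero_le_one le_rfl hκ subset_union_left hW
    fun δ hδ => ?_
  obtain ⟨A, R, hAR⟩ := hq h.sym hr hs hf ha hc ht κ V U₀ (V ∪ U₀) subset_union_right hW
    (min ε δ) (lt_min hε hδ)
  exact ⟨A, R, loc_mono hAR (fun S hS => LawC.mono hS (min_le_left _ _)) (min_le_right _ _) hδ.le⟩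

end Q155.GN
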