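import Pool.Agent.Q155.GN.Main0
import Pool.Agent.Q14.GN.SYM
import Pool.Agent.Q14.GN.EQ
import Pool.Agent.Q14.GN.NS
import Pool.Agent.Q14.GN.GOOD
import Pool.Agent.Q14.GN.CLS
import Pool.Agent.Q146.GN.Cnt
import Pool.Agent.Q146.GN.Hal
import Pool.Agent.Q153.GN.Asy
import Pool.Agent.Q153.GN.Box
import Pool.Agent.Q153.GN.Lab
import Pool.Agent.Q153.GN.Low
import Pool.Agent.Q177.GN.Bil
import Pool.Agent.Q195.GN.Key
import Pool.Agent.Q241.GN.Bad
import Pool.Agent.Q121.GN.HA4
import Pool.Agent.Q155.KG.MainQ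

/-!
# Project GN: the natural-order laws in terms of the squarefree primary elements
-/

set_option autoImplicit false
set_option linter.unusedVariables false

open scoped Classical

namespace Q155.GN

open Finset Filter
open H385 (ZI nrm)
open Pool.Agent.Y699 (PP PS qr QB SB PD PS_prod mem_PD mem_SB)
open Q155.KG (al)

theorem ing : Ing where
  sym := Pool.Agent.Q14.GN.Sym.symP
  bil := Pool.Agent.Q177.GN.bil
  eq := Pool.Agent.Q14.GN.eq
  box := Pool.Agent.Q153.GN.box
  key := Pool.Agent.Q195.GN.key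
  cnt := Q146.GN.cnt
  hal := Q146.GN.hal
  ha4 := Pool.Agent.Q121.GN.ha4
  bad := Pool.Agent.Q241.GN.bad
  lab := Pool.Agent.Q153.GN.lab
  low := Pool.Agent.Q153.GN.low
  asy := Pool.Agent.Q153.GN.asy

/-- the squarefree primary elements of norm at most `X` with the property `P` -/
noncomputable def Fm (P : ZI → Prop) (X : ℕ) : Finset ZI := (SB X).filter P

theorem mem_Fm {P : ZI → Prop} {X : ℕ} {D : ZI} : D ∈ Fm P X ↔ (nrm D ≤ X ∧ PS D) ∧ P D := by
  unfold Fm
  rw [mem_filter, mem_SB]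

/-- from sets of primes to elements -/
theorem card_Fm0 (X : ℕ) (P : Finset ZI → Prop) :
    ((SS X).filter P).card = (Fm (fun D => P (PD D)) X).card := by
  unfold Fm
  rw [← Pool.Agent.Q14.GN.Ns.ns X fun D => P (PD D)]
  refine congrArg card (filter_congr fun S hS => ?_)
  have h := (Pool.Agent.Q14.GN.Ns.mem_SS.1 hS).1
  show P S ↔ P (PD (∏ π ∈ S, π))
  rw [(PS_prod h).2]

theorem card_Fm (X : ℕ) (P : Finset ZI → Prop) {inst : DecidablePred P} :
    (@filter _ P inst (SS X)).card = (Fm (fun D => P (PD D)) X).card := by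
  have h : inst = fun a => Classical.propDecidable (P a) := Subsingleton.elim _ _
  subst h
  exact card_Fm0 X P

/-- the joint law -/
theorem jointD (hj : S_LJ) (κ : ZMod 4 → Prop) (hκ : ∃ r, κ r) (V : Finset ZI)
    (hV : ∀ u ∈ V, PP u) (M : ℕ) (U : Fin M → Finset ZI) (hU : Function.Injective U)
    (hUP : ∀ k, ∀ u ∈ U k, PP u) (r : Fin M → ℕ) :
    Tendsto (fun X : ℕ => ((Fm (fun D => Kc κ V (PD D) ∧ JT U r (PD D)) X).card : ℝ) /
      ((Fm (fun D => Kc κ V (PD D)) X).card : ℝ)) atTop (nhds (∏ k, al (r k))) := by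
  have h1 : ∀ b, 0 ≤ al b ∧ al b ≤ 1 := fun b => ⟨Q155.KG.al_nonneg b,
    (Q155.KG.al_le b).trans (by
      rw [div_le_one (by positivity)]
      exact one_le_pow₀ one_le_two)⟩
  have h := joint ing hj h1 κ hκ V hV M U hU hUP r
  refine h.congr fun X => ?_
  rw [card_Fm X, card_Fm X]

end Q155.GN
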