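import Pool.Agent.Q155.GN.Main1

/-!
# Project GN: events for several twists
-/

set_option autoImplicit false
set_option linter.unusedVariables false

open scoped Classical

namespace Q155.GN

open Finset Filter
open H385 (ZI nrm)
open Pool.Agent.Y699 (PP PS qr QB SB PD PS_prod mem_PD mem_SB)
open Q155.KG (al)

/-- all the coranks of the twists in `C` are zero -/
def Zr {M : ℕ} (U : Fin M → Finset ZI) (C : Finset (Fin M)) (S : Finset ZI) : Prop :=
  ∀ k ∈ C, bb (symmDiff S (U k)) = 0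

theorem cylD (hj : S_LJ) (κ : ZMod 4 → Prop) (hκ : ∃ r, κ r) (V : Finset ZI)
    (hV : ∀ u ∈ V, PP u) (M : ℕ) (U : Fin M → Finset ZI) (hU : Function.Injective U)
    (hUP : ∀ k, ∀ u ∈ U k, PP u) (C : Finset (Fin M)) :
    Tendsto (fun X : ℕ => ((Fm (fun D => Kc κ V (PD D) ∧ Zr U C (PD D)) X).card : ℝ) /
      ((Fm (fun D => Kc κ V (PD D)) X).card : ℝ)) atTop (nhds (al 0 ^ C.card)) := by
  have h := jointD hj κ hκ V hV C.card (fun i => U (C.equivFin.symm i))
    (fun i j hij => C.equivFin.symm.injective (Subtype.ext (hU hij))) (fun k => hUP _)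
    (fun _ => 0)
  rw [prod_const, card_univ, Fintype.card_fin] at h
  refine h.congr fun X => ?_
  have h1 : Fm (fun D => Kc κ V (PD D) ∧ JT (fun i => U (C.equivFin.symm i)) (fun _ => 0) (PD D)) X =
      Fm (fun D => Kc κ V (PD D) ∧ Zr U C (PD D)) X := by
    ext D
    rw [mem_Fm, mem_Fm]
    refine and_congr_right fun _ => and_congr_right fun _ => ⟨fun h2 k hk => ?_, fun h2 i => ?_⟩
    · have h3 : bb (symmDiff (PD D) (U (C.equivFin.symm (C.equivFin ⟨k, hk⟩)))) = 0 :=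
        h2 (C.equivFin ⟨k, hk⟩)
      rw [Equiv.symm_apply_apply] at h3
      exact h3
    · exact h2 _ (C.equivFin.symm i).2
  rw [h1]

/-- exactly the coranks of the twists in `B` are zero -/
def Ex {M : ℕ} (U : Fin M → Finset ZI) (B : Finset (Fin M)) (S : Finset ZI) : Prop :=
  (∀ k ∈ B, bb (symmDiff S (U k)) = 0) ∧ ∀ k ∉ B, bb (symmDiff S (U k)) ≠ 0

/-- the inclusion-exclusion formula for indicators -/
theorem ind_Ex {M : ℕ} (U : Fin M → Finset ZI) (B : Finset (Fin M)) (S : Finset ZI) :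
    (if Ex U B S then (1 : ℝ) else 0) =
      ∑ T ∈ Bᶜ.powerset, (-1) ^ T.card * (if Zr U (B ∪ T) S then (1 : ℝ) else 0) := by
  set x : Fin M → ℝ := fun k => if bb (symmDiff S (U k)) = 0 then 1 else 0 with hx
  have h1 : ∀ C : Finset (Fin M), (if Zr U C S then (1 : ℝ) else 0) = ∏ k ∈ C, x k := by
    intro C
    by_cases h : Zr U C S
    · rw [if_pos h, prod_eq_one]
      exact fun k hk => if_pos (h k hk)
    · rw [if_neg h]
      unfold Zr at h
      push Not at h
      obtain ⟨k, hk, hk'⟩ := h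
      exact (prod_eq_zero hk (if_neg hk')).symm
  have h2 : (if Ex U B S then (1 : ℝ) else 0) = (∏ k ∈ B, x k) * ∏ k ∈ Bᶜ, (1 - x k) := by
    by_cases h : Ex U B S
    · rw [if_pos h, prod_eq_one (fun k hk => if_pos (h.1 k hk)), prod_eq_one, mul_one]
      intro k hk
      have h3 : x k = 0 := if_neg (h.2 k (mem_compl.1 hk))
      rw [h3, sub_zero]
    · rw [if_neg h]
      unfold Ex at h
      rw [not_and_or] at h
      rcases h with h | h
      · push Not at h
        obtain ⟨k, hk, hk'⟩ := h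
        rw [prod_eq_zero hk (if_neg hk'), zero_mul]
      · push Not at h
        obtain ⟨k, hk, hk'⟩ := h
        have h3 : x k = 1 := if_pos hk'
        rw [prod_eq_zero (mem_compl.2 hk) (by rw [h3, sub_self]), mul_zero]
  rw [h2]
  have h3 : ∏ k ∈ Bᶜ, (1 - x k) = ∑ T ∈ Bᶜ.powerset, (-1) ^ T.card * ∏ k ∈ T, x k := by
    have h4 := prod_add (fun k => -x k) (fun _ => (1 : ℝ)) Bᶜ
    have h5 : ∏ k ∈ Bᶜ, (1 - x k) = ∏ k ∈ Bᶜ, (-x k + 1) := prod_congr rfl fun k _ => by ring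
    rw [h5, h4]
    refine sum_congr rfl fun T _ => ?_
    rw [prod_const_one, mul_one]
    have h6 : ∏ k ∈ T, -x k = ∏ k ∈ T, (-1 : ℝ) * x k := prod_congr rfl fun k _ => by ring
    rw [h6, prod_mul_distrib, prod_const]
  rw [h3, mul_sum]
  refine sum_congr rfl fun T hT => ?_
  rw [h1, prod_union (disjoint_left.2 fun k hk hk' =>
    (mem_compl.1 (mem_powerset.1 hT hk')) hk)]
  ring

theorem card_ind (P : ZI → Prop) (Q : ZI → Prop) (X : ℕ) :
    ((Fm (fun D => P D ∧ Q D) X).card : ℝ) = ∑ D ∈ Fm P X, (if Q D then (1 : ℝ) else 0) := by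
  rw [sum_ite, sum_const_zero, add_zero, sum_const, nsmul_eq_mul, mul_one]
  congr 2
  ext D
  rw [mem_filter, mem_Fm, mem_Fm]
  tauto

/-- the law of the set of the twists with corank zero -/
theorem exD (hj : S_LJ) (κ : ZMod 4 → Prop) (hκ : ∃ r, κ r) (V : Finset ZI)
    (hV : ∀ u ∈ V, PP u) (M : ℕ) (U : Fin M → Finset ZI) (hU : Function.Injective U)
    (hUP : ∀ k, ∀ u ∈ U k, PP u) (B : Finset (Fin M)) :
    Tendsto (fun X : ℕ => ((Fm (fun D => Kc κ V (PD D) ∧ Ex U B (PD D)) X).card : ℝ) /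
      ((Fm (fun D => Kc κ V (PD D)) X).card : ℝ)) atTop
      (nhds (al 0 ^ B.card * (1 - al 0) ^ (M - B.card))) := by
  have h1 : ∀ X : ℕ, ((Fm (fun D => Kc κ V (PD D) ∧ Ex U B (PD D)) X).card : ℝ) /
      ((Fm (fun D => Kc κ V (PD D)) X).card : ℝ) = ∑ T ∈ Bᶜ.powerset, (-1) ^ T.card *
        (((Fm (fun D => Kc κ V (PD D) ∧ Zr U (B ∪ T) (PD D)) X).card : ℝ) /
          ((Fm (fun D => Kc κ V (PD D)) X).card : ℝ)) := by
    intro X
    rw [card_ind (fun D => Kc κ V (PD D)) (fun D => Ex U B (PD D)) X]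
    have h2 : ∑ D ∈ Fm (fun D => Kc κ V (PD D)) X, (if Ex U B (PD D) then (1 : ℝ) else 0) =
        ∑ T ∈ Bᶜ.powerset, (-1) ^ T.card *
          ∑ D ∈ Fm (fun D => Kc κ V (PD D)) X, (if Zr U (B ∪ T) (PD D) then (1 : ℝ) else 0) := by
      rw [sum_congr rfl fun D _ => ind_Ex U B (PD D), sum_comm]
      exact sum_congr rfl fun T _ => by rw [mul_sum]
    rw [h2, sum_div]
    refine sum_congr rfl fun T _ => ?_
    rw [card_ind (fun D => Kc κ V (PD D)) (fun D => Zr U (B ∪ T) (PD D)) X, mul_div_assoc]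
  have h2 : al 0 ^ B.card * (1 - al 0) ^ (M - B.card) =
      ∑ T ∈ Bᶜ.powerset, (-1) ^ T.card * al 0 ^ (B ∪ T).card := by
    have h3 := prod_add (fun _ : Fin M => -al 0) (fun _ => (1 : ℝ)) Bᶜ
    rw [prod_const, card_compl, Fintype.card_fin] at h3
    rw [show (1 - al 0) = -al 0 + 1 by ring, h3, mul_sum]
    refine sum_congr rfl fun T hT => ?_
    rw [prod_const_one, mul_one, prod_const, card_union_of_disjoint (disjoint_left.2 fun k hk hk' =>
      (mem_compl.1 (mem_powerset.1 hT hk')) hk), pow_add, neg_pow]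
    ring
  rw [h2]
  refine (tendsto_finsetSum _ fun T _ => ?_).congr fun X => (h1 X).symm
  exact (cylD hj κ hκ V hV M U hU hUP (B ∪ T)).const_mul _

end Q155.GN
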