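import Pool.Agent.Q155.GN.Main2

/-!
# Project GN: the laws in terms of products of Gaussian integers
-/

set_option autoImplicit false
set_option linter.unusedVariables false

open scoped Classical

namespace Q155.GN

open Finset Filter
open H385 (ZI nrm)
open Pool.Agent.Y699 (PP PS qr QB SB PD PS_prod mem_PD mem_SB PD_disj PD_mul exists_PP nrm_prod)
open Pool.Agent.H304R2.EC.A1 (prim prim_mul prim_norm_odd)
open Q155.KG (al)

theorem pow5_inj : ∀ a b : ZMod 4, 5 ^ a.val % 16 = 5 ^ b.val % 16 → a = b := by decide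

/-- the class of the norm -/
theorem fcl_iff {D : ZI} (hD : PS D) (a : ZMod 4) :
    ∑ π ∈ PD D, fc π = a ↔ nrm D % 16 = 5 ^ a.val % 16 := by
  have hP : ∀ π ∈ PD D, PP π := fun π hπ => ((mem_PD hD.ne).1 hπ).1
  have h1 := ing.sym.nrm_fc (PD D) hP
  rw [← nrm_prod, hD.prod] at h1
  constructor
  · rintro rfl
    exact h1
  · intro h
    exact pow5_inj _ _ (h1.symm.trans h)

theorem disj_iff {D m : ZI} (hD : PS D) (hm : PS m) : Disjoint (PD D) (PD m) ↔ IsCoprime D m := by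
  constructor
  · intro h
    by_contra hc
    have h1 : ¬ IsUnit (EuclideanDomain.gcd D m) := fun h2 =>
      hc ((EuclideanDomain.gcd_isUnit_iff).1 h2)
    have h0 : EuclideanDomain.gcd D m ≠ 0 := by
      intro h2
      exact hD.ne (EuclideanDomain.gcd_eq_zero_iff.1 h2).1
    obtain ⟨ρ, hρ, hρd⟩ := WfDvdMonoid.exists_irreducible_factor h1 h0
    have hρ' : Prime ρ := irreducible_iff_prime.1 hρ
    have hρD : ρ ∣ D := hρd.trans (EuclideanDomain.gcd_dvd_left _ _)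
    have hρm : ρ ∣ m := hρd.trans (EuclideanDomain.gcd_dvd_right _ _)
    obtain ⟨π, hπ, hπρ⟩ := exists_PP hρ' (Pool.Agent.Y699.odd_of_dvd hρD (prim_norm_odd hD.prm))
    exact disjoint_left.1 h ((mem_PD hD.ne).2 ⟨hπ, hπρ.dvd.trans hρD⟩)
      ((mem_PD hm.ne).2 ⟨hπ, hπρ.dvd.trans hρm⟩)
  · exact PD_disj hD.ne hm.ne

theorem PS_mul {D m : ZI} (hD : PS D) (hm : PS m) (h : IsCoprime D m) : PS (D * m) :=
  ⟨prim_mul hD.prm hm.prm, squarefree_mul_iff.2 ⟨h.isRelPrime, hD.sqf, hm.sqf⟩⟩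

theorem symm_PD {D m : ZI} (hD : PS D) (hm : PS m) (h : IsCoprime D m) :
    symmDiff (PD D) (PD m) = PD (D * m) := by
  rw [PD_mul hD.ne hm.ne, (PD_disj hD.ne hm.ne h).symmDiff_eq_sup]
  rfl

theorem PD_inj {D m : ZI} (hD : PS D) (hm : PS m) (h : PD D = PD m) : D = m := by
  rw [← hD.prod, ← hm.prod, h]

/-- the primes of the multipliers -/
noncomputable def Vm {M : ℕ} (m : Fin M → ZI) : Finset ZI := univ.biUnion fun k => PD (m k)

theorem Kc_iff {M : ℕ} {m : Fin M → ZI} (hm : ∀ k, PS (m k)) {D : ZI} (hD : PS D) (a : ZMod 4) :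
    Kc (fun r => r = a) (Vm m) (PD D) ↔
      nrm D % 16 = 5 ^ a.val % 16 ∧ ∀ k, IsCoprime D (m k) := by
  have h0 : Kc (fun r => r = a) (Vm m) (PD D) ↔
      ∑ π ∈ PD D, fc π = a ∧ Disjoint (univ.biUnion fun k => PD (m k)) (PD D) := Iff.rfl
  rw [h0, fcl_iff hD, disjoint_biUnion_left]
  refine and_congr_right fun _ => ⟨fun h k => (disj_iff hD (hm k)).1 (h k (mem_univ k)).symm,
    fun h k _ => ((disj_iff hD (hm k)).2 (h k)).symm⟩

/-- the family of the `D` in a class of the norm, prime to the multipliers -/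
def Fa {M : ℕ} (m : Fin M → ZI) (c : ℕ) (D : ZI) : Prop :=
  nrm D % 16 = c ∧ ∀ k, IsCoprime D (m k)

/-- exactly the twists by the `m k`, `k ∈ B`, have corank zero -/
def Eb {M : ℕ} (m : Fin M → ZI) (B : Finset (Fin M)) (D : ZI) : Prop :=
  (∀ k ∈ B, bb (PD (D * m k)) = 0) ∧ ∀ k ∉ B, bb (PD (D * m k)) ≠ 0

theorem ebD (hj : S_LJ) (a : ZMod 4) (M : ℕ) (m : Fin M → ZI) (hm : Function.Injective m)
    (hps : ∀ k, PS (m k)) (B : Finset (Fin M)) :
    Tendsto (fun X : ℕ => ((Fm (fun D => Fa m (5 ^ a.val % 16) D ∧ Eb m B D) X).card : ℝ) /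
      ((Fm (Fa m (5 ^ a.val % 16)) X).card : ℝ)) atTop
      (nhds (al 0 ^ B.card * (1 - al 0) ^ (M - B.card))) := by
  have h := exD hj (fun r => r = a) ⟨a, rfl⟩ (Vm m)
    (fun u hu => by
      obtain ⟨k, -, hk⟩ := mem_biUnion.1 hu
      exact ((mem_PD (hps k).ne).1 hk).1) M (fun k => PD (m k))
    (fun k l hkl => hm (PD_inj (hps k) (hps l) hkl))
    (fun k u hu => ((mem_PD (hps k).ne).1 hu).1) B
  refine h.congr fun X => ?_
  have h1 : Fm (fun D => Kc (fun r => r = a) (Vm m) (PD D)) X = Fm (Fa m (5 ^ a.val % 16)) X := by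
    ext D
    rw [mem_Fm, mem_Fm]
    exact and_congr_right fun h2 => Kc_iff hps h2.2 a
  have h2 : Fm (fun D => Kc (fun r => r = a) (Vm m) (PD D) ∧ Ex (fun k => PD (m k)) B (PD D)) X =
      Fm (fun D => Fa m (5 ^ a.val % 16) D ∧ Eb m B D) X := by
    ext D
    rw [mem_Fm, mem_Fm]
    refine and_congr_right fun h2 => ?_
    rw [Kc_iff hps h2.2 a]
    refine and_congr_right fun h3 => ?_
    unfold Ex Eb
    have h4 : ∀ k, symmDiff (PD D) (PD (m k)) = PD (D * m k) := fun k =>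
      symm_PD h2.2 (hps k) (h3.2 k)
    simp only [h4]
  rw [h1, h2]

end Q155.GN
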