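import Pool.Agent.Q155.GN.Main3
import Pool.Agent.Q263.GN.Fst

/-!
# Project GN: the law over the divisors in terms of Gaussian integers
-/

set_option autoImplicit false
set_option linter.unusedVariables false

open scoped Classical

namespace Q155.GN

open Finset Filter
open H385 (ZI nrm)
open Pool.Agent.Y699 (PP PS qr QB SB PD PS_prod mem_PD mem_SB PD_disj PD_mul exists_PP nrm_prod)
open Pool.Agent.H304R2.EC.A1 (prim prim_mul prim_norm_odd)
open Q155.KG (al FI)
open Pool.Agent.Q1.PT (avg)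

/-- the remaining ingredients for the law over the divisors -/
structure Ing2 : Prop where
  root : S_ROOT
  sec : S_SEC
  fst : S_FST
  abs : S_ABS
  cls : S_CLS
  tab : S_TAB
  lq : S_LQ

/-- the primary divisors -/
noncomputable def Dv (D : ZI) : Finset ZI := (PD D).powerset.image fun S => ∏ π ∈ S, π

theorem mem_Dv {D d : ZI} (hD : PS D) : d ∈ Dv D ↔ prim d ∧ d ∣ D := by
  unfold Dv
  rw [mem_image]
  constructor
  · rintro ⟨S, hS, rfl⟩
    rw [mem_powerset] at hS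
    have hP : ∀ π ∈ S, PP π := fun π hπ => ((mem_PD hD.ne).1 (hS hπ)).1
    refine ⟨(PS_prod hP).1.prm, ?_⟩
    have h1 := prod_dvd_prod_of_subset S (PD D) (fun π => π) hS
    rwa [hD.prod] at h1
  · rintro ⟨h1, h2⟩
    have h3 := hD.of_dvd h1 h2
    exact ⟨PD d, mem_powerset.2 (Pool.Agent.Y699.PD_subset hD.ne h2), h3.prod⟩

/-- sums over the divisors -/
theorem sum_Dv {D : ZI} (hD : PS D) (F : ZI → ℝ) :
    ∑ d ∈ Dv D, F d = ∑ S ∈ (PD D).powerset, F (∏ π ∈ S, π) := by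
  unfold Dv
  rw [sum_image]
  intro S hS T hT h
  have hP : ∀ S ∈ (PD D).powerset, ∀ π ∈ S, PP π := fun S hS π hπ =>
    ((mem_PD hD.ne).1 (mem_powerset.1 hS hπ)).1
  have h1 : (∏ π ∈ S, π) = ∏ π ∈ T, π := h
  rw [← (PS_prod (hP S hS)).2, ← (PS_prod (hP T hT)).2, h1]

theorem card_Dv {D : ZI} (hD : PS D) : (Dv D).card = 2 ^ (PD D).card := by
  have h := sum_Dv hD fun _ => 1
  rw [sum_const, sum_const, nsmul_eq_mul, nsmul_eq_mul, mul_one, mul_one, card_powerset] at h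
  exact_mod_cast h

/-- the law over the divisors `d` of `D`, for the twists by `d u` -/
def LawE (u : ZI) (ε : ℝ) (D : ZI) : Prop := ∀ c : ZMod 4,
  |(((Dv D).filter fun d => nrm (d * u) % 16 = 5 ^ c.val % 16).card : ℝ) / (Dv D).card - 1 / 4| ≤ ε ∧
  (∀ b : ℕ, |(((Dv D).filter fun d => nrm (d * u) % 16 = 5 ^ c.val % 16 ∧
    bb (PD (d * u)) = b).card : ℝ) / (Dv D).card - al b / 4| ≤ ε) ∧
  |(∑ d ∈ (Dv D).filter fun d => nrm (d * u) % 16 = 5 ^ c.val % 16, (2 : ℝ) ^ bb (PD (d * u))) /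
    (Dv D).card - 1 / 2| ≤ ε

theorem avg_Dv {D : ZI} (hD : PS D) (F : Finset ZI → ℝ) :
    avg (fun S : ↥(PD D).powerset => F S.1) = (∑ d ∈ Dv D, F (PD d)) / (Dv D).card := by
  have h1 : avg (fun S : ↥(PD D).powerset => F S.1) =
      (∑ S : ↥(PD D).powerset, F S.1) / (Fintype.card ↥(PD D).powerset) := rfl
  rw [h1, Fintype.card_coe, card_powerset, ← card_Dv hD, sum_coe_sort (PD D).powerset F,
    sum_Dv hD]
  congr 1
  refine sum_congr rfl fun S hS => ?_
  rw [(PS_prod fun π hπ => ((mem_PD hD.ne).1 (mem_powerset.1 hS hπ)).1).2]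

theorem lawE_of {u D : ZI} (hu : PS u) (hD : PS D) (hc : IsCoprime D u) {ε : ℝ}
    (h : LawD (PD u) ε (PD D)) : LawE u ε D := by
  have hd : ∀ d ∈ Dv D, PS d ∧ IsCoprime d u := by
    intro d hd
    obtain ⟨h1, h2⟩ := (mem_Dv hD).1 hd
    exact ⟨hD.of_dvd h1 h2, hc.of_isCoprime_of_dvd_left h2⟩
  have hs : ∀ d ∈ Dv D, symmDiff (PD d) (PD u) = PD (d * u) := fun d h1 =>
    symm_PD (hd d h1).1 hu (hd d h1).2
  have hf : ∀ d ∈ Dv D, ∀ c : ZMod 4, ∑ π ∈ symmDiff (PD d) (PD u), fc π = c ↔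
      nrm (d * u) % 16 = 5 ^ c.val % 16 := fun d h1 c => by
    rw [hs d h1]
    exact fcl_iff (PS_mul (hd d h1).1 hu (hd d h1).2) c
  intro c
  obtain ⟨h1, h2, h3⟩ := h c
  refine ⟨?_, fun b => ?_, ?_⟩
  · have h4 := avg_Dv hD fun S => if ∑ π ∈ symmDiff S (PD u), fc π = c then (1 : ℝ) else 0
    rw [h4] at h1
    rw [card_filter]
    push_cast
    refine le_of_eq_of_le ?_ h1
    congr 3
    exact sum_congr rfl fun d hd' => if_congr (hf d hd' c).symm rfl rfl
  · have h4 := avg_Dv hD fun S => (if ∑ π ∈ symmDiff S (PD u), fc π = c then (1 : ℝ) else 0) *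
      FI b (2 ^ bb (symmDiff S (PD u)))
    have h5 := h2 b
    rw [h4] at h5
    rw [card_filter]
    push_cast
    refine le_of_eq_of_le ?_ h5
    congr 3
    refine sum_congr rfl fun d hd' => ?_
    have h6 := hf d hd' c
    rw [hs d hd'] at h6 ⊢
    have h7 : FI b (2 ^ bb (PD (d * u))) = if bb (PD (d * u)) = b then 1 else 0 := by
      unfold FI
      exact if_congr ⟨fun h => Nat.pow_right_injective le_rfl h, fun h => by rw [h]⟩ rfl rfl
    rw [h7]
    by_cases h8 : nrm (d * u) % 16 = 5 ^ c.val % 16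
    · rw [if_pos (h6.2 h8), one_mul]
      exact if_congr ⟨fun h => h.2, fun h => ⟨h8, h⟩⟩ rfl rfl
    · rw [if_neg fun h => h8 h.1, if_neg fun h => h8 (h6.1 h), zero_mul]
  · have h4 := avg_Dv hD fun S => (if ∑ π ∈ symmDiff S (PD u), fc π = c then (1 : ℝ) else 0) *
      ((2 ^ bb (symmDiff S (PD u)) : ℕ) : ℝ)
    rw [h4] at h3
    refine le_of_eq_of_le ?_ h3
    congr 3
    rw [sum_filter]
    refine sum_congr rfl fun d hd' => ?_
    have h6 := hf d hd' c
    rw [hs d hd'] at h6 ⊢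
    by_cases h8 : nrm (d * u) % 16 = 5 ^ c.val % 16
    · rw [if_pos h8, if_pos (h6.2 h8), one_mul]
      push_cast
      rfl
    · rw [if_neg h8, if_neg fun h => h8 (h6.1 h), zero_mul]

/-- the law over the divisors of almost all `D` prime to `u` -/
theorem quenchedD (g : Ing2) {u : ZI} (hu : PS u) {ε : ℝ} (hε : 0 < ε) :
    Tendsto (fun X : ℕ => ((Fm (fun D => IsCoprime D u ∧ LawE u ε D) X).card : ℝ) /
      ((Fm (fun D => IsCoprime D u) X).card : ℝ)) atTop (nhds 1) := by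
  have hP : ∀ π ∈ PD u, PP π := fun π hπ => ((mem_PD hu.ne).1 hπ).1
  have h := quenched ing g.root g.sec g.fst g.abs g.cls g.tab g.lq (fun _ => True) ⟨0, trivial⟩
    (PD u) hP (PD u) hP ε hε
  have hK : ∀ D, PS D → (Kc (fun _ => True) (PD u) (PD D) ↔ IsCoprime D u) := by
    intro D hD
    have h0 : Kc (fun _ => True) (PD u) (PD D) ↔ True ∧ Disjoint (PD u) (PD D) := Iff.rfl
    rw [h0, true_and, disjoint_comm, disj_iff hD hu]
  have h1 : ∀ X : ℕ, (((SS X).filter fun S => Kc (fun _ => True) (PD u) S ∧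
      LawD (PD u) ε S).card : ℝ) / (((SS X).filter (Kc (fun _ => True) (PD u))).card : ℝ) ≤
      ((Fm (fun D => IsCoprime D u ∧ LawE u ε D) X).card : ℝ) /
      ((Fm (fun D => IsCoprime D u) X).card : ℝ) := by
    intro X
    rw [card_Fm X, card_Fm X]
    have e1 : Fm (fun D => Kc (fun _ => True) (PD u) (PD D)) X = Fm (fun D => IsCoprime D u) X := by
      ext D
      rw [mem_Fm, mem_Fm]
      exact and_congr_right fun h2 => hK D h2.2
    rw [e1]
    refine div_le_div_of_nonneg_right ?_ (Nat.cast_nonneg _)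
    have e2 : Fm (fun D => Kc (fun _ => True) (PD u) (PD D) ∧ LawD (PD u) ε (PD D)) X ⊆
        Fm (fun D => IsCoprime D u ∧ LawE u ε D) X := by
      intro D hD
      rw [mem_Fm] at hD ⊢
      have e3 := (hK D hD.1.2).1 hD.2.1
      exact ⟨hD.1, e3, lawE_of hu hD.1.2 e3 hD.2.2⟩
    exact_mod_cast card_le_card e2
  refine tendsto_of_tendsto_of_tendsto_of_le_of_le h tendsto_const_nhds h1 fun X => ?_
  have e2 : Fm (fun D => IsCoprime D u ∧ LawE u ε D) X ⊆ Fm (fun D => IsCoprime D u) X := by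
    intro D hD
    rw [mem_Fm] at hD ⊢
    exact ⟨hD.1, hD.2.1⟩
  exact div_le_one_of_le₀ (Nat.cast_le.2 (card_le_card e2)) (Nat.cast_nonneg _)

end Q155.GN
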