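import Pool.Agent.Q155.GN.Main4

/-!
# Project GN: the law over the divisors, relative to the classes
-/

set_option autoImplicit false
set_option linter.unusedVariables false

open scoped Classical

namespace Q155.GN

open Finset Filter
open H385 (ZI nrm)
open Pool.Agent.Y699 (PP PS qr QB SB PD PS_prod mem_PD mem_SB)
open Q155.KG (al FI al_zero al_one al_two al_three c2_lt al_le al_nonneg)

/-- the divisors with `d u` in the class `c` -/
noncomputable def Cs (u : ZI) (c : ZMod 4) (D : ZI) : Finset ZI :=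
  (Dv D).filter fun d => nrm (d * u) % 16 = 5 ^ c.val % 16

/-- the law over the divisors in the class `c` -/
structure LawR (u : ZI) (ε : ℝ) (c : ZMod 4) (D : ZI) : Prop where
  big : (1 / 4 - ε) * ((Dv D).card : ℝ) ≤ ((Cs u c D).card : ℝ)
  sml : ((Cs u c D).card : ℝ) ≤ (1 / 4 + ε) * ((Dv D).card : ℝ)
  law : ∀ b : ℕ, |(((Cs u c D).filter fun d => bb (PD (d * u)) = b).card : ℝ) -
    al b * ((Cs u c D).card : ℝ)| ≤ ε * ((Cs u c D).card : ℝ)
  two : |∑ d ∈ Cs u c D, (2 : ℝ) ^ bb (PD (d * u)) - 2 * ((Cs u c D).card : ℝ)| ≤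
    ε * ((Cs u c D).card : ℝ)

theorem Dv_pos {D : ZI} (hD : PS D) : 0 < ((Dv D).card : ℝ) := by
  rw [card_Dv hD]
  positivity

theorem lawR_of {u D : ZI} {ε δ : ℝ} (hD : PS D) (hδ : δ ≤ 1 / 8) (hε : 24 * δ ≤ ε)
    (hδ0 : 0 ≤ δ) (h : LawE u δ D) (c : ZMod 4) : LawR u ε c D := by
  obtain ⟨h1, h2, h3⟩ := h c
  have hn := Dv_pos hD
  obtain ⟨n, hn'⟩ : ∃ n : ℝ, n = ((Dv D).card : ℝ) := ⟨_, rfl⟩
  have hC : ((Dv D).filter fun d => nrm (d * u) % 16 = 5 ^ c.val % 16) = Cs u c D := rfl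
  rw [hC] at h1 h3
  rw [← hn'] at h1 h2 h3 hn
  obtain ⟨k, hk⟩ : ∃ k : ℝ, k = ((Cs u c D).card : ℝ) := ⟨_, rfl⟩
  rw [← hk] at h1
  have e1 : |k - n / 4| ≤ δ * n := by
    have : k - n / 4 = (k / n - 1 / 4) * n := by field_simp
    rw [this, abs_mul, abs_of_pos hn]
    exact mul_le_mul_of_nonneg_right h1 hn.le
  obtain ⟨e2, e3⟩ := abs_le.1 e1
  have hkn : n ≤ 8 * k := by nlinarith
  have hk0 : 0 ≤ k := by nlinarith
  refine ⟨?_, ?_, fun b => ?_, ?_⟩
  · rw [← hk, ← hn']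
    nlinarith
  · rw [← hk, ← hn']
    nlinarith
  · have h4 := h2 b
    have e4 : ((Dv D).filter fun d => nrm (d * u) % 16 = 5 ^ c.val % 16 ∧
        bb (PD (d * u)) = b) = (Cs u c D).filter fun d => bb (PD (d * u)) = b := by
      unfold Cs
      rw [filter_filter]
    rw [e4] at h4
    obtain ⟨m, hm⟩ : ∃ m : ℝ, m = (((Cs u c D).filter fun d => bb (PD (d * u)) = b).card : ℝ) :=
      ⟨_, rfl⟩
    rw [← hm] at h4
    rw [← hm, ← hk]
    have e5 : |m - al b / 4 * n| ≤ δ * n := by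
      have : m - al b / 4 * n = (m / n - al b / 4) * n := by field_simp
      rw [this, abs_mul, abs_of_pos hn]
      exact mul_le_mul_of_nonneg_right h4 hn.le
    obtain ⟨e6, e7⟩ := abs_le.1 e5
    have a0 := al_nonneg b
    have a1 : al b ≤ 1 := (al_le b).trans (by
      rw [div_le_one (by positivity)]
      exact one_le_pow₀ one_le_two)
    rw [abs_le]
    constructor <;> nlinarith [mul_nonneg a0 (mul_nonneg hδ0 hn.le)]
  · obtain ⟨m, hm⟩ : ∃ m : ℝ, m = ∑ d ∈ Cs u c D, (2 : ℝ) ^ bb (PD (d * u)) := ⟨_, rfl⟩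
    rw [← hm] at h3
    rw [← hm, ← hk]
    have e5 : |m - n / 2| ≤ δ * n := by
      have : m - n / 2 = (m / n - 1 / 2) * n := by field_simp
      rw [this, abs_mul, abs_of_pos hn]
      exact mul_le_mul_of_nonneg_right h3 hn.le
    obtain ⟨e6, e7⟩ := abs_le.1 e5
    rw [abs_le]
    constructor <;> nlinarith

/-- the mean corank in a class -/
theorem LawR.mean {u : ZI} {ε : ℝ} {c : ZMod 4} {D : ZI} (h : LawR u ε c D) :
    ∑ d ∈ Cs u c D, (bb (PD (d * u)) : ℝ) ≤ (0.7647 + 3 * ε) * ((Cs u c D).card : ℝ) := by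
  have h1 : ∀ n : ℕ, (n : ℝ) ≤ -(1 / 4) * (if n = 0 then (1 : ℝ) else 0) +
      1 / 2 * (if n = 1 then (1 : ℝ) else 0) + (if n = 2 then (1 : ℝ) else 0) +
      (if n = 3 then (1 : ℝ) else 0) + 1 / 4 * (2 : ℝ) ^ n := by
    intro n
    rcases n with _ | _ | _ | _ | n
    · norm_num
    · norm_num
    · norm_num
    · norm_num
    · have e0 : n + 1 + 1 + 1 + 1 ≠ 0 := by omega
      have e1 : n + 1 + 1 + 1 + 1 ≠ 1 := by omega
      have e2 : n + 1 + 1 + 1 + 1 ≠ 2 := by omega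
      have e3 : n + 1 + 1 + 1 + 1 ≠ 3 := by omega
      rw [if_neg e0, if_neg e1, if_neg e2, if_neg e3]
      have h2 : n + 1 ≤ 2 ^ n := Nat.lt_two_pow_self
      have h3 : (n : ℝ) + 1 ≤ 2 ^ n := by exact_mod_cast h2
      push_cast
      rw [pow_succ, pow_succ, pow_succ, pow_succ]
      linarith
  have h2 : ∀ b : ℕ, ∑ d ∈ Cs u c D, (if bb (PD (d * u)) = b then (1 : ℝ) else 0) =
      (((Cs u c D).filter fun d => bb (PD (d * u)) = b).card : ℝ) := fun b => by
    rw [Finset.sum_boole]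
  have h3 := Finset.sum_le_sum fun d (_ : d ∈ Cs u c D) => h1 (bb (PD (d * u)))
  rw [Finset.sum_add_distrib, Finset.sum_add_distrib, Finset.sum_add_distrib,
    Finset.sum_add_distrib, ← Finset.mul_sum, ← Finset.mul_sum, ← Finset.mul_sum, h2, h2, h2,
    h2] at h3
  have a0 := (abs_le.1 (h.law 0)).1
  have a1 := (abs_le.1 (h.law 1)).2
  have a2 := (abs_le.1 (h.law 2)).2
  have a3 := (abs_le.1 (h.law 3)).2
  have a4 := (abs_le.1 h.two).2
  rw [al_zero] at a0
  rw [al_one] at a1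
  rw [al_two] at a2
  rw [al_three] at a3
  have h4 := c2_lt
  have h5 : (0 : ℝ) ≤ ((Cs u c D).card : ℝ) := Nat.cast_nonneg _
  have h6 : Pool.Agent.Y703.CQ.c2 * ((Cs u c D).card : ℝ) ≤ 0.4195 * ((Cs u c D).card : ℝ) :=
    mul_le_mul_of_nonneg_right h4.le h5
  linarith

/-- the share of the divisors with small corank -/
theorem LawR.le {u : ZI} {ε : ℝ} {c : ZMod 4} {D : ZI} (h : LawR u ε c D) (t : ℕ) :
    (∑ b ∈ range (t + 1), al b - (t + 1) * ε) * ((Cs u c D).card : ℝ) ≤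
      (((Cs u c D).filter fun d => bb (PD (d * u)) ≤ t).card : ℝ) := by
  have h1 : (((Cs u c D).filter fun d => bb (PD (d * u)) ≤ t).card : ℝ) =
      ∑ b ∈ range (t + 1), (((Cs u c D).filter fun d => bb (PD (d * u)) = b).card : ℝ) := by
    rw [← Nat.cast_sum, ← Finset.card_biUnion]
    · congr 2
      ext d
      rw [Finset.mem_filter, Finset.mem_biUnion]
      constructor
      · rintro ⟨h2, h3⟩
        exact ⟨bb (PD (d * u)), Finset.mem_range.2 (by omega), Finset.mem_filter.2 ⟨h2, rfl⟩⟩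
      · rintro ⟨b, hb, h2⟩
        obtain ⟨h3, h4⟩ := Finset.mem_filter.1 h2
        have := Finset.mem_range.1 hb
        exact ⟨h3, by omega⟩
    · intro b _ b' _ hbb
      show Disjoint _ _
      rw [Finset.disjoint_left]
      intro d hd hd'
      exact hbb ((Finset.mem_filter.1 hd).2.symm.trans (Finset.mem_filter.1 hd').2)
  rw [h1]
  have h2 : ∑ b ∈ range (t + 1), (al b - ε) * ((Cs u c D).card : ℝ) ≤
      ∑ b ∈ range (t + 1), (((Cs u c D).filter fun d => bb (PD (d * u)) = b).card : ℝ) :=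
    Finset.sum_le_sum fun b _ => by
      have := (abs_le.1 (h.law b)).1
      linarith
  rw [← Finset.sum_mul, Finset.sum_sub_distrib, Finset.sum_const, Finset.card_range,
    nsmul_eq_mul] at h2
  push_cast at h2
  exact h2

end Q155.GN
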