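import Pool.Agent.Q155.GN.Stm

/-!
# Project GN: the average order of the kernel in natural order
-/

set_option autoImplicit false
set_option linter.unusedVariables false

open scoped Classical

namespace Q155.GN

open Finset
open H385 (ZI nrm)
open Pool.Agent.Y699 (PP PS PD qr SB)

/-- the number of the elements of the kernel of the Laplacian of the primes dividing `n` -/
noncomputable def KN (n : ZI) : ℕ := 2 ^ Module.finrank (ZMod 2) (Kl (PD n))

/-- JOB GN-AV: **the average order of the kernel is `4`**, over the squarefree primary `n` with norm `5` modulo `8`.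
This is the port to the Gaussian integers of `Pool.Agent.Y699.E.average'` (`Pool/Agent/Y699/E/Fin.lean`; files `Pr`,
`Jl`, `Kid`, `RegA`, `RegB`, `RegC`, `Asm`, `Fin` of `Pool/Agent/Y699/E`, Eisenstein integers, cubic symbols, average
`6`; used in `Y703/XL/Avg.lean`), and it is easier: all characters are real. The kernel of the Laplacian: the
subsets `d` of the primes (`n = d d'`) with `qr π d' = 1` for `π ∣ d` and `qr π d = 1` for `π ∣ d'`; so
`KN n = 2 ^ (-ω n) ∑ jac (D₁) (D₂ D₃) jac (D₃) (D₀ D₁)` over `n = D₀ D₁ D₂ D₃`, that is `jac D₁ D₂ * jac D₀ D₃` (as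
`jac D₁ D₃ ^ 2 = 1`, `jac_rec`). The linked pairs are `{1, 2}` and `{0, 3}`; the four maximal unlinked sets are
`{0, 1}`, `{0, 2}`, `{1, 3}`, `{2, 3}`, each of them contributes the number of the `n`. The condition on the norm is
`(1 - (-1) ^ ((N - 1) / 4)) / 2`. Library for the Gaussian integers: `Y699/Box.lean` (`box`: bilinear sums),
`Y699/Hall.lean`, `Y699/Hal2.lean` (`hall1`, `hall2`, `hallG`, `conv_le`, `conv_sum`), `Y699/Hyp.lean`,
`Y699/Pd.lean` (`jac`), `Q121/GN/HA4.lean` (the character of the norm modulo `8`), `Q146/GN/Hal.lean`, and the first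
version of the Gaussian average in `Y699/Avg.lean`. -/
def S_AV : Prop := ∀ ε : ℝ, 0 < ε → ∃ X₀ : ℕ, ∀ X : ℕ, X₀ ≤ X →
  |∑ n ∈ (SB X).filter (fun n => n.norm % 8 = 5), (KN n : ℝ) -
    4 * (((SB X).filter (fun n => n.norm % 8 = 5)).card : ℝ)| ≤ ε * X

end Q155.GN
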