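import Pool.Agent.Q155.GN.Mom0
import Pool.Agent.Q155.GN.Fin3
import Pool.Agent.Q155.GN.Ends
import Pool.Agent.Q155.GN.Stm4
import Pool.Agent.Q14.GN.Av
import Pool.Agent.Q155.NL.Law

/-!
# Project GN: the law for functions of the growth of the order of the Selmer group
-/

set_option autoImplicit false
set_option linter.unusedVariables false

open scoped Classical

namespace Q155.GN

open Finset Filter
open H385 (ZI nrm)
open Pool.Agent.Y699 (PP PS qr QB SB PD PS_prod mem_PD mem_SB)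
open Q155.KG (al al_nonneg)

/-- the elements of norm `5` modulo `8` -/
noncomputable def N5 (X : ℕ) : Finset ZI := Fm (fun D => nrm D % 8 = 5) X

theorem norm_five (D : ZI) : D.norm % 8 = 5 ↔ nrm D % 8 = 5 := by
  rw [norm_nrm]
  constructor
  · intro h
    exact_mod_cast h
  · intro h
    exact_mod_cast h

theorem N5_eq (X : ℕ) : (SB X).filter (fun n => n.norm % 8 = 5) = N5 X := by
  unfold N5
  ext n
  rw [mem_filter, mem_SB, mem_Fm, norm_five]

theorem card_SB : ∃ C : ℝ, 1 ≤ C ∧ ∀ X : ℕ, 1 ≤ X → ((SB X).card : ℝ) ≤ C * X := by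
  obtain ⟨C, hC⟩ := ing.cnt
  refine ⟨C, hC.one, fun X hX => ?_⟩
  have h1 := hC.all X hX
  have h2 := Pool.Agent.Q14.GN.Ns.ns X fun _ => True
  have e1 : ∀ {α : Type} (s : Finset α) (i : DecidablePred fun _ : α => True),
      @filter _ (fun _ => True) i s = s := fun s i => @filter_true_of_mem _ _ i _ fun _ _ => trivial
  rw [e1, e1] at h2
  rwa [← h2]

/-- the order of the kernel -/
theorem KN_eq {n : ZI} (hn : PS n) (h5 : nrm n % 8 = 5) : KN n = 2 * 2 ^ bb (PD n) := by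
  have hne : (PD n).Nonempty := by
    rw [Finset.nonempty_iff_ne_empty]
    intro h
    have h1 := hn.prod
    rw [h, prod_empty] at h1
    rw [← h1] at h5
    revert h5
    decide
  have := Pool.Agent.Q95.GN.fin_Kl (PD n)
  have hfin : Module.Finite (ZMod 2) (Kl (PD n)) := Module.Finite.of_finite
  have h1 : Nat.card (Kl (PD n)) = Nat.card (ZMod 2) ^ Module.finrank (ZMod 2) (Kl (PD n)) :=
    Module.natCard_eq_pow_finrank
  rw [Nat.card_zmod, Pool.Agent.Q95.GN.card_Kl hne] at h1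
  unfold KN
  rw [← h1, pow_succ, mul_comm]

/-- the law of the corank over the elements of norm `5` modulo `8` -/
theorem law5 (b : ℕ) : Tendsto (fun X : ℕ => ((fb (N5 X) (fun D => bb (PD D)) b).card : ℝ) /
    ((N5 X).card : ℝ)) atTop (nhds (al b)) := by
  have h := jointD lj (fun r => r = 1 ∨ r = 3) ⟨1, Or.inl rfl⟩ ∅ (fun u hu => absurd hu (notMem_empty u))
    1 (fun _ => ∅) (fun i j _ => Subsingleton.elim i j) (fun _ u hu => absurd hu (notMem_empty u))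
    (fun _ => b)
  rw [prod_const, card_univ, Fintype.card_fin, pow_one] at h
  have hK : ∀ D, PS D → (Kc (fun r => r = 1 ∨ r = 3) ∅ (PD D) ↔ nrm D % 8 = 5) := by
    intro D hD
    have h1 := ing.sym.five (PD D) (pp_PD hD)
    rw [hD.prod, norm_five] at h1
    unfold Kc
    rw [h1]
    exact and_iff_left (disjoint_empty_left _)
  refine h.congr fun X => ?_
  have e1 : Fm (fun D => Kc (fun r => r = 1 ∨ r = 3) ∅ (PD D)) X = N5 X := by
    unfold N5
    ext D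
    rw [mem_Fm, mem_Fm]
    exact and_congr_right fun h2 => hK D h2.2
  have e2 : Fm (fun D => Kc (fun r => r = 1 ∨ r = 3) ∅ (PD D) ∧ JT (fun _ : Fin 1 => ∅)
      (fun _ => b) (PD D)) X = fb (N5 X) (fun D => bb (PD D)) b := by
    unfold N5
    ext D
    rw [mem_fb, mem_Fm, mem_Fm, and_assoc (a := nrm D ≤ X ∧ PS D)]
    refine and_congr_right fun h2 => ?_
    rw [hK D h2.2]
    refine and_congr_right fun _ => ?_
    have h3 : symmDiff (PD D) ∅ = PD D := symmDiff_bot _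
    constructor
    · intro h4
      have h5 : bb (symmDiff (PD D) ∅) = b := h4 0
      rwa [h3] at h5
    · intro h4 k
      show bb (symmDiff (PD D) ∅) = b
      rwa [h3]
  rw [e1, e2]

/-- **the tails are uniformly small** -/
theorem tail_av {ε : ℝ} (hε : 0 < ε) : ∃ B : ℕ, ∀ᶠ X : ℕ in atTop,
    ∑ n ∈ fA (N5 X) (fun n => bb (PD n)) (range B), (2 : ℝ) ^ bb (PD n) ≤ ε * X := by
  obtain ⟨C, hC1, hC⟩ := card_SB
  have hC0 : 0 < C := by linarith
  obtain ⟨δ, hδ⟩ : ∃ δ : ℝ, δ = ε / (4 * C) := ⟨_, rfl⟩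
  have hδ0 : 0 < δ := by rw [hδ]; positivity
  obtain ⟨B, hB1, hB⟩ := Q155.NL.exists_B2 hδ0
  refine ⟨B, ?_⟩
  obtain ⟨η, hη⟩ : ∃ η : ℝ, η = δ / 2 ^ B := ⟨_, rfl⟩
  have hη0 : 0 < η := by rw [hη]; positivity
  obtain ⟨X₀, hX₀⟩ := Pool.Agent.Q14.GN.Av.av (ε / 2) (by positivity)
  have hlaw : ∀ᶠ X : ℕ in atTop, ∀ b ∈ range B,
      al b - η ≤ ((fb (N5 X) (fun D => bb (PD D)) b).card : ℝ) / ((N5 X).card : ℝ) := by
    rw [eventually_all_finset]
    intro b _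
    exact (law5 b).eventually (le_mem_nhds (by linarith))
  filter_upwards [hlaw, eventually_ge_atTop X₀, eventually_ge_atTop 1] with X h1 h2 h3
  have h4 := hX₀ X h2
  rw [N5_eq] at h4
  obtain ⟨n5, hn5⟩ : ∃ n5 : ℝ, n5 = ((N5 X).card : ℝ) := ⟨_, rfl⟩
  have hn0 : 0 ≤ n5 := by rw [hn5]; exact Nat.cast_nonneg _
  have hnC : n5 ≤ C * X := by
    rw [hn5]
    refine le_trans (Nat.cast_le.2 (card_le_card fun n hn => ?_)) (hC X h3)
    exact mem_SB.2 (mem_Fm.1 hn).1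
  have h5 : ∑ n ∈ N5 X, (KN n : ℝ) = 2 * ∑ n ∈ N5 X, (2 : ℝ) ^ bb (PD n) := by
    rw [mul_sum]
    refine sum_congr rfl fun n hn => ?_
    have h6 := mem_Fm.1 hn
    rw [KN_eq h6.1.2 h6.2]
    push_cast
    rfl
  rw [h5, ← hn5] at h4
  have h6 := (abs_le.1 h4).2
  have h7 : ∀ b ∈ range B, (2 : ℝ) ^ b * (al b - η) * n5 ≤
      2 ^ b * ((fb (N5 X) (fun D => bb (PD D)) b).card : ℝ) := by
    intro b hb
    rw [mul_assoc]
    refine mul_le_mul_of_nonneg_left ?_ (by positivity)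
    rcases eq_or_lt_of_le hn0 with h8 | h8
    · rw [← h8, mul_zero]
      exact Nat.cast_nonneg _
    · have h9 := h1 b hb
      rw [← hn5, le_div_iff₀ h8] at h9
      exact h9
  have h8 : ∑ b ∈ range B, (2 : ℝ) ^ b * ((fb (N5 X) (fun D => bb (PD D)) b).card : ℝ) =
      ∑ n ∈ fI (N5 X) (fun n => bb (PD n)) (range B), (2 : ℝ) ^ bb (PD n) :=
    sum_fib (N5 X) (fun D => bb (PD D)) (range B) fun b => (2 : ℝ) ^ b
  have h9 := sum_le_sum h7
  rw [h8, ← sum_mul] at h9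
  have h10 : ∑ b ∈ range B, (2 : ℝ) ^ b * (al b - η) =
      ∑ b ∈ range B, (2 : ℝ) ^ b * al b - η * ∑ b ∈ range B, (2 : ℝ) ^ b := by
    rw [mul_sum, ← sum_sub_distrib]
    exact sum_congr rfl fun b _ => by ring
  have h11 : η * ∑ b ∈ range B, (2 : ℝ) ^ b ≤ δ := by
    have h12 := Q155.NL.sum_two_pow B
    calc η * ∑ b ∈ range B, (2 : ℝ) ^ b ≤ η * 2 ^ B := mul_le_mul_of_nonneg_left h12 hη0.le
      _ = δ := by rw [hη]; field_simp
  have h12 : (2 - 2 * δ) * n5 ≤ ∑ n ∈ fI (N5 X) (fun n => bb (PD n)) (range B),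
      (2 : ℝ) ^ bb (PD n) := by
    refine le_trans (mul_le_mul_of_nonneg_right ?_ hn0) h9
    rw [h10]
    linarith
  have h13 := sum_IA (N5 X) (fun n => bb (PD n)) (range B) (fun n => (2 : ℝ) ^ bb (PD n))
  have h14 : δ * n5 ≤ ε / 4 * X := by
    have h15 : δ * n5 ≤ δ * (C * X) := mul_le_mul_of_nonneg_left hnC hδ0.le
    have h16 : δ * (C * X) = ε / 4 * X := by
      rw [hδ]
      field_simp
    linarith
  have h17 : 0 ≤ ε * (X : ℝ) := by positivity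
  linarith

/-- the coranks -/
noncomputable def cb {M : ℕ} (m : Fin M → ZI) (D : ZI) : Fin M → ℕ := fun k => bb (PD (D * m k))

/-- the joint law of the coranks -/
theorem lawR_joint {M : ℕ} {m : Fin M → ZI} (hm : Function.Injective m) (hps : ∀ k, PS (m k))
    (a : ZMod 4) (r : Fin M → ℕ) :
    Tendsto (fun X : ℕ => ((fb (Fm (Fa m (5 ^ a.val % 16)) X) (cb m) r).card : ℝ) /
      ((Fm (Fa m (5 ^ a.val % 16)) X).card : ℝ)) atTop (nhds (∏ k, al (r k))) := by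
  have h := jointD lj (fun t => t = a) ⟨a, rfl⟩ (Vm m) (fun u hu => by
    obtain ⟨k, -, hk⟩ := mem_biUnion.1 hu
    exact pp_PD (hps k) u hk) M (fun k => PD (m k))
    (fun i j hij => hm (PD_inj (hps i) (hps j) hij)) (fun k u hu => pp_PD (hps k) u hu) r
  refine h.congr fun X => ?_
  have e1 : Fm (fun D => Kc (fun t => t = a) (Vm m) (PD D)) X = Fm (Fa m (5 ^ a.val % 16)) X := by
    ext D
    rw [mem_Fm, mem_Fm]
    exact and_congr_right fun h2 => Kc_iff hps h2.2 a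
  have e2 : Fm (fun D => Kc (fun t => t = a) (Vm m) (PD D) ∧ JT (fun k => PD (m k)) r (PD D)) X =
      fb (Fm (Fa m (5 ^ a.val % 16)) X) (cb m) r := by
    ext D
    rw [mem_fb, mem_Fm, mem_Fm, and_assoc (a := nrm D ≤ X ∧ PS D)]
    refine and_congr_right fun h2 => ?_
    rw [Kc_iff hps h2.2 a]
    refine and_congr_right fun h3 => ?_
    unfold JT cb
    rw [funext_iff]
    refine forall_congr' fun k => ?_
    rw [symm_PD h2.2 (hps k) (h3.2 k)]
  rw [e1, e2]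

/-- the tail of a twist -/
theorem tail_tw {M : ℕ} {m : Fin M → ZI} (hps : ∀ k, PS (m k)) {c : ℕ} (h1 : c < 16)
    (h5 : ∀ k, c * nrm (m k) % 8 = 5) (k : Fin M) {X B : ℕ} {T : ℝ}
    (h : ∑ n ∈ fA (N5 (X * nrm (m k))) (fun n => bb (PD n)) (range B), (2 : ℝ) ^ bb (PD n) ≤ T) :
    ∑ D ∈ Fm (Fa m c) X, (if B ≤ cb m D k then (2 : ℝ) ^ cb m D k else 0) ≤ T := by
  refine le_trans ?_ h
  rw [← sum_filter]
  have hinj : Set.InjOn (fun D => D * m k) (((Fm (Fa m c) X).filter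
      (fun D => B ≤ cb m D k) : Finset ZI) : Set ZI) := fun x _ y _ hxy =>
    mul_right_cancel₀ (hps k).ne hxy
  have h2 : ∑ D ∈ (Fm (Fa m c) X).filter (fun D => B ≤ cb m D k), (2 : ℝ) ^ cb m D k =
      ∑ n ∈ ((Fm (Fa m c) X).filter (fun D => B ≤ cb m D k)).image (fun D => D * m k),
        (2 : ℝ) ^ bb (PD n) := (sum_image (f := fun n => (2 : ℝ) ^ bb (PD n)) hinj).symm
  rw [h2]
  refine sum_le_sum_of_subset_of_nonneg ?_ fun n _ _ => by positivity
  intro n hn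
  obtain ⟨D, hD, rfl⟩ := mem_image.1 hn
  rw [mem_filter, mem_Fm] at hD
  obtain ⟨⟨⟨hDX, hDP⟩, hDF⟩, hDB⟩ := hD
  rw [mem_fA]
  refine ⟨mem_Fm.2 ⟨⟨?_, PS_mul hDP (hps k) (hDF.2 k)⟩, ?_⟩, ?_⟩
  · rw [nrm_mul']
    exact Nat.mul_le_mul_right _ hDX
  · rw [nrm_mul']
    have h3 := h5 k
    have h4 := hDF.1
    have h6 : nrm D * nrm (m k) % 16 = c * nrm (m k) % 16 := by
      rw [Nat.mul_mod, h4]
      conv_rhs => rw [Nat.mul_mod, Nat.mod_eq_of_lt h1]
    omega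
  · rw [mem_range, not_lt]
    exact hDB

/-- the bound at a point outside the box -/
theorem pt_le {M : ℕ} {g : (Fin M → ℕ) → ℝ} {C : ℝ} (hC : 0 ≤ C)
    (hg : ∀ b, |g b| ≤ C * ∑ k, (2 : ℝ) ^ b k) {B : ℕ} {b : Fin M → ℕ}
    (hb : b ∉ Fintype.piFinset (fun _ : Fin M => range B)) :
    |g b| ≤ C * M * ∑ l, (if B ≤ b l then (2 : ℝ) ^ b l else 0) := by
  rw [Fintype.mem_piFinset, not_forall] at hb
  obtain ⟨l0, hl0⟩ := hb
  have hl0' : B ≤ b l0 := by
    rw [mem_range] at hl0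
    omega
  obtain ⟨l, -, hl⟩ := exists_max_image univ b ⟨l0, mem_univ l0⟩
  have hBl : B ≤ b l := hl0'.trans (hl l0 (mem_univ _))
  refine (hg b).trans ?_
  have e1 : ∑ k, (2 : ℝ) ^ b k ≤ M * 2 ^ b l := by
    have h3 : ∑ k, (2 : ℝ) ^ b k ≤ ∑ _k : Fin M, (2 : ℝ) ^ b l :=
      sum_le_sum fun k _ => pow_le_pow_right₀ one_le_two (hl k (mem_univ _))
    rwa [sum_const, card_univ, Fintype.card_fin, nsmul_eq_mul] at h3
  have e2 : (2 : ℝ) ^ b l ≤ ∑ l, (if B ≤ b l then (2 : ℝ) ^ b l else 0) := by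
    refine le_trans (le_of_eq (if_pos hBl).symm)
      (single_le_sum (f := fun l => if B ≤ b l then (2 : ℝ) ^ b l else 0)
        (fun k _ => ?_) (mem_univ l))
    show 0 ≤ if B ≤ b k then (2 : ℝ) ^ b k else 0
    split_ifs
    · positivity
    · exact le_rfl
  calc C * ∑ k, (2 : ℝ) ^ b k ≤ C * (M * 2 ^ b l) := mul_le_mul_of_nonneg_left e1 hC
    _ = C * M * 2 ^ b l := by ring
    _ ≤ _ := mul_le_mul_of_nonneg_left e2 (mul_nonneg hC (Nat.cast_nonneg _))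

/-- the tails of the family -/
theorem tails {M : ℕ} {m : Fin M → ZI} (hps : ∀ k, PS (m k)) {c : ℕ}
    (h1 : c < 16) (h2 : c % 4 = 1) (h5 : ∀ k, c * nrm (m k) % 8 = 5) {g : (Fin M → ℕ) → ℝ} {C : ℝ}
    (hC : 0 ≤ C) (hg : ∀ b, |g b| ≤ C * ∑ k, (2 : ℝ) ^ b k) {ε : ℝ} (hε : 0 < ε) :
    ∃ B : ℕ, ∀ᶠ X : ℕ in atTop, ∑ D ∈ fA (Fm (Fa m c) X) (cb m)
      (Fintype.piFinset fun _ : Fin M => range B), |g (cb m D)| ≤ ε * ((Fm (Fa m c) X).card : ℝ) := by
  obtain ⟨δ, hδ, hlow⟩ := fam_low hps h1 h2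
  obtain ⟨T, hT⟩ : ∃ T : ℝ, T = C * M * ∑ k, (nrm (m k) : ℝ) + 1 := ⟨_, rfl⟩
  have hT1 : 0 ≤ C * M * ∑ k, (nrm (m k) : ℝ) :=
    mul_nonneg (mul_nonneg hC (Nat.cast_nonneg _)) (sum_nonneg fun k _ => Nat.cast_nonneg _)
  have hT0 : 0 < T := by
    rw [hT]
    linarith
  obtain ⟨ε', hε'⟩ : ∃ ε' : ℝ, ε' = ε * δ / T := ⟨_, rfl⟩
  have hε'0 : 0 < ε' := by rw [hε']; positivity
  obtain ⟨B, hB⟩ := tail_av hε'0
  refine ⟨B, ?_⟩
  have hBk : ∀ k : Fin M, ∀ᶠ X : ℕ in atTop,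
      ∑ n ∈ fA (N5 (X * nrm (m k))) (fun n => bb (PD n)) (range B), (2 : ℝ) ^ bb (PD n) ≤
        ε' * ((X * nrm (m k) : ℕ) : ℝ) := by
    intro k
    have hpos : 0 < nrm (m k) := by
      rw [Nat.pos_iff_ne_zero]
      intro h
      have h3 := h5 k
      rw [h, mul_zero] at h3
      omega
    have ht : Tendsto (fun X : ℕ => X * nrm (m k)) atTop atTop :=
      tendsto_id.atTop_mul_const' hpos
    exact ht.eventually hB
  filter_upwards [eventually_all.2 hBk, hlow] with X hX hX2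
  have h7 : ∀ l : Fin M, ∑ D ∈ Fm (Fa m c) X, (if B ≤ cb m D l then (2 : ℝ) ^ cb m D l else 0) ≤
      ε' * X * nrm (m l) := by
    intro l
    refine (tail_tw hps h1 h5 l (hX l)).trans (le_of_eq ?_)
    push_cast
    ring
  have h6 : ∑ D ∈ fA (Fm (Fa m c) X) (cb m) (Fintype.piFinset fun _ : Fin M => range B),
      |g (cb m D)| ≤ ∑ D ∈ Fm (Fa m c) X, C * M *
        ∑ l, (if B ≤ cb m D l then (2 : ℝ) ^ cb m D l else 0) := by
    refine (sum_le_sum fun D hD => pt_le hC hg (mem_fA.1 hD).2).trans ?_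
    refine sum_le_sum_of_subset_of_nonneg (fun D hD => (mem_fA.1 hD).1) fun D _ _ => ?_
    refine mul_nonneg (mul_nonneg hC (Nat.cast_nonneg _)) (sum_nonneg fun l _ => ?_)
    split_ifs
    · positivity
    · exact le_rfl
  refine h6.trans ?_
  rw [← mul_sum, sum_comm]
  have h8 : ∑ l, ∑ D ∈ Fm (Fa m c) X, (if B ≤ cb m D l then (2 : ℝ) ^ cb m D l else 0) ≤
      ε' * X * ∑ l, (nrm (m l) : ℝ) := by
    rw [mul_sum]
    exact sum_le_sum fun l _ => h7 l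
  have hX0 : 0 ≤ ε' * (X : ℝ) := by positivity
  calc C * M * ∑ l, ∑ D ∈ Fm (Fa m c) X, (if B ≤ cb m D l then (2 : ℝ) ^ cb m D l else 0) ≤
        C * M * (ε' * X * ∑ l, (nrm (m l) : ℝ)) :=
        mul_le_mul_of_nonneg_left h8 (mul_nonneg hC (Nat.cast_nonneg _))
    _ = (C * M * ∑ l, (nrm (m l) : ℝ)) * (ε' * X) := by ring
    _ ≤ T * (ε' * X) := mul_le_mul_of_nonneg_right (by rw [hT]; linarith) hX0
    _ = ε * (δ * X) := by
        rw [hε']
        field_simp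
    _ ≤ ε * ((Fm (Fa m c) X).card : ℝ) := mul_le_mul_of_nonneg_left hX2 hε.le

/-- **the law for functions of the growth of the order of the Selmer groups** -/
theorem law_g {M : ℕ} {m : Fin M → ZI} (hm : Function.Injective m) (hps : ∀ k, PS (m k)) {c : ℕ}
    (h1 : c < 16) (h2 : c % 4 = 1) (h5 : ∀ k, c * nrm (m k) % 8 = 5) (g : (Fin M → ℕ) → ℝ)
    {C : ℝ} (hC : 0 ≤ C) (hg : ∀ b, |g b| ≤ C * ∑ k, (2 : ℝ) ^ b k) :
    Summable (fun b => g b * ∏ k, al (b k)) ∧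
    Tendsto (fun X : ℕ => (∑ D ∈ Fm (Fa m c) X, g (cb m D)) / ((Fm (Fa m c) X).card : ℝ)) atTop
      (nhds (∑' b, g b * ∏ k, al (b k))) := by
  obtain ⟨δ, hδ, hlow⟩ := fam_low hps h1 h2
  have hpos : ∀ᶠ X : ℕ in atTop, 0 < ((Fm (Fa m c) X).card : ℝ) := by
    filter_upwards [hlow, eventually_ge_atTop 1] with X hX hX1
    have : (0 : ℝ) < X := by exact_mod_cast hX1
    exact lt_of_lt_of_le (by positivity) hX
  have hlim : ∀ r, Tendsto (fun X : ℕ => ((fb (Fm (Fa m c) X) (cb m) r).card : ℝ) /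
      ((Fm (Fa m c) X).card : ℝ)) atTop (nhds (∏ k, al (r k))) := by
    obtain ⟨a, rfl⟩ := exists_a h1 h2
    exact lawR_joint hm hps a
  have htail : ∀ ε : ℝ, 0 < ε → ∃ A : Finset (Fin M → ℕ), ∀ᶠ X : ℕ in atTop,
      ∑ D ∈ fA (Fm (Fa m c) X) (cb m) A, |g (cb m D)| ≤ ε * ((Fm (Fa m c) X).card : ℝ) := by
    intro ε hε
    obtain ⟨B, hB⟩ := tails hps h1 h2 h5 hC hg hε
    exact ⟨_, hB⟩
  exact lim_law (F := fun X => Fm (Fa m c) X) (b := cb m) (a := fun r => ∏ k, al (r k)) (g := g)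
    (fun r => prod_nonneg fun k _ => al_nonneg _) hlim hpos htail

theorem fam_pos {M : ℕ} {m : Fin M → ZI} (hps : ∀ k, PS (m k)) {c : ℕ} (h1 : c < 16)
    (h2 : c % 4 = 1) : ∀ᶠ X : ℕ in atTop, 0 < ((Fm (Fa m c) X).card : ℝ) := by
  obtain ⟨δ, hδ, hlow⟩ := fam_low hps h1 h2
  filter_upwards [hlow, eventually_ge_atTop 1] with X hX hX1
  have : (0 : ℝ) < X := by exact_mod_cast hX1
  exact lt_of_lt_of_le (by positivity) hX

/-- the law of one corank -/
theorem law_k {M : ℕ} {m : Fin M → ZI} (hps : ∀ k, PS (m k)) (a : ZMod 4) (k : Fin M) (r : ℕ) :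
    Tendsto (fun X : ℕ => ((fb (Fm (Fa m (5 ^ a.val % 16)) X) (fun D => cb m D k) r).card : ℝ) /
      ((Fm (Fa m (5 ^ a.val % 16)) X).card : ℝ)) atTop (nhds (al r)) := by
  have h := jointD lj (fun t => t = a) ⟨a, rfl⟩ (Vm m) (fun u hu => by
    obtain ⟨k, -, hk⟩ := mem_biUnion.1 hu
    exact pp_PD (hps k) u hk) 1 (fun _ => PD (m k))
    (fun i j _ => Subsingleton.elim i j) (fun _ u hu => pp_PD (hps k) u hu) (fun _ => r)
  rw [prod_const, card_univ, Fintype.card_fin, pow_one] at h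
  refine h.congr fun X => ?_
  have e1 : Fm (fun D => Kc (fun t => t = a) (Vm m) (PD D)) X = Fm (Fa m (5 ^ a.val % 16)) X := by
    ext D
    rw [mem_Fm, mem_Fm]
    exact and_congr_right fun h2 => Kc_iff hps h2.2 a
  have e2 : Fm (fun D => Kc (fun t => t = a) (Vm m) (PD D) ∧
      JT (fun _ : Fin 1 => PD (m k)) (fun _ => r) (PD D)) X =
      fb (Fm (Fa m (5 ^ a.val % 16)) X) (fun D => cb m D k) r := by
    ext D
    rw [mem_fb, mem_Fm, mem_Fm, and_assoc (a := nrm D ≤ X ∧ PS D)]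
    refine and_congr_right fun h2 => ?_
    rw [Kc_iff hps h2.2 a]
    refine and_congr_right fun h3 => ?_
    have h4 := symm_PD h2.2 (hps k) (h3.2 k)
    constructor
    · intro h5
      have h6 : bb (symmDiff (PD D) (PD (m k))) = r := h5 0
      rw [h4] at h6
      exact h6
    · intro h5 j
      show bb (symmDiff (PD D) (PD (m k))) = r
      rw [h4]
      exact h5
  rw [e1, e2]

/-- the law for functions of one corank -/
theorem law_1 {M : ℕ} {m : Fin M → ZI} (hps : ∀ k, PS (m k)) {c : ℕ}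
    (h1 : c < 16) (h2 : c % 4 = 1) (h5 : ∀ k, c * nrm (m k) % 8 = 5) (k : Fin M) (g : ℕ → ℝ)
    {C : ℝ} (hC : 0 ≤ C) (hg : ∀ b, |g b| ≤ C * (2 : ℝ) ^ b) :
    Summable (fun b => g b * al b) ∧
    Tendsto (fun X : ℕ => (∑ D ∈ Fm (Fa m c) X, g (cb m D k)) / ((Fm (Fa m c) X).card : ℝ)) atTop
      (nhds (∑' b, g b * al b)) := by
  have hlim : ∀ r, Tendsto (fun X : ℕ => ((fb (Fm (Fa m c) X) (fun D => cb m D k) r).card : ℝ) /
      ((Fm (Fa m c) X).card : ℝ)) atTop (nhds (al r)) := by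
    obtain ⟨a, rfl⟩ := exists_a h1 h2
    exact law_k hps a k
  have hg' : ∀ b : Fin M → ℕ, |(fun b : Fin M → ℕ => g (b k)) b| ≤ C * ∑ k, (2 : ℝ) ^ b k := fun b =>
    (hg (b k)).trans (mul_le_mul_of_nonneg_left
      (single_le_sum (f := fun k => (2 : ℝ) ^ b k) (fun j _ => by positivity) (mem_univ k)) hC)
  have htail : ∀ ε : ℝ, 0 < ε → ∃ A : Finset ℕ, ∀ᶠ X : ℕ in atTop,
      ∑ D ∈ fA (Fm (Fa m c) X) (fun D => cb m D k) A, |g (cb m D k)| ≤
        ε * ((Fm (Fa m c) X).card : ℝ) := by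
    intro ε hε
    obtain ⟨B, hB⟩ := tails hps h1 h2 h5 hC hg' hε
    refine ⟨range B, hB.mono fun X hX => ?_⟩
    refine le_trans (sum_le_sum_of_subset_of_nonneg ?_ fun D _ _ => abs_nonneg _) hX
    intro D hD
    rw [mem_fA] at hD ⊢
    exact ⟨hD.1, fun h => hD.2 (Fintype.mem_piFinset.1 h k)⟩
  exact lim_law (F := fun X => Fm (Fa m c) X) (b := fun D => cb m D k) (a := al) (g := g)
    al_nonneg hlim (fam_pos hps h1 h2) htail

/-- the law of the boxes -/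
theorem law_box {M : ℕ} {m : Fin M → ZI} (hm : Function.Injective m) (hps : ∀ k, PS (m k)) {c : ℕ}
    (h1 : c < 16) (h2 : c % 4 = 1) (t : ℕ) :
    Tendsto (fun X : ℕ => ((fI (Fm (Fa m c) X) (cb m)
      (Fintype.piFinset fun _ : Fin M => range (t + 1))).card : ℝ) / ((Fm (Fa m c) X).card : ℝ)) atTop
      (nhds ((∑ b ∈ range (t + 1), al b) ^ M)) := by
  have hlim : ∀ r, Tendsto (fun X : ℕ => ((fb (Fm (Fa m c) X) (cb m) r).card : ℝ) /
      ((Fm (Fa m c) X).card : ℝ)) atTop (nhds (∏ k, al (r k))) := by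
    obtain ⟨a, rfl⟩ := exists_a h1 h2
    exact lawR_joint hm hps a
  have e1 : (∑ b ∈ range (t + 1), al b) ^ M =
      ∑ r ∈ Fintype.piFinset fun _ : Fin M => range (t + 1), ∏ k, al (r k) := by
    rw [← Finset.prod_univ_sum (fun _ : Fin M => range (t + 1)) fun _ b => al b, prod_const,
      card_univ, Fintype.card_fin]
  rw [e1]
  refine (tendsto_finsetSum _ fun r _ => hlim r).congr fun X => ?_
  rw [← sum_div]
  congr 1
  have h3 := sum_fib (Fm (Fa m c) X) (cb m) (Fintype.piFinset fun _ : Fin M => range (t + 1))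
    fun _ => (1 : ℝ)
  simp only [one_mul, sum_const, nsmul_eq_mul, mul_one] at h3
  exact h3

end Q155.GN
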