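import Mathlib

/-!
# Project GN: limits of means from the limit law and small tails
-/

set_option autoImplicit false
set_option linter.unusedVariables false

open scoped Classical

namespace Q155.GN

open Finset Filter

section
variable {Ω β : Type}

/-- the elements with the value `r` -/
noncomputable def fb (F : Finset Ω) (b : Ω → β) (r : β) : Finset Ω := F.filter fun ω => b ω = r

/-- the elements with a value in `A` -/
noncomputable def fI (F : Finset Ω) (b : Ω → β) (A : Finset β) : Finset Ω :=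
  F.filter fun ω => b ω ∈ A

/-- the elements with a value not in `A` -/
noncomputable def fA (F : Finset Ω) (b : Ω → β) (A : Finset β) : Finset Ω :=
  F.filter fun ω => ¬ b ω ∈ A

theorem mem_fb {F : Finset Ω} {b : Ω → β} {r : β} {ω : Ω} : ω ∈ fb F b r ↔ ω ∈ F ∧ b ω = r :=
  mem_filter

theorem mem_fI {F : Finset Ω} {b : Ω → β} {A : Finset β} {ω : Ω} :
    ω ∈ fI F b A ↔ ω ∈ F ∧ b ω ∈ A := mem_filter

theorem mem_fA {F : Finset Ω} {b : Ω → β} {A : Finset β} {ω : Ω} :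
    ω ∈ fA F b A ↔ ω ∈ F ∧ b ω ∉ A := mem_filter

theorem sum_IA (F : Finset Ω) (b : Ω → β) (A : Finset β) (f : Ω → ℝ) :
    ∑ ω ∈ fI F b A, f ω + ∑ ω ∈ fA F b A, f ω = ∑ ω ∈ F, f ω :=
  sum_filter_add_sum_filter_not F _ f

/-- the part of the sum with the values in a finite set -/
theorem sum_fib (F : Finset Ω) (b : Ω → β) (s : Finset β) (f : β → ℝ) :
    ∑ r ∈ s, f r * ((fb F b r).card : ℝ) = ∑ ω ∈ fI F b s, f (b ω) := by
  unfold fI
  rw [← Finset.sum_fiberwise_of_maps_to (s := F.filter fun ω => b ω ∈ s) (t := s) (g := b)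
    (fun ω hω => (mem_filter.1 hω).2)]
  refine sum_congr rfl fun r hr => ?_
  have h1 : (F.filter fun ω => b ω ∈ s).filter (fun ω => b ω = r) = fb F b r := by
    ext ω
    rw [mem_fb]
    simp only [mem_filter]
    constructor
    · rintro ⟨⟨h1, h2⟩, h3⟩
      exact ⟨h1, h3⟩
    · rintro ⟨h1, h2⟩
      exact ⟨⟨h1, h2 ▸ hr⟩, h2⟩
  rw [h1, sum_congr rfl fun ω hω => congrArg f (mem_fb.1 hω).2, sum_const, nsmul_eq_mul, mul_comm]

variable {F : ℕ → Finset Ω} {b : Ω → β} {a : β → ℝ}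

theorem part_le (ha : ∀ r, 0 ≤ a r)
    (h1 : ∀ r, Tendsto (fun X : ℕ => ((fb (F X) b r).card : ℝ) / ((F X).card : ℝ)) atTop
      (nhds (a r)))
    (h0 : ∀ᶠ X : ℕ in atTop, 0 < ((F X).card : ℝ)) {g : β → ℝ} {ε : ℝ} {A : Finset β}
    (hA : ∀ᶠ X : ℕ in atTop, ∑ ω ∈ fA (F X) b A, |g (b ω)| ≤
      ε * ((F X).card : ℝ)) {s : Finset β} (hs : Disjoint s A) :
    ∑ r ∈ s, |g r| * a r ≤ ε := by
  have h2 : Tendsto (fun X : ℕ => ∑ r ∈ s, |g r| * (((fb (F X) b r).card : ℝ) /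
      ((F X).card : ℝ))) atTop (nhds (∑ r ∈ s, |g r| * a r)) :=
    tendsto_finsetSum _ fun r _ => (h1 r).const_mul _
  refine le_of_tendsto h2 ?_
  filter_upwards [h0, hA] with X hX hX2
  have h3 : ∑ r ∈ s, |g r| * (((fb (F X) b r).card : ℝ) / ((F X).card : ℝ)) =
      (∑ ω ∈ fI (F X) b s, |g (b ω)|) / ((F X).card : ℝ) := by
    rw [← sum_fib (F X) b s fun r => |g r|, sum_div]
    exact sum_congr rfl fun r _ => by rw [mul_div_assoc]
  rw [h3, div_le_iff₀ hX]
  refine le_trans (sum_le_sum_of_subset_of_nonneg ?_ fun ω _ _ => abs_nonneg _) hX2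
  intro ω hω
  rw [mem_fI] at hω
  rw [mem_fA]
  exact ⟨hω.1, fun h => disjoint_left.1 hs hω.2 h⟩

/-- **from the law and small tails to the limits of means** -/
theorem lim_law (ha : ∀ r, 0 ≤ a r)
    (h1 : ∀ r, Tendsto (fun X : ℕ => ((fb (F X) b r).card : ℝ) / ((F X).card : ℝ)) atTop
      (nhds (a r)))
    (h0 : ∀ᶠ X : ℕ in atTop, 0 < ((F X).card : ℝ)) {g : β → ℝ}
    (h2 : ∀ ε : ℝ, 0 < ε → ∃ A : Finset β, ∀ᶠ X : ℕ in atTop,
      ∑ ω ∈ fA (F X) b A, |g (b ω)| ≤ ε * ((F X).card : ℝ)) :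
    Summable (fun r => g r * a r) ∧
    Tendsto (fun X : ℕ => (∑ ω ∈ F X, g (b ω)) / ((F X).card : ℝ)) atTop
      (nhds (∑' r, g r * a r)) := by
  have habs : ∀ r, |g r * a r| = |g r| * a r := fun r => by rw [abs_mul, abs_of_nonneg (ha r)]
  have hsum : Summable (fun r => g r * a r) := by
    obtain ⟨A, hA⟩ := h2 1 one_pos
    refine Summable.of_abs ?_
    refine summable_of_sum_le (c := ∑ r ∈ A, |g r| * a r + 1) (fun r => abs_nonneg _) fun u => ?_
    simp_rw [habs]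
    rw [← sum_filter_add_sum_filter_not u (fun r => r ∈ A)]
    refine add_le_add ?_ ?_
    · refine sum_le_sum_of_subset_of_nonneg (fun r hr => (mem_filter.1 hr).2)
        fun r _ _ => mul_nonneg (abs_nonneg _) (ha r)
    · exact part_le ha h1 h0 hA (disjoint_left.2 fun r hr => (mem_filter.1 hr).2)
  refine ⟨hsum, ?_⟩
  rw [Metric.tendsto_nhds]
  intro ε hε
  obtain ⟨A, hA⟩ := h2 (ε / 4) (by positivity)
  have e1 : |∑' r, g r * a r - ∑ r ∈ A, g r * a r| ≤ ε / 4 := by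
    have h3 : Tendsto (fun u : Finset β => |∑ r ∈ u, g r * a r - ∑ r ∈ A, g r * a r|) atTop
        (nhds |∑' r, g r * a r - ∑ r ∈ A, g r * a r|) :=
      (hsum.hasSum.sub_const _).abs
    refine le_of_tendsto h3 ?_
    filter_upwards [eventually_ge_atTop A] with u hu
    have h4 : ∑ r ∈ u, g r * a r - ∑ r ∈ A, g r * a r = ∑ r ∈ u \ A, g r * a r := by
      rw [← sum_sdiff hu]
      ring
    rw [h4]
    refine (abs_sum_le_sum_abs _ _).trans ?_
    simp_rw [habs]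
    exact part_le ha h1 h0 hA (disjoint_left.2 fun r hr => (mem_sdiff.1 hr).2)
  have e2 : ∀ᶠ X : ℕ in atTop, |∑ r ∈ A, g r * (((fb (F X) b r).card : ℝ) /
      ((F X).card : ℝ)) - ∑ r ∈ A, g r * a r| < ε / 4 := by
    have h3 : Tendsto (fun X : ℕ => ∑ r ∈ A, g r * (((fb (F X) b r).card : ℝ) /
      ((F X).card : ℝ))) atTop (nhds (∑ r ∈ A, g r * a r)) :=
      tendsto_finsetSum _ fun r _ => (h1 r).const_mul _
    have h4 := (Metric.tendsto_nhds.1 h3) (ε / 4) (by positivity)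
    exact h4.mono fun X hX => by rwa [Real.dist_eq] at hX
  filter_upwards [h0, hA, e2] with X hX hX2 hX3
  rw [Real.dist_eq]
  have h5 : (∑ ω ∈ F X, g (b ω)) / ((F X).card : ℝ) =
      ∑ r ∈ A, g r * (((fb (F X) b r).card : ℝ) / ((F X).card : ℝ)) +
      (∑ ω ∈ fA (F X) b A, g (b ω)) / ((F X).card : ℝ) := by
    have h6 : ∑ r ∈ A, g r * (((fb (F X) b r).card : ℝ) / ((F X).card : ℝ)) =
        (∑ ω ∈ fI (F X) b A, g (b ω)) / ((F X).card : ℝ) := by
      rw [← sum_fib (F X) b A g, sum_div]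
      exact sum_congr rfl fun r _ => by rw [mul_div_assoc]
    rw [h6, ← add_div, sum_IA]
  have h6 : |(∑ ω ∈ fA (F X) b A, g (b ω)) / ((F X).card : ℝ)| ≤ ε / 4 := by
    rw [abs_div, abs_of_pos hX, div_le_iff₀ hX]
    exact (abs_sum_le_sum_abs _ _).trans hX2
  rw [h5]
  have h7 := abs_le.1 e1
  have h8 := abs_lt.1 hX3
  have h9 := abs_le.1 h6
  rw [abs_lt]
  constructor <;> linarith [h7.1, h7.2, h8.1, h8.2, h9.1, h9.2]

end

end Q155.GN
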