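import Pool.Agent.Q155.GN.Ari
import Pool.Agent.Q177.GN.Cnv
import Pool.Agent.Q95.GN.Sel

/-!
# Project GN: the Selmer groups of the multiplication by `1 + i`
-/

set_option autoImplicit false
set_option linter.unusedVariables false
set_option linter.unusedSectionVars false

open scoped Classical

namespace Q155.GN

open Finset NumberField IsDedekindDomain
open H385 (ZI nrm im1)
open Pool.Agent.Y699 (PP PS qr)
open Pool.Agent.Y682 (IsT MP S1 S2)
open Pool.Agent.Y715.Z (em0 em0_ne em0_inj im1_sq)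
open Pool.Agent.Q177.GN (dd U1 U0 ph)

/-- the image of the points of `y² = x³ + B x` over `L` in the group of the classes modulo squares: `1` for the
point at infinity, `B` for `(0, 0)`, `x` for the other points -/
def Im (L : Type) [Field L] (B b : L) : Prop :=
  ∃ z : L, z ≠ 0 ∧ (b = z ^ 2 ∨ b = B * z ^ 2 ∨
    ∃ x y : L, x ≠ 0 ∧ y ^ 2 = x ^ 3 + B * x ∧ b = x * z ^ 2)

section field
variable {L : Type} [Field L]

theorem Im.sq {B b c : L} (h : Im L B b) (hc : c ≠ 0) : Im L B (b * c ^ 2) := by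
  obtain ⟨z, hz, h | h | ⟨x, y, hx, h1, h⟩⟩ := h
  · exact ⟨z * c, mul_ne_zero hz hc, Or.inl (by rw [h]; ring)⟩
  · exact ⟨z * c, mul_ne_zero hz hc, Or.inr (Or.inl (by rw [h]; ring))⟩
  · exact ⟨z * c, mul_ne_zero hz hc, Or.inr (Or.inr ⟨x, y, hx, h1, by rw [h]; ring⟩)⟩

/-- the relation to the conditions of the library -/
theorem Im.s1 {B b : L} (h : Im L B b) :
    ∃ y m : L, y ≠ 0 ∧ b * y ^ 2 = m ∧ S1 0 B m := by
  obtain ⟨z, hz, h | h | ⟨x, y, hx, h1, h⟩⟩ := h
  · refine ⟨z⁻¹, 1, inv_ne_zero hz, ?_, Or.inl rfl⟩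
    rw [h, ← mul_pow, mul_inv_cancel₀ hz, one_pow]
  · refine ⟨z⁻¹, B, inv_ne_zero hz, ?_, Or.inr (Or.inl rfl)⟩
    rw [h, mul_assoc, ← mul_pow, mul_inv_cancel₀ hz, one_pow, mul_one]
  · refine ⟨z⁻¹, x, inv_ne_zero hz, ?_, Or.inr (Or.inr ⟨hx, y, ?_⟩)⟩
    · rw [h, mul_assoc, ← mul_pow, mul_inv_cancel₀ hz, one_pow, mul_one]
    · rw [h1]
      ring

/-- from the isogenous curve -/
theorem im_of_lc {B d i : L} (h2 : (2 : L) ≠ 0) (hi : i ^ 2 = -1) (h : LC L 0 B d) : Im L B d := by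
  obtain ⟨X, Y, r, hX, hY, hr⟩ := h
  have hr0 : r ≠ 0 := by
    rintro rfl
    rw [zero_pow two_ne_zero, mul_zero] at hr
    exact hX hr
  have hj : (1 + i) ^ 2 = 2 * i := by linear_combination hi
  have hj4 : (1 + i) ^ 4 = -4 := by linear_combination (1 + i) ^ 2 * hj + 2 * i * hj + 4 * hi
  have hj0 : 1 + i ≠ 0 := by
    intro h0
    rw [h0, zero_pow (by norm_num)] at hj4
    have h4 : (2 : L) * 2 = 0 := by linear_combination hj4
    exact mul_ne_zero h2 h2 h4
  refine ⟨(1 + i) / r, div_ne_zero hj0 hr0, Or.inr (Or.inr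
    ⟨X / (1 + i) ^ 2, Y / (1 + i) ^ 3, div_ne_zero hX (pow_ne_zero 2 hj0), ?_, ?_⟩)⟩
  · rw [div_pow, hY]
    field_simp
    linear_combination (-B) * hj4
  · rw [hr]
    field_simp

/-- the class of `(0, 0)` on the first curve -/
theorem im_mulC {B b : L} (hB : B ≠ 0) (h : Im L B b) : Im L B (B * b) := by
  obtain ⟨z, hz, h | h | ⟨x, y, hx, h1, h⟩⟩ := h
  · exact ⟨z, hz, Or.inr (Or.inl (by rw [h]))⟩
  · exact ⟨B * z, mul_ne_zero hB hz, Or.inl (by rw [h]; ring)⟩
  · refine ⟨x * z, mul_ne_zero hx hz, Or.inr (Or.inr ⟨B / x, B * y / x ^ 2, div_ne_zero hB hx,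
      ?_, ?_⟩)⟩
    · rw [div_pow, mul_pow, h1]
      field_simp
      ring
    · rw [h]
      field_simp

/-- the class of `(D, 0)` on the second curve -/
theorem im_mulE {D b i : L} (hD : D ≠ 0) (h2 : (2 : L) ≠ 0) (hi : i ^ 2 = -1)
    (h : Im L (-D ^ 2) b) : Im L (-D ^ 2) (D * b) := by
  have hi0 : i ≠ 0 := by
    rintro rfl
    rw [zero_pow two_ne_zero] at hi
    exact one_ne_zero (neg_eq_zero.1 hi.symm)
  obtain ⟨z, hz, h | h | ⟨x, y, hx, h1, h⟩⟩ := h
  · exact ⟨z, hz, Or.inr (Or.inr ⟨D, 0, hD, by ring, by rw [h]⟩)⟩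
  · refine ⟨i * D * z, mul_ne_zero (mul_ne_zero hi0 hD) hz, Or.inr (Or.inr ⟨D, 0, hD, by ring, ?_⟩)⟩
    rw [h]
    linear_combination (-D ^ 3 * z ^ 2) * hi
  · by_cases hxD : x = D
    · exact ⟨D * z, mul_ne_zero hD hz, Or.inl (by rw [h, hxD]; ring)⟩
    by_cases hxD' : x = -D
    · exact ⟨z, hz, Or.inr (Or.inl (by rw [h, hxD']; ring))⟩
    have e1 : x - D ≠ 0 := sub_ne_zero.2 hxD
    have e2 : x + D ≠ 0 := fun h0 => hxD' (eq_neg_of_add_eq_zero_left h0)
    have e3 : y ≠ 0 := by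
      rintro rfl
      have h3 : x * ((x - D) * (x + D)) = 0 := by linear_combination -h1
      exact mul_ne_zero hx (mul_ne_zero e1 e2) h3
    refine ⟨y * z / (x + D), div_ne_zero (mul_ne_zero e3 hz) e2, Or.inr (Or.inr
      ⟨D * (x + D) / (x - D), 2 * D ^ 2 * y / (x - D) ^ 2, div_ne_zero (mul_ne_zero hD e2) e1,
        ?_, ?_⟩)⟩
    · rw [div_pow, mul_pow, h1]
      field_simp
      ring
    · rw [h]
      field_simp
      linear_combination (-1 : L) * h1

end field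

/-- the classes modulo squares -/
abbrev SqC (K : Type) [Field K] : Type := Kˣ ⧸ (powMonoidHom 2 : Kˣ →* Kˣ).range

/-- the Selmer group of the multiplication by `1 + i` on `y² = x³ + B x` over `K ∋ i` -/
def SelB (K : Type) [Field K] [NumberField K] (B : K) : Set (SqC K) :=
  {q | ∃ b : Kˣ, (b : SqC K) = q ∧ ∀ v : HeightOneSpectrum (𝓞 K),
    Im (v.adicCompletion K) (algebraMap K (v.adicCompletion K) B)
      (algebraMap K (v.adicCompletion K) (b : K))}

section
variable {K : Type} [Field K] [NumberField K] (e : ZI ≃+* 𝓞 K)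

theorem sqc_eq {a b : Kˣ} : (a : SqC K) = (b : SqC K) ↔ ∃ c : Kˣ, (b : K) = a * c ^ 2 := by
  rw [QuotientGroup.eq]
  constructor
  · rintro ⟨c, hc⟩
    refine ⟨c, ?_⟩
    have h : a * c ^ 2 = b := by
      have h1 : c ^ 2 = a⁻¹ * b := hc
      rw [h1, mul_inv_cancel_left]
    rw [← h, Units.val_mul, Units.val_pow_eq_pow_val]
  · rintro ⟨c, hc⟩
    refine ⟨c, ?_⟩
    show c ^ 2 = a⁻¹ * b
    have h : b = a * c ^ 2 := Units.ext (by rw [hc, Units.val_mul, Units.val_pow_eq_pow_val])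
    rw [h, inv_mul_cancel_left]

/-- the local conditions for the elements of the kernel -/
theorem loc_all (g : Ing3) (hP : SymP) {S : Finset ZI} (hS : ∀ π ∈ S, PP π) (hO : Od S) {B : K}
    (hB : B = em0 e (dd S) ∨ B = -(em0 e (dd S)) ^ 2) (x : Kl S) (v : HeightOneSpectrum (𝓞 K)) :
    Im (v.adicCompletion K) (algebraMap K (v.adicCompletion K) B)
      (algebraMap K (v.adicCompletion K) (em0 e (dd (U1 S x.1)))) := by
  have := Pool.Agent.Y682.charZero_adic v
  have h2 : (2 : v.adicCompletion K) ≠ 0 := two_ne_zero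
  have hi : (algebraMap K (v.adicCompletion K) (em0 e im1)) ^ 2 = -1 := by
    rw [← map_pow, im1_sq, map_neg, map_one]
  have hev : ∀ y : Kl S, ph S y = 0 → Im (v.adicCompletion K) (algebraMap K (v.adicCompletion K) B)
      (algebraMap K (v.adicCompletion K) (em0 e (dd (U1 S y.1)))) := by
    intro y hy
    obtain ⟨k1, k2⟩ := Pool.Agent.Q177.GN.loc e hP g.lgd g.ltw g.lbd hS hy v
    rcases hB with rfl | rfl
    · exact im_of_lc h2 hi k1
    · exact im_of_lc h2 hi k2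
  rcases Pool.Agent.Q177.GN.z2 (ph S x) with h | h
  · exact hev x h
  · -- the complement
    have h1 : ph S (x + Pool.Agent.Q177.GN.oneS S) = 0 := by
      rw [map_add, h, Pool.Agent.Q177.GN.ph_one hO]
      decide
    have h3 := hev _ h1
    have e1 : U1 S (x + Pool.Agent.Q177.GN.oneS S).1 = U0 S x.1 := by
      unfold U1 U0
      refine filter_congr fun π hπ => ?_
      have h4 : (x + Pool.Agent.Q177.GN.oneS S).1 π = x.1 π + (if π ∈ S then (1 : ZMod 2) else 0) := rfl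
      rw [h4, if_pos hπ]
      rcases Pool.Agent.Q177.GN.z2 (x.1 π) with h5 | h5 <;> rw [h5] <;> decide
    rw [e1] at h3
    have hU0 : ∀ π ∈ U0 S x.1, PP π := fun π hπ => hS π (mem_filter.1 hπ).1
    obtain ⟨d, hd⟩ : ∃ d, d = em0 e (dd (U1 S x.1)) := ⟨_, rfl⟩
    obtain ⟨d', hd'⟩ : ∃ d', d' = em0 e (dd (U0 S x.1)) := ⟨_, rfl⟩
    have hdd : em0 e (dd S) = d * d' := by
      rw [hd, hd', ← map_mul, Pool.Agent.Q177.GN.dd_mul]
    have hd0 : d' ≠ 0 := by
      rw [hd']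
      exact em0_ne e (Pool.Agent.Q177.GN.dd_ne hU0)
    have hS0 : em0 e (dd S) ≠ (0 : K) := em0_ne e (Pool.Agent.Q177.GN.dd_ne hS)
    rw [← hd'] at h3
    rw [← hd]
    have ha : algebraMap K (v.adicCompletion K) d' ≠ 0 := (map_ne_zero _).2 hd0
    have h4 : Im (v.adicCompletion K) (algebraMap K (v.adicCompletion K) B)
        (algebraMap K (v.adicCompletion K) (em0 e (dd S)) *
          algebraMap K (v.adicCompletion K) d') := by
      rcases hB with rfl | rfl
      · exact im_mulC ((map_ne_zero _).2 hS0) h3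
      · rw [map_neg, map_pow] at h3 ⊢
        exact im_mulE ((map_ne_zero _).2 hS0) h2 hi h3
    have h5 := h4.sq (inv_ne_zero ha)
    have h6 : algebraMap K (v.adicCompletion K) (em0 e (dd S)) *
        algebraMap K (v.adicCompletion K) d' * ((algebraMap K (v.adicCompletion K) d')⁻¹) ^ 2 =
        algebraMap K (v.adicCompletion K) d := by
      rw [hdd, map_mul]
      field_simp
    rwa [h6] at h5

/-- **the order of the Selmer group** -/
theorem card_SelB (g : Ing3) (hP : SymP) {S : Finset ZI} (hS : ∀ π ∈ S, PP π) (hO : Od S) {B : K}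
    (hB : B = em0 e (dd S) ∨ B = -(em0 e (dd S)) ^ 2) :
    Nat.card (SelB K B) = 2 ^ (bb S + 1) := by
  have hne : S.Nonempty := by
    rw [Finset.nonempty_iff_ne_empty]
    rintro rfl
    unfold Od at hO
    rw [sum_empty] at hO
    revert hO
    decide
  rw [← Pool.Agent.Q95.GN.card_Kl hne]
  have hU : ∀ x : Kl S, em0 e (dd (U1 S x.1)) ≠ (0 : K) := fun x =>
    em0_ne e (Pool.Agent.Q177.GN.dd_ne fun π hπ => hS π (mem_filter.1 hπ).1)
  let F : Kl S → SelB K B := fun x => ⟨((Units.mk0 _ (hU x) : Kˣ) : SqC K), Units.mk0 _ (hU x), rfl,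
    fun v => loc_all e g hP hS hO hB x v⟩
  refine (Nat.card_congr (Equiv.ofBijective F ⟨?_, ?_⟩)).symm
  · intro x y hxy
    obtain ⟨c, hc⟩ := sqc_eq.1 (congrArg Subtype.val hxy)
    rw [Units.val_mk0, Units.val_mk0] at hc
    by_contra hne'
    obtain ⟨w, hw0, hw⟩ := Pool.Agent.Q177.GN.prod_two hS x.1 y.1
    have hT : ∀ π ∈ S.filter (fun π => ¬ x.1 π = y.1 π), PP π := fun π hπ => hS π (mem_filter.1 hπ).1
    have hTne : (S.filter fun π => ¬ x.1 π = y.1 π).Nonempty := by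
      rw [Finset.nonempty_iff_ne_empty]
      intro h0
      apply hne'
      apply Subtype.ext
      funext π
      by_cases hπ : π ∈ S
      · by_contra h1
        have h2 : π ∈ S.filter fun π => ¬ x.1 π = y.1 π := mem_filter.2 ⟨hπ, h1⟩
        rw [h0] at h2
        exact absurd h2 (notMem_empty π)
      · rw [x.2.1 π hπ, y.2.1 π hπ]
    apply Pool.Agent.Q177.GN.not_isSq e hT hTne hw0
    rw [← hw]
    refine ⟨em0 e (dd (U1 S x.1)) * c, ?_⟩
    rw [map_mul, hc]
    ring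
  · rintro ⟨q, b, rfl, hb⟩
    obtain ⟨x, hx, c, hc⟩ := Pool.Agent.Q95.GN.selG e hS hO hB b.ne_zero fun v => (hb v).s1
    have hc0 : c ≠ 0 := by
      rintro rfl
      rw [zero_pow two_ne_zero, mul_zero] at hc
      exact b.ne_zero hc
    refine ⟨⟨x, hx⟩, Subtype.ext ?_⟩
    refine sqc_eq.2 ⟨Units.mk0 c hc0, ?_⟩
    rw [Units.val_mk0, Units.val_mk0, hc]
    rfl

end

end Q155.GN
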