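import Pool.Agent.Y699.Box
import Pool.Agent.Y699.Cheb
import Pool.Agent.Y699.Hal2
import Pool.Agent.Y699.Qa
import Pool.Agent.Y703.CX.Stm

/-!
# Project GN: natural-order laws for the quadratic symbols of the prime divisors of Gaussian integers

`S` runs over the finite sets of primary primes of `ℤ[i]` (the squarefree primary Gaussian integers), ordered
by the norm of the product. This is the port of the seed project XK (Eisenstein integers, symbols with three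
values; `Pool/Agent/Y703/XK/Stm.lean`, proofs in `Y710/XK/EQ`, `Y688/XK/BOX`, `Y474/XK/CNT`, `Y433/XK/Gen`,
`Y433/XK/Few`, `Y696/XL/Key`, `Y703/XK/Asy`, `Y363/XK/Bil`) to the Gaussian integers and two values, for a general
property `T` of the sets (as in project NL, `Pool/Agent/Q155/NL/Stm.lean`, proofs in `Q110/NL/Box`,
`Q34/NL/Key`, `Q210/NL/Bad`, `Q34/NL/Asy`). The number theory is in the library `Pool/Agent/Y699` of helper699
(`QB V`: primary primes of norm at most `V`; `SB V`: squarefree primary elements of norm at most `V`; `PB V`: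
primary elements; `PD n`: the primary primes dividing `n`; `qr`: the symbol; `jac`: its extension; `box`:
bilinear sums; `hall1`, `hall2`, `conv_le`, `conv_sum`, `chs_log`: mean values), which has the same structure as
`Pool/Agent/Y699/E` used by project XK. Statements of the parts.
-/

set_option autoImplicit false
set_option linter.unusedVariables false

open scoped Classical

namespace Q155.GN

open Finset Filter
open H385 (ZI nrm)
open Pool.Agent.Y699 (PP PS qr QB SB PB PD jac lg mf)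
open Pool.Agent.Y703.CX (jj XX eL zz kk)

/-- the quadratic symbol of two primary primes, additively -/
noncomputable def s (π ρ : ZI) : ZMod 2 := if qr π ρ = -1 then 1 else 0

/-- the class of the norm modulo `16`: `N(π) = 5 ^ (fc π)` modulo `16` for a primary `π` -/
noncomputable def fc (π : ZI) : ZMod 4 :=
  if nrm π % 16 = 5 then 1 else if nrm π % 16 = 9 then 2 else if nrm π % 16 = 13 then 3 else 0

/-- the sign -/
noncomputable def sg (a : ZMod 2) : ℝ := if a = 0 then 1 else -1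

/-- the sets of primary primes with product of norm at most `X` -/
noncomputable def SS (X : ℕ) : Finset (Finset ZI) :=
  (QB X).powerset.filter fun S => ∏ π ∈ S, nrm π ≤ X

/-- the small primes of a set -/
noncomputable def sm (z : ℕ) (S : Finset ZI) : Finset ZI := S.filter fun π => nrm π ≤ z

/-- the large primes of a set -/
noncomputable def la (z : ℕ) (S : Finset ZI) : Finset ZI := S.filter fun π => ¬ nrm π ≤ z

/-- the number of the block of a prime -/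
noncomputable def bl (H : ℕ) (π : ZI) : ℕ := jj H (nrm π)

/-- the sets which are counted in boxes -/
noncomputable def RR (X z H k : ℕ) : Finset (Finset ZI) :=
  (SS X).filter fun S => Set.InjOn (bl H) (la z S : Set ZI) ∧ S.card ≤ k ∧
    (∏ π ∈ sm z S, nrm π) * ∏ π ∈ la z S, XX H (bl H π) ≤ X

/-- JOB GN-SYM: the symbol is symmetric, and `s π ρ = 1` if and only if `qr π ρ = -1`; the norm of a primary
prime is `5 ^ fc` modulo `16` (`Pool.Agent.Y699.qr_rec`, `PP.norm_mod`); the products. -/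
structure SymP : Prop where
  symm : ∀ π ρ : ZI, PP π → PP ρ → s π ρ = s ρ π
  self : ∀ π : ZI, PP π → s π π = 0
  one : ∀ π ρ : ZI, s π ρ = 1 ↔ qr π ρ = -1
  zero : ∀ π ρ : ZI, PP π → PP ρ → π ≠ ρ → (s π ρ = 0 ↔ qr π ρ = 1)
  prod : ∀ (π : ZI) (U : Finset ZI), PP π → (∀ u ∈ U, PP u) → π ∉ U →
    (∑ u ∈ U, s π u = 0 ↔ qr π (∏ u ∈ U, u) = 1)
  nrm_fc : ∀ S : Finset ZI, (∀ π ∈ S, PP π) →
    (∏ π ∈ S, nrm π) % 16 = (5 ^ (∑ π ∈ S, fc π).val) % 16
  five : ∀ S : Finset ZI, (∀ π ∈ S, PP π) →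
    ((∏ π ∈ S, π).norm % 8 = 5 ↔ (∑ π ∈ S, fc π = 1 ∨ ∑ π ∈ S, fc π = 3))
  thirteen : ∀ S : Finset ZI, (∀ π ∈ S, PP π) →
    ((∏ π ∈ S, π).norm % 16 = 13 ↔ ∑ π ∈ S, fc π = 3)

/-- JOB GN-BIL (after `Y363/XK/Bil.lean`, from `Pool.Agent.Y699.box`): bilinear sums. -/
def S_BIL : Prop := ∃ C : ℝ, 1 ≤ C ∧ ∀ (P Q : Finset ZI) (A B z : ℕ) (c d : ZI → ℝ),
  (∀ π ∈ P, PP π ∧ nrm π ≤ A) → (∀ ρ ∈ Q, PP ρ ∧ nrm ρ ≤ B) → Disjoint P Q →
  1 ≤ z → z ≤ A → z ≤ B → (∀ π, |c π| ≤ 1) → (∀ ρ, |d ρ| ≤ 1) →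
  |∑ π ∈ P, ∑ ρ ∈ Q, c π * d ρ * sg (s π ρ)| ^ 24 * z ≤ C * ((A : ℝ) * B) ^ 24

/-- the pairs of indices -/
noncomputable def prs (ι : Type) [Fintype ι] [LinearOrder ι] : Finset (ι × ι) :=
  univ.filter fun e => e.1 < e.2

/-- the table of the symbols of a tuple -/
noncomputable def tb {ι : Type} [Fintype ι] [LinearOrder ι] (p : ι → ZI) : prs ι → ZMod 2 :=
  fun e => s (p e.1.1) (p e.1.2)

/-- the bilinear hypothesis for a box -/
def HB {ι : Type} (C : ι → Finset ZI) (X : ι → ℕ) (κ : ℝ) : Prop :=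
  ∀ i l : ι, i ≠ l → ∀ c d : ZI → ℝ, (∀ π, |c π| ≤ 1) → (∀ ρ, |d ρ| ≤ 1) →
    |∑ x ∈ C i, ∑ y ∈ C l, c x * d y * sg (s x y)| ≤ κ * (X i * X l)

/-- JOB GN-EQ (after `Y710/XK/EQ.lean`): equidistribution of the symbols of a tuple. -/
def S_EQ : Prop := ∀ (ι : Type) [Fintype ι] [LinearOrder ι] (C : ι → Finset ZI)
  (X : ι → ℕ) (κ : ℝ), 0 ≤ κ → (∀ i, (C i).card ≤ X i) → HB C X κ →
  ∀ Q : (prs ι → ZMod 2) → Prop,
    |(((Fintype.piFinset C).filter fun p => Q (tb p)).card : ℝ) -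
      ((univ.filter Q).card : ℝ) / 2 ^ (prs ι).card * ∏ j, ((C j).card : ℝ)| ≤
    2 ^ (prs ι).card * (κ * ∏ j, (X j : ℝ))

/-- the label of a prime `x` with respect to the set `S` -/
noncomputable def lb (S : Finset ZI) (x : ZI) : (S → ZMod 2) × ZMod 4 := (fun u => s u x, fc x)

/-- admissible tuples -/
def Tu {ι : Type} (S : Finset ZI) (p : ι → ZI) : Prop :=
  Function.Injective p ∧ ∀ i, PP (p i) ∧ p i ∉ S

/-- the condition `N` on small and large primes depends on the labels of the large primes only -/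
def LabN (N : Finset ZI → Finset ZI → Prop) (W : Finset ZI) : Prop :=
  ∀ (ι : Type) [Fintype ι] (S₀ : Finset ZI) (p q : ι → ZI), (∀ u ∈ S₀, PP u) →
    Tu (S₀ ∪ W) p → Tu (S₀ ∪ W) q → (∀ i, lb (S₀ ∪ W) (p i) = lb (S₀ ∪ W) (q i)) →
    N S₀ (univ.image p) → N S₀ (univ.image q)

/-- for given admissible labels the proportion of the tables of symbols of the large primes with the
property `T` is in the interval `[c - ε, c + ε]` (up to a sandwich `Q₁ ⊆ T ⊆ Q₂`) -/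
def Loc (N : Finset ZI → Finset ZI → Prop) (T : Finset ZI → Prop) (W : Finset ZI) (c ε : ℝ) : Prop :=
  ∀ (ι : Type) [Fintype ι] [LinearOrder ι] (S₀ : Finset ZI) (q : ι → ZI), (∀ u ∈ S₀, PP u) →
    Tu (S₀ ∪ W) q → N S₀ (univ.image q) →
    ∃ Q₁ Q₂ : (prs ι → ZMod 2) → Prop,
      (c - ε) * 2 ^ (prs ι).card ≤ ((univ.filter Q₁).card : ℝ) ∧
      ((univ.filter Q₂).card : ℝ) ≤ (c + ε) * 2 ^ (prs ι).card ∧
      ∀ p : ι → ZI, Tu (S₀ ∪ W) p → (∀ i, lb (S₀ ∪ W) (p i) = lb (S₀ ∪ W) (q i)) →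
        (Q₁ (tb p) → T (S₀ ∪ univ.image p)) ∧ (T (S₀ ∪ univ.image p) → Q₂ (tb p))

/-- the statement for the boxes -/
def BX (N : Finset ZI → Finset ZI → Prop) (T : Finset ZI → Prop) (W : Finset ZI) (c ε : ℝ) :
    Prop := ∀ (ι : Type) [Fintype ι] [LinearOrder ι] (C : ι → Finset ZI) (X : ι → ℕ)
  (κ : ℝ) (S₀ : Finset ZI), 0 ≤ κ → (∀ i, (C i).card ≤ X i) → HB C X κ → (∀ u ∈ S₀, PP u) →
  (∀ i, ∀ π ∈ C i, PP π ∧ π ∉ S₀ ∪ W) → (∀ i l, i ≠ l → Disjoint (C i) (C l)) →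
  |(((Fintype.piFinset C).filter fun p => N S₀ (univ.image p) ∧ T (S₀ ∪ univ.image p)).card : ℝ) -
      c * (((Fintype.piFinset C).filter fun p => N S₀ (univ.image p)).card : ℝ)| ≤
    ε * (((Fintype.piFinset C).filter fun p => N S₀ (univ.image p)).card : ℝ) +
    2 ^ (((S₀ ∪ W).card + 2) * Fintype.card ι + (prs ι).card) * (κ * ∏ j, (X j : ℝ))

/-- JOB GN-BOX (after `Q110/NL/Box.lean`, `Y688/XK/BOX.lean`): split the box into the classes of the labels
(at most `2 ^ ((#(S₀ ∪ W) + 2) #ι)`), apply S_EQ to `Q₁` and `Q₂` on each class which has a tuple with `N`. -/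
def S_BOX : Prop := S_EQ → ∀ (N : Finset ZI → Finset ZI → Prop) (T : Finset ZI → Prop)
  (W : Finset ZI) (c ε : ℝ), 0 ≤ c → 0 ≤ ε → (∀ u ∈ W, PP u) → LabN N W → Loc N T W c ε →
  BX N T W c ε

/-- JOB GN-KEY (after `Y696/XL/Key.lean` or `Q34/NL/Key.lean`): the sum over the boxes. -/
def S_KEY : Prop := S_BIL → ∃ C : ℝ, 1 ≤ C ∧
  ∀ (N : Finset ZI → Finset ZI → Prop) (T : Finset ZI → Prop) (W : Finset ZI) (c ε : ℝ), 0 ≤ c →
  c ≤ 1 → 0 ≤ ε → (∀ u ∈ W, PP u) → BX N T W c ε → ∀ (X z H k M : ℕ) (κ : ℝ),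
  (∀ u ∈ W, nrm u ≤ z) → W.card ≤ k → 1 ≤ k → 1 ≤ X → 1 ≤ H → 1 ≤ z → 0 ≤ κ → C ≤ κ ^ 24 * z →
  (H : ℝ) * Real.log X < M →
  |(((RR X z H k).filter fun S => N (sm z S) (la z S) ∧ T S).card : ℝ) -
      c * (((RR X z H k).filter fun S => N (sm z S) (la z S)).card : ℝ)| ≤
    ε * ((RR X z H k).card : ℝ) +
    (9 * M + 9 : ℝ) ^ k * (3 ^ (20 * k ^ 2 + 20) * κ) * (X * (1 + Real.log X))

/-- JOB GN-CNT (after `Y474/XK/CNT.lean`): sets with many primes, sets near the boundary, sets with two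
primes in a block. -/
structure CntP (C : ℝ) : Prop where
  one : 1 ≤ C
  all : ∀ X : ℕ, 1 ≤ X → ((SS X).card : ℝ) ≤ C * X
  many : ∀ X k : ℕ, 1 ≤ X → (((SS X).filter fun S => k < S.card).card : ℝ) * 2 ^ k ≤
    C * (X * (1 + Real.log X))
  cut : ∀ X z H k : ℕ, 1 ≤ X → 1 ≤ H → 1 ≤ k → (((SS X).filter fun S => S.card ≤ k ∧
    X < (∏ π ∈ sm z S, nrm π) * ∏ π ∈ la z S, XX H (bl H π)).card : ℝ) ≤
      C * (X * (1 + Real.log X)) * (k / H) + C * X * Real.exp (-(Real.log X) / k)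
  coll : ∀ X z H : ℕ, 1 ≤ X → 1 ≤ z → 1 ≤ H → (((SS X).filter fun S =>
    ¬ Set.InjOn (bl H) (la z S : Set ZI)).card : ℝ) ≤ C * (X * (1 + Real.log X)) / H + C * X / z

/-- GN-CNT -/
def S_CNT : Prop := ∃ C : ℝ, CntP C

/-- JOB GN-HAL: mean value of the function that is `1/2` at the primes with symbol `-1`, for a nontrivial
symbol. Proof. Let `g = 1/2` if `jac G π = -1` and `1` else, `h = 2 g - 1` (`0` or `1`). By `hall1` and `hall2`
it suffices to bound `∑ mf (2 g) n / nrm n` over `n ∈ PB (T²)` by `C (lg (nrm G)) ^ (3/2) (lg T) ^ (3/2)`. As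
`2 g = 1 + h`, `mf (1 + h) n = ∑ mf h d` over the squarefree primary `d ∣ n`, so the sum is at most
`(∑ d ∈ SB (T²), mf h d / nrm d) * ∑ m ∈ PB (T²), 1 / nrm m`, the second factor at most `18 lg (T²)` (`hsum`). In
the first factor write `d = d₁ d₂` with `d₂` the part of the primes dividing `G`: it is at most
`(∑ d₂ ∈ SB (nrm G), 1 / nrm d₂) * ∑ d₁ ∈ SB (T²), mf ((1 + jac G) / 2)' d₁ / nrm d₁` where only `d₁` prime to
`G` are taken, and the last sum is at most `C √(lg (nrm G) lg T)` by `hall2`, `conv_le`, `conv_sum`, `chs_log`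
exactly as in the proof of `hallG`. -/
def S_HAL : Prop := ∃ C : ℝ, 1 ≤ C ∧ ∀ (G : ZI) (T : ℕ), PS G → G ≠ 1 → 1 ≤ T →
  ∑ n ∈ SB T, mf (fun π => if jac G π = -1 then (1 / 2 : ℝ) else 1) n ≤
    C * lg (nrm G) * (T * (lg T) ^ (-(1 / 4) : ℝ))

/-- JOB GN-HA4: the same for the character `(-1) ^ ((N - 1) / 4)` instead of `jac G`. Proof as for GN-HAL with
the completely multiplicative function `χ n = 1` or `-1` for primary `n` with `nrm n % 8 = 1` or `5`; the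
bound for `∑ d ∈ PB Y, χ d / nrm d` comes from `|∑ d ∈ PB V, χ d| ≤ C √V` (the primary `n` are those `≡ 1` or
`3 + 2 i` modulo `4`, of norm `1` resp. `5` modulo `8`; lattice points in a disc, see `CC_hi'`, `CC_lo'` of
`Y699/Sqf.lean` or better `csum` of `Y699/Csum.lean`) by partial summation as in `chs_log`. -/
def S_HA4 : Prop := ∃ C : ℝ, 1 ≤ C ∧ ∀ T : ℕ, 1 ≤ T →
  ∑ n ∈ SB T, mf (fun π => if nrm π % 8 = 5 then (1 / 2 : ℝ) else 1) n ≤
    C * (T * (lg T) ^ (-(1 / 4) : ℝ))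

/-- for every nonempty subset `w` of `S₀` at least `L` primes `π` of `S₁` for which the product of the primes
of `w` is not a square modulo `π` -/
def RN (L : ℕ) (S₀ S₁ : Finset ZI) : Prop :=
  ∀ w : Finset ZI, w ⊆ S₀ → w.Nonempty → L ≤ (S₁.filter fun π => ∑ u ∈ w, s u π ≠ 0).card

/-- the regular labels -/
def Rg (A R : ℕ) (W S₀ S₁ : Finset ZI) : Prop :=
  RN (A * (S₀ ∪ W).card + R) (S₀ ∪ W) S₁ ∧
    A * (S₀ ∪ W).card + R ≤ (S₁.filter fun π => fc π = 1 ∨ fc π = 3).card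

/-- JOB GN-BAD (after `Y433/XK/Gen.lean`, `Y433/XK/Few.lean`): few sets have irregular labels. For a given
small part `S₀` and `w ⊆ S₀ ∪ W` nonempty (at most `2 ^ (#S₀ + #W)` of them) the number of the sets `S` with
small part `S₀` and fewer than `L = A #(S₀ ∪ W) + R` large primes `π` with symbol `-1` is at most
`2 ^ L ∑ mf g n` over `n ∈ SB (X / nrm S₀)`, to which S_HAL applies; the sum over `S₀` as in `gen` (with the
exponent `-1/4` instead of `-1/3`). In the same way S_HA4 for the second condition (`fc π = 1 ∨ fc π = 3` iff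
`nrm π % 8 = 5` for a primary prime). -/
def S_BAD : Prop := SymP → S_HAL → S_HA4 → ∀ (A R : ℕ) (W : Finset ZI), (∀ u ∈ W, PP u) →
  ∀ ε : ℝ, 0 < ε → ∃ X₀ : ℕ, ∀ X : ℕ, X₀ ≤ X →
  (((SS X).filter fun S => S.card ≤ kk X ∧ ¬ Rg A R W (sm (zz X) S) (la (zz X) S)).card : ℝ) ≤ ε * X

/-- the class: condition on the norm of the product modulo `16` and no prime of `V` -/
def Kc (κ : ZMod 4 → Prop) (V S : Finset ZI) : Prop := κ (∑ π ∈ S, fc π) ∧ Disjoint V S

/-- the class and the regular labels -/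
def NK (κ : ZMod 4 → Prop) (V : Finset ZI) (A R : ℕ) (W S₀ S₁ : Finset ZI) : Prop :=
  Kc κ V (S₀ ∪ S₁) ∧ Rg A R W S₀ S₁

/-- JOB GN-LAB (after `Q155.NL.labN` in `Q155/NL/Main.lean`) -/
def S_LAB : Prop := SymP → ∀ (κ : ZMod 4 → Prop) (V : Finset ZI) (A R : ℕ) (W : Finset ZI), V ⊆ W →
  (∀ u ∈ W, PP u) → LabN (NK κ V A R W) W

/-- JOB GN-LOW: the classes have positive density. Proof: `Pool.Agent.Y699.sqf_count4` gives all the classes
for `V = ∅`. For general `V`: a set in the class `r` is `D ∪ S'` with `D ⊆ V` and `S'` disjoint from `V`; so for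
every `X` one of the classes `r'` has at least `c X` sets disjoint from `V` of norm at most `X`; choose for every
`t : ZMod 4` a prime `ρ_t ∉ V` with `fc ρ_t = t` (add them to `V` first: `V' = V ∪ {ρ_0, ..., ρ_3}`), and map `S'`
to `S' ∪ {ρ_(r - r')}`. -/
def S_LOW : Prop := ∀ (κ : ZMod 4 → Prop) (V : Finset ZI), (∃ r, κ r) → (∀ u ∈ V, PP u) →
  ∃ (c : ℝ) (X₀ : ℕ), 0 < c ∧ ∀ X : ℕ, X₀ ≤ X → c * X ≤ (((SS X).filter (Kc κ V)).card : ℝ)

/-- JOB GN-ASY (after `Y703/XK/Asy.lean`, `Q34/NL/Asy.lean`): the proportion. -/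
def S_ASY : Prop := S_BIL → S_KEY → S_CNT → (∀ (A R : ℕ) (W : Finset ZI), (∀ u ∈ W, PP u) →
    ∀ ε : ℝ, 0 < ε → ∃ X₀ : ℕ, ∀ X : ℕ, X₀ ≤ X → (((SS X).filter fun S => S.card ≤ kk X ∧
      ¬ Rg A R W (sm (zz X) S) (la (zz X) S)).card : ℝ) ≤ ε * X) →
  ∀ (κ : ZMod 4 → Prop) (V W : Finset ZI) (T : Finset ZI → Prop) (c : ℝ), 0 ≤ c → c ≤ 1 →
  (∀ u ∈ W, PP u) →
  (∃ (c₀ : ℝ) (X₀ : ℕ), 0 < c₀ ∧ ∀ X : ℕ, X₀ ≤ X → c₀ * X ≤ (((SS X).filter (Kc κ V)).card : ℝ)) →
  (∀ ε : ℝ, 0 < ε → ∃ A R : ℕ, BX (NK κ V A R W) T W c ε) →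
  Tendsto (fun X : ℕ => (((SS X).filter fun S => Kc κ V S ∧ T S).card : ℝ) /
    (((SS X).filter (Kc κ V)).card : ℝ)) atTop (nhds c)

/-- the kernel of the Laplacian of the set `S` -/
def Kl (S : Finset ZI) : Submodule (ZMod 2) (ZI → ZMod 2) where
  carrier := {x | (∀ π, π ∉ S → x π = 0) ∧ ∀ π ∈ S, ∑ ρ ∈ S, s π ρ * (x ρ + x π) = 0}
  add_mem' := by
    rintro x y ⟨h1, h2⟩ ⟨h3, h4⟩
    refine ⟨fun p hp => by rw [Pi.add_apply, h1 p hp, h3 p hp, add_zero], fun p hp => ?_⟩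
    have e4 : ∑ q ∈ S, s p q * ((x + y) q + (x + y) p) =
        ∑ q ∈ S, s p q * (x q + x p) + ∑ q ∈ S, s p q * (y q + y p) := by
      rw [← sum_add_distrib]
      refine sum_congr rfl fun q _ => ?_
      simp only [Pi.add_apply]
      ring
    rw [e4, h2 p hp, h4 p hp, add_zero]
  zero_mem' := by
    refine ⟨fun p _ => rfl, fun p _ => ?_⟩
    simp only [Pi.zero_apply, add_zero, mul_zero, sum_const_zero]
  smul_mem' := by
    rintro c x ⟨h1, h2⟩
    refine ⟨fun p hp => by rw [Pi.smul_apply, h1 p hp, smul_zero], fun p hp => ?_⟩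
    have e3 : ∑ q ∈ S, s p q * ((c • x) q + (c • x) p) = c * ∑ q ∈ S, s p q * (x q + x p) := by
      rw [mul_sum]
      refine sum_congr rfl fun q _ => ?_
      simp only [Pi.smul_apply, smul_eq_mul]
      ring
    rw [e3, h2 p hp, mul_zero]

theorem mem_Kl {S : Finset ZI} {x : ZI → ZMod 2} : x ∈ Kl S ↔
    (∀ π, π ∉ S → x π = 0) ∧ ∀ π ∈ S, ∑ ρ ∈ S, s π ρ * (x ρ + x π) = 0 := Iff.rfl

/-- the corank of the reduced Laplacian -/
noncomputable def bb (S : Finset ZI) : ℕ := Module.finrank (ZMod 2) (Kl S) - 1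

end Q155.GN
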