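import Pool.Agent.Q155.GN.Stm
import Pool.Agent.Q155.NL.Vr
import Pool.Agent.Q155.NL.Law
import Pool.Agent.Q283.GM.LA
import Pool.Agent.Y699.Qk

/-!
# Project GN: the linear algebra and the laws

Pure Laplacians (no passive primes): the matrix of a set of primes `S` is the Laplacian of the symmetric graph of
the symbols. Deleting the row and the column of one prime (a root) gives the matrices of project NL, with
the root as the only passive prime.
-/

set_option autoImplicit false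
set_option linter.unusedVariables false

open scoped Classical

namespace Q155.GN

open Finset Filter Matrix
open H385 (ZI nrm)
open Pool.Agent.Y699 (PP PS PD SB qr Good Good4)
open Q155.KT (kz)
open Q155.KG (Lm FI al)
open Pool.Agent.Q1.PT (avg)
open Q155.NL (NU kU)

section
variable {τ ι : Type} [Fintype τ] [Fintype ι]

/-- the Laplacian of a table of weights: the diagonal is replaced by the sums of the rows -/
noncomputable def lapM (M : Matrix τ τ (ZMod 2)) : Matrix τ τ (ZMod 2) :=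
  Matrix.of fun r r' => if r = r' then ∑ r'' ∈ univ.erase r, M r r'' else M r r'

/-- the order of the kernel of the Laplacian of the small part `τ` and of the large primes of `U` -/
noncomputable def KF (M : Matrix τ τ (ZMod 2)) (v : ι → τ → ZMod 2) (U : Finset ι)
    (x : ι → ι → ZMod 2) : ℕ :=
  kz (NU (lapM M) v (fun i => ∑ r, v i r) univ U x)

/-- half of it -/
def hv (k : ℕ) : ℕ := max 1 (k / 2)

end

/-- JOB GN-ROOT: deleting a root. Both matrices are symmetric; the rows of the full matrix have sum zero, so the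
full kernel is the direct sum of the constant vectors and of the vectors which vanish at `b`, and the equation of
the row `b` is the sum of the other ones. -/
def S_ROOT : Prop := ∀ (τ ι : Type) [Fintype τ] [Fintype ι] (M : Matrix τ τ (ZMod 2))
  (v : ι → τ → ZMod 2) (U : Finset ι) (x : ι → ι → ZMod 2) (b : ι) (J1 : Finset ι), M.IsSymm →
  b ∈ U → J1 ∩ U = U.erase b → KF M v U x = 2 * kU (lapM M) v (fun i => ∑ r, v i r) J1 U x

/-- JOB GN-SEC (after `Q155.NL.second` in `Q155/NL/Vr.lean`, `Q155/NL/Cmb.lean`): the second moment with weights.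
Expand the square into pairs `(U, U')`. If there are `b ∈ U \ U'`, `b' ∈ U' \ U` and `Sep v (U ∩ U')` holds take
`J1 = univ \ {b, b'}`; by S_ROOT `hv (KF U) = kU J1 U` and `hv (KF U') = kU J1 U'`, and `Q155.NL.good_le` applies
to `F (kU U) - ℓ` with `G = F (kU U') - ℓ` (depends on the rows of `U'` only, `kU_inr`); the bound is
`2 ^ (#τ + 1) (1/2) ^ (#(U \ U') - 1)`, of mean `2 ^ (#τ + 2) (7/8) ^ #ι`. The other pairs: `U ⊆ U'` or `U' ⊆ U`,
of probability `(3/4) ^ #ι` each, and `Sep` fails with probability at most `2 ^ #τ (3/4) ^ L`. -/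
def S_SEC : Prop := S_ROOT → ∀ (τ ι : Type) [Fintype τ] [Fintype ι] (M : Matrix τ τ (ZMod 2))
  (v : ι → τ → ZMod 2), M.IsSymm → ∀ L : ℕ,
  (∀ w : τ → ZMod 2, w ≠ 0 → L ≤ (univ.filter fun i => ∑ r, w r * v i r ≠ 0).card) →
  ∀ (F : ℕ → ℝ) (ℓ : ℝ), Lm F ℓ → (∀ z, |F z - ℓ| ≤ 1) → ∀ ω : Finset ι → ℝ, (∀ U, |ω U| ≤ 1) →
  avg (fun x : ι → ι → ZMod 2 => (avg fun U : Finset ι => ω U * (F (hv (KF M v U x)) - ℓ)) ^ 2) ≤
    2 ^ (Fintype.card τ + 3) * ((3 / 4) ^ L + (7 / 8) ^ Fintype.card ι)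

/-- JOB GN-FST (after `Q155.NL.first`): the first moment of the mean order of the kernels. -/
def S_FST : Prop := S_ROOT → ∀ (τ ι : Type) [Fintype τ] [Fintype ι] (M : Matrix τ τ (ZMod 2))
  (v : ι → τ → ZMod 2), M.IsSymm → ∀ L : ℕ,
  (∀ w : τ → ZMod 2, w ≠ 0 → L ≤ (univ.filter fun i => ∑ r, w r * v i r ≠ 0).card) →
  avg (fun x : ι → ι → ZMod 2 => avg fun U : Finset ι => (hv (KF M v U x) : ℝ)) ≤
    2 + 2 ^ (2 * Fintype.card τ + 5) * ((3 / 4) ^ L + (7 / 8) ^ Fintype.card ι)

/-- the law in each of the four classes -/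
def LawC {I : Type} [Fintype I] (cl : I → ZMod 4) (K : I → ℕ) (ε : ℝ) : Prop :=
  ∀ c : ZMod 4, |avg (fun i => if cl i = c then (1 : ℝ) else 0) - 1 / 4| ≤ ε ∧
    (∀ b : ℕ, |avg (fun i => (if cl i = c then (1 : ℝ) else 0) * FI b (K i)) - al b / 4| ≤ ε) ∧
    |avg (fun i => (if cl i = c then (1 : ℝ) else 0) * (K i : ℝ)) - 1 / 2| ≤ ε

/-- JOB GN-ABS (after `Q155.NL.abs_law` in `Q155/NL/Law.lean`): from the moments to the law in the classes. The
tail `∑ b ≥ B` of the mean of `K` over all classes together is small for most `ω` (the part `b < B` of the mean is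
close to `∑ b < B, 2 ^ b al b ≥ 2 - δ`, the whole mean is at most `2 + η` on average); so the tail in each class is
small. -/
def S_ABS : Prop := ∀ ε ε' : ℝ, 0 < ε → 0 < ε' → ∃ η : ℝ, 0 < η ∧
  ∀ (Ω I : Type) [Fintype Ω] [Fintype I] [Nonempty Ω] [Nonempty I] (cl : I → ZMod 4)
    (K : Ω → I → ℕ),
    (∀ c, |avg (fun i => if cl i = c then (1 : ℝ) else 0) - 1 / 4| ≤ η) →
    (∀ (b : ℕ) (c : ZMod 4), avg (fun ω => (avg fun i =>
      (if cl i = c then (1 : ℝ) else 0) * (FI b (K ω i) - al b)) ^ 2) ≤ η) →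
    avg (fun ω => avg fun i => (K ω i : ℝ)) ≤ 2 + η →
    ((univ.filter fun ω => ¬ LawC cl (K ω) ε).card : ℝ) ≤ ε' * Fintype.card Ω

/-- JOB GN-CLS: the classes of the subsets. Induction on the index set: let `a c` be the proportion of the `U`
with `a₀ + ∑ i ∈ U, f i = c`; one more index with value `f` replaces `a c` by `(a c + a (c - f)) / 2`, which
multiplies `∑ c, (a c - 1/4)²` by at most `1` (Cauchy-Schwarz), and by at most `1/2` if `f` is odd. So
`|a c - 1/4| ≤ (1/√2) ^ #{i | f i odd}`. -/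
def S_CLS : Prop := ∀ (ι : Type) [Fintype ι] (f : ι → ZMod 4) (a c : ZMod 4),
  |avg (fun U : Finset ι => if a + ∑ i ∈ U, f i = c then (1 : ℝ) else 0) - 1 / 4| ≤
    (3 / 4) ^ (univ.filter fun i => f i = 1 ∨ f i = 3).card

/-- JOB GN-TAB (after `Q155/NL/Tab.lean`: `kz_mS`, `kU_eq`): the kernel of the Laplacian of a set as a matrix. -/
def S_TAB : Prop := SymP → ∀ (ι : Type) [Fintype ι] (S₁ T₀ : Finset ZI) (p : ι → ZI)
  (U : Finset ι) (X : ι → ι → ZMod 2), (∀ u ∈ T₀, PP u) → T₀ ⊆ S₁ → Tu S₁ p →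
  (∀ i l, i ≠ l → X i l + X l i = s (p i) (p l)) →
  2 ^ Module.finrank (ZMod 2) (Kl (T₀ ∪ U.image p)) =
      KF (Matrix.of fun u u' : ↥T₀ => s u u') (fun i (u : ↥T₀) => s u (p i)) U X ∧
    2 ^ bb (T₀ ∪ U.image p) =
      hv (KF (Matrix.of fun u u' : ↥T₀ => s u u') (fun i (u : ↥T₀) => s u (p i)) U X)

/-- the law over the divisors `d` of `S`, twisted by `U₀`, in each class of the norm modulo `16` -/
def LawD (U₀ : Finset ZI) (ε : ℝ) (S : Finset ZI) : Prop :=
  LawC (I := ↥S.powerset) (fun d => ∑ π ∈ symmDiff d.1 U₀, fc π)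
    (fun d => 2 ^ bb (symmDiff d.1 U₀)) ε

/-- JOB GN-LQ (after `Q155/NL/LocT.lean`, `Q155/NL/LocM.lean`): the law over the divisors holds for most tables.
`Q₂ = True`; `A = 12`. The divisors of `S₀ ∪ p(ι)` are the pairs `(w, U)`, `w ⊆ S₀`, `U ⊆ ι`, and
`symmDiff (w ∪ p(U)) U₀ = symmDiff w U₀ ∪ p(U)`. The mean over `(w, U)` is the mean over `w` of the means over `U`;
the square of a mean is at most the mean of the squares; S_SEC with the weights `ω U = 1` if the class is `c` and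
`0` else, `F = FI b` (`lm_FI`), S_FST, S_CLS, S_TAB, then S_ABS. The tables `x` of type `ι → ι → ZMod 2` map
onto the tables of type `prs ι → ZMod 2` by `x ↦ x i l + x l i` (`φp` in LocT). -/
def S_LQ : Prop := SymP → S_ROOT → S_SEC → S_FST → S_ABS → S_CLS → S_TAB →
  ∀ (κ : ZMod 4 → Prop) (V U₀ W : Finset ZI), U₀ ⊆ W → (∀ u ∈ W, PP u) → ∀ ε : ℝ, 0 < ε →
  ∃ A R : ℕ, Loc (NK κ V A R W) (LawD U₀ ε) W 1 ε

/-- JOB GN-LJ (after `Q283/GM/BOX.lean`: `rk_eq`, `ndF_iff` and the use of `Q283.GM.t_LA`): the joint law of the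
coranks of `M` twists. `c = ∏ k, al (r k)`. Choose a root `i₀ : ι` and `J1 = univ \ {i₀}`; for
`S = S₀ ∪ p(ι)` the set `symmDiff S (U k) = symmDiff S₀ (U k) ∪ p(ι)` contains the root, and `bb` of it is the
dimension of the vectors on the set minus the root which satisfy the equations of the primes different from the
root (as in S_ROOT), that is `finrank (KM ...)` with `m k = symmDiff S₀ (U k)`, all small primes active, `f = 0`,
`g = 0`; `Q283.GM.t_LA` gives the proportion of the tables (`Pool.Agent.Y703.CQ.prs J1`: the pairs in `J1` once and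
the pairs `(i, i₀)`, in bijection with `prs ι`); its hypotheses follow from `Rg A R W`, `A = 3`: the vectors `w` on
`S₀ ∪ W` by `RN`, the separation of `U k ≠ U l` by `RN` for `w = symmDiff (U k) (U l)`, one prime lost for the root.
`Q155.NL.al_cf`: `al b = c2 * cf b`. -/
def S_LJ : Prop := SymP → ∀ (κ : ZMod 4 → Prop) (V W : Finset ZI) (M : ℕ) (U : Fin M → Finset ZI)
  (r : Fin M → ℕ), Function.Injective U → (∀ k, U k ⊆ W) → (∀ u ∈ W, PP u) → ∀ ε : ℝ, 0 < ε →
  ∃ A R : ℕ, Loc (NK κ V A R W) (fun S => ∀ k, bb (symmDiff S (U k)) = r k) W (∏ k, al (r k)) ε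

/-- JOB GN-GOOD: the criteria of the library `Y699` in terms of the corank: the decompositions `D = d d'` with
`qr π d' = 1` for `π ∣ d` and `qr π d = 1` for `π ∣ d'` are the elements of `Kl S` (`x` = indicator of the primes of
`d`); the constant function on `S` is in `Kl S`. (`Y699/Crit.lean`, `Y699/Qk.lean`, `Y699/Pd.lean`: `PS_prod`,
`PS.prod`.) -/
def S_GOOD : Prop := SymP → ∀ S : Finset ZI, (∀ π ∈ S, PP π) →
  (Good (∏ π ∈ S, π) ↔ (∑ π ∈ S, fc π = 1 ∨ ∑ π ∈ S, fc π = 3) ∧ bb S = 0) ∧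
  (Good4 (∏ π ∈ S, π) ↔ ∑ π ∈ S, fc π = 3 ∧ bb S = 0)

/-- JOB GN-NS: from the sets of primes to the squarefree primary Gaussian integers. -/
def S_NS : Prop := ∀ (X : ℕ) (P : ZI → Prop),
  ((SS X).filter fun S => P (∏ π ∈ S, π)).card = ((SB X).filter P).card

end Q155.GN
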