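import Pool.Agent.Q155.GN.Stm
import Pool.Agent.Y715.Z.Sel

/-!
# Project GN: the arithmetic of the curves `y² = x³ + D x` and `y² = x³ - D² x` over `ℚ(i)`

`D` is the product of a finite set `S` of primary primes with `∑ π ∈ S, fc π` odd (norm `5` modulo `8`). For both
curves the Selmer groups of the multiplication by `1 + i` are the kernel `Kl S` of the Laplacian.
-/

set_option autoImplicit false
set_option linter.unusedVariables false

open scoped Classical

namespace Q155.GN

open Finset NumberField IsDedekindDomain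
open H385 (ZI nrm)
open Pool.Agent.Y699 (PP PS qr)
open Pool.Agent.Y682 (IsT MP S1 S2)
open Pool.Agent.Y715.Z (em0)

/-- one of the two curves `y² = x³ + D x` and `y² = x³ - D² x` -/
def Cu {K : Type} [Field K] (W : WeierstrassCurve K) (D : K) : Prop :=
  IsT W 0 D ∨ IsT W 0 (-D ^ 2)

/-- the odd classes of the norm modulo `16` -/
def Od (S : Finset ZI) : Prop := ∑ π ∈ S, fc π = 1 ∨ ∑ π ∈ S, fc π = 3

/-- JOB GN-SEL (generalise `Pool.Agent.Y715.Z.sel` and `sha_two` in `Y715/Z/Sel.lean`): the upper bound. For both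
curves the local conditions `S1`, `S2` at the primes `π ∣ D` say that `b` is a square or `D` times a square
(for `y² = x³ - D² x`: `m (m - D) (m + D) = y²`, `v(m) ≤ 0` gives `m` square, `v(m) ≥ 2` gives `-m` square,
`v(m) = 1` gives `m = ± D u` with `u ≡ 1`), at the other primes (also `1 + i`) that the valuation of `b` is even.
So `b = u d c²`, `u` a unit, `d` the product of the primes of a subset of `S`; the first part of
`Pool.Agent.Y715.Z.ends` shows that `u` is a square and that the indicator of the subset is in `Kl S`. `Zc_card`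
with `#U, #V ≤ #(Kl S) = 2 ^ (bb S + 1)`, then `Zc_lower`. -/
def S_SEL : Prop := SymP → ∀ S : Finset ZI, (∀ π ∈ S, PP π) → Od S →
  ∀ (K : Type) [Field K] [NumberField K] (e : ZI ≃+* 𝓞 K) (W : WeierstrassCurve K),
  Cu W (em0 e (∏ π ∈ S, π)) →
  Finite {x : Pool.Agent.TH841.NF.D.Sha W // 2 • x = 0} ∧
    2 ^ (Module.finrank ℤ (MP W)) * Nat.card {x : Pool.Agent.TH841.NF.D.Sha W // 2 • x = 0} ≤
      4 ^ bb S

/-- a point with `x`-coordinate in the class of `d` on the isogenous curve -/
def LC (L : Type) [Field L] (a b d : L) : Prop :=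
  ∃ X Y r : L, X ≠ 0 ∧ Y ^ 2 = X ^ 3 - 2 * a * X ^ 2 + (a ^ 2 - 4 * b) * X ∧ X = d * r ^ 2

/-- JOB GN-CV (port of `Y79/SG/Coc.lean`, `Y79/SG/Lot.lean`, `Y945/SG/Cob.lean` and of `coc_mul`, `sha_inj` in
`Y698/SG/Eba.lean` from integer coefficients `a b d : ℤ` to coefficients `a b d : K`; no torsion argument). -/
def S_CV : Prop := ∀ (K : Type) [Field K] [NumberField K] (W : WeierstrassCurve K) (a b : K),
  IsT W a b → ∀ (ι : Type) (d : ι → K), (∀ i, d i ≠ 0) →
  (∀ i, ∀ v : HeightOneSpectrum (𝓞 K), LC (v.adicCompletion K)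
    (algebraMap K (v.adicCompletion K) a) (algebraMap K (v.adicCompletion K) b)
    (algebraMap K (v.adicCompletion K) (d i))) →
  (∀ i, ∀ v : InfinitePlace K, LC v.Completion (algebraMap K v.Completion a)
    (algebraMap K v.Completion b) (algebraMap K v.Completion (d i))) →
  (∀ i j, i ≠ j → ¬ IsSquare (d i * d j) ∧ ¬ IsSquare (d i * d j * (a ^ 2 - 4 * b)) ∧
    ¬ LC K a b (d i * d j)) →
  ∃ f : ι → Pool.Agent.TH841.NF.D.Sha W, Function.Injective f ∧ ∀ i, f i + f i = 0

/-- JOB GN-TOR (compare `Y542/SGT/Tor.lean`): if the group of points is finite, then the classes of the points of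
the isogenous curve are `1` and `D`. With `j = 1 + i ∈ K`, `j⁴ = -4`, the isogenous curve is isomorphic to the curve
itself (`X = j² x`), so there is a point `P` of `W` with `x`-coordinate `x(P) = d r²`; the class of `x` is additive, the
group is finite, so one may multiply `P` by an odd number and assume that the order of `P` is a power of two.
The points of order two: `(0, 0)` [class of the point `(0, 0)` to be treated apart: here `X ≠ 0` in `LC`], and
`(± D, 0)` for the second curve; there is no point `P` with `2 P = (0, 0)` (`x² = B` resp. `x = ± i D`,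
`y² = ∓ 2 i D³`) or `2 P = (± D, 0)`, as `± D` is not a square. The hypothesis `he` is all what is needed from the
arithmetic: `D` and `-D` are not squares. -/
def S_TOR : Prop := ∀ (K : Type) [Field K] [NumberField K] (i D : K), i ^ 2 = -1 → D ≠ 0 →
  ¬ IsSquare D → ∀ W : WeierstrassCurve K, Finite (MP W) → ∀ d : K,
  (IsT W 0 D → LC K 0 D d → IsSquare d ∨ IsSquare (d * D)) ∧
  (IsT W 0 (-D ^ 2) → LC K 0 (-D ^ 2) d → IsSquare d ∨ IsSquare (d * D))

/-- JOB GN-LGD: the primes of good reduction. `v` is an odd place of `K`, `d` and `D = d d'` are units at `v`, the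
residue field `k` contains `i`. Put `B = D` resp. `B = -D²`; one needs `X = d r²` with `X (X² - 4 B) = Y²`; with
`X = 2 i x = (1 + i)² x` this is `x (x² + B) = y²`, `x = d t²`, that is `d t⁴ + B / d = w²`. If `d` is a square at `v` take
`t` of large absolute value; if `B / d` is a square take `t` of small absolute value (`≠ 0`). If both are not squares
(then `B` is a square in `k`) count over `k` (`q` elements): let `A c` be the number of the pairs `(t, w)` with
`t ≠ 0` and `c t⁴ + B / c = w²`, and `N` the number of the affine points with `x ≠ 0` of `y² = x³ + B x`. For `g` not a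
square `2 N = A 1 + A g` (`x = c t²`, `y = c t w`, the pairs `(t, w)` and `(-t, -w)` give the same point); for `c = 1`:
`(w - t²) (w + t²) = B`, `s = w - t²`, `2 t² = B / s - s`, so with `s = i S`, `Y = t s` one has
`S³ + B S = ((1 - i) Y)²`, `S ≠ 0`, `Y ≠ 0`: `A 1 = N - 2` (two points have `x ≠ 0`, `y = 0`, as `-B` is a square). So `A g = N + 2 > 0`. A pair `(t, w)` over `k` lifts to `v` by Hensel (`hens_odd` in
`Y715/Z/Loc.lean`; if `w = 0` solve `t⁴ = - B / d²` instead, `1 + x` is a fourth power). A proof with Jacobi sums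
(`q - 3 - 2 √q > 0` for `q > 9`) is possible as well. -/
def S_LGD : Prop := ∀ (K : Type) [Field K] [NumberField K] (i : K), i ^ 2 = -1 →
  ∀ v : HeightOneSpectrum (𝓞 K), v.valuation K 2 = 1 → ∀ D d d' : K, D = d * d' →
  v.valuation K d = 1 → v.valuation K d' = 1 →
  LC (v.adicCompletion K) 0 (algebraMap K (v.adicCompletion K) D)
    (algebraMap K (v.adicCompletion K) d) ∧
  LC (v.adicCompletion K) 0 (algebraMap K (v.adicCompletion K) (-D ^ 2))
    (algebraMap K (v.adicCompletion K) d)

/-- JOB GN-LTW: the prime `1 + i`. Here `d ≡ 1` modulo `4` and `d' ≡ 1` modulo `1 + i` in `ℤ[i]`. If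
`d ≡ 1` modulo `4 (1 + i)` then `d` is a square in the completion and the curve `d t⁴ + d' = w²` (resp.
`d (t⁴ - d'²) = w²`) has points with `t` of large absolute value; otherwise `d ≡ 5` modulo `4 (1 + i)` and `t = 1 / (1 + i)`,
`t⁴ = -1/4` gives `d + t⁻⁴ d' = d - 4 d' ≡ 1` modulo `4 (1 + i)` (resp. `d (1 + 4 d'²) ≡ 5 · 5 ≡ 1`), a square. The units
`≡ 1` modulo `4 (1 + i)` are squares by Hensel (`(1 + 2 w)² = 1 + 4 (w² + w)`). -/
def S_LTW : Prop := ∀ (K : Type) [Field K] [NumberField K] (e : ZI ≃+* 𝓞 K)
  (v : HeightOneSpectrum (𝓞 K)), v.valuation K 2 < 1 → ∀ d d' : ZI, (4 : ZI) ∣ d - 1 →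
  (⟨1, 1⟩ : ZI) ∣ d' - 1 →
  LC (v.adicCompletion K) 0 (algebraMap K (v.adicCompletion K) (em0 e (d * d')))
    (algebraMap K (v.adicCompletion K) (em0 e d)) ∧
  LC (v.adicCompletion K) 0 (algebraMap K (v.adicCompletion K) (-(em0 e (d * d')) ^ 2))
    (algebraMap K (v.adicCompletion K) (em0 e d))

/-- JOB GN-LBD: the primes `π` dividing `D = d d'` (squarefree, primary). If `π ∤ d` and `qr π d = 1` then `d` is a square
in the completion; if `π ∣ d` and `qr π d' = 1` then `d D` is a square. For both curves the class of squares has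
points with `X` of large absolute value, and the class of `D`: for the first curve `X` small; for the second curve
the points with `x` near `D` (`x = D` gives the point `(D, 0)` of order two; `X = 2 i D`, `Y = 0`). -/
def S_LBD : Prop := ∀ (K : Type) [Field K] [NumberField K] (e : ZI ≃+* 𝓞 K)
  (v : HeightOneSpectrum (𝓞 K)) (π d d' : ZI), PP π → e π ∈ v.asIdeal → Squarefree (d * d') →
  d * d' ≠ 0 → (¬ π ∣ d ∧ qr π d = 1) ∨ (π ∣ d ∧ qr π d' = 1) →
  LC (v.adicCompletion K) 0 (algebraMap K (v.adicCompletion K) (em0 e (d * d')))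
    (algebraMap K (v.adicCompletion K) (em0 e d)) ∧
  LC (v.adicCompletion K) 0 (algebraMap K (v.adicCompletion K) (-(em0 e (d * d')) ^ 2))
    (algebraMap K (v.adicCompletion K) (em0 e d))

/-- JOB GN-CNV: the lower bound. `ι` = the elements `x` of `Kl S` with `∑ fc π` over the `π` with `x π = 1` in
`{0, 2}` (a subspace of index two, as the constant `1` is not in it; `2 ^ bb S` elements); `d x` = the product of
these `π`, which is `≡ 1` modulo `4` (the norm is `1` modulo `8` and `d` is primary). The local conditions by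
S_LGD (odd places not dividing `D`), S_LTW, S_LBD (the places dividing `D`); the infinite places are complex. The
global conditions: `d x * d y` is, up to squares, the product over the symmetric difference, which is neither empty nor
`S`; it is not a square and not `D` times a square (a prime of odd valuation); S_TOR, S_CV. -/
def S_CNV : Prop := SymP → S_CV → S_TOR → S_LGD → S_LTW → S_LBD →
  ∀ S : Finset ZI, (∀ π ∈ S, PP π) → Od S →
  ∀ (K : Type) [Field K] [NumberField K] (e : ZI ≃+* 𝓞 K) (W : WeierstrassCurve K),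
  Cu W (em0 e (∏ π ∈ S, π)) → Finite (MP W) →
  ∃ f : Fin (2 ^ bb S) → Pool.Agent.TH841.NF.D.Sha W, Function.Injective f ∧ ∀ i, f i + f i = 0

end Q155.GN
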